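import Mathlib

open Finset Set Filter Topology

namespace Q254.CR

/-- `σ_{-r}(n) = ∑_{d ∣ n} d^{-r}` -/
noncomputable def sg (r : ℝ) (n : ℕ) : ℝ := ∑ d ∈ n.divisors, (d : ℝ) ^ (-r)

/-- geometric partial sums `1 + x + ... + x^k` -/
noncomputable def S (x : ℝ) (k : ℕ) : ℝ := ∑ i ∈ Finset.range (k + 1), x ^ i

lemma S_zero (x : ℝ) : S x 0 = 1 := by simp [S]

lemma S_succ (x : ℝ) (k : ℕ) : S x (k + 1) = 1 + x * S x k := by
  unfold S
  rw [Finset.sum_range_succ' _ (k + 1), Finset.mul_sum, add_comm, pow_zero]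
  congr 1
  exact Finset.sum_congr rfl fun i _ => by rw [pow_succ']

lemma S_pos {x : ℝ} (h0 : 0 ≤ x) (k : ℕ) : 1 ≤ S x k := by
  unfold S
  rw [Finset.sum_range_succ' _ k]
  have : 0 ≤ ∑ i ∈ Finset.range k, x ^ (i + 1) := Finset.sum_nonneg fun i _ => by positivity
  simp only [pow_zero]
  linarith

lemma S_mono {x : ℝ} (h0 : 0 ≤ x) : Monotone (S x) := by
  refine monotone_nat_of_le_succ fun k => ?_
  unfold S
  rw [Finset.sum_range_succ _ (k + 1)]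
  have : 0 ≤ x ^ (k + 1) := by positivity
  linarith

lemma S_lt {x : ℝ} (h0 : 0 ≤ x) (h1 : x < 1) (k : ℕ) : S x k ≤ (1 - x)⁻¹ := by
  have h : 0 < 1 - x := by linarith
  rw [le_inv_comm₀ (by linarith [S_pos h0 k]) h, ← one_div, le_div_iff₀ (by linarith [S_pos h0 k])]
  have := geom_sum_mul_neg x (k + 1)
  have e : S x k * (1 - x) = 1 - x ^ (k + 1) := by unfold S; rw [this]
  have : 0 ≤ x ^ (k + 1) := by positivity
  linarith [mul_comm (1 - x) (S x k)]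

lemma S_tendsto {x : ℝ} (h0 : 0 ≤ x) (h1 : x < 1) : Tendsto (S x) atTop (𝓝 (1 - x)⁻¹) := by
  have := (hasSum_geometric_of_lt_one h0 h1).tendsto_sum_nat
  exact this.comp (tendsto_add_atTop_nat 1)

lemma S_ratio {x : ℝ} (h0 : 0 ≤ x) (k : ℕ) : S x (k + 1) ≤ (1 + x) * S x k := by
  rw [S_succ]
  nlinarith [S_pos h0 k]

lemma sg_one (r : ℝ) : sg r 1 = 1 := by simp [sg]

lemma sg_prime_pow (r : ℝ) {p : ℕ} (hp : p.Prime) (k : ℕ) :
    sg r (p ^ k) = S ((p : ℝ) ^ (-r)) k := by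
  unfold sg S
  rw [Nat.divisors_prime_pow hp, Finset.sum_map]
  refine Finset.sum_congr rfl fun i _ => ?_
  simp only [Function.Embedding.coeFn_mk]
  rw [Nat.cast_pow, ← Real.rpow_natCast, ← Real.rpow_natCast, ← Real.rpow_mul (by positivity),
    ← Real.rpow_mul (by positivity), mul_comm]

lemma sg_mul (r : ℝ) {m n : ℕ} (h : m.Coprime n) : sg r (m * n) = sg r m * sg r n := by
  let f : ArithmeticFunction ℝ := ⟨fun n => if n = 0 then 0 else (n : ℝ) ^ (-r), by simp⟩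
  have hf : f.IsMultiplicative := by
    rw [ArithmeticFunction.IsMultiplicative.iff_ne_zero]
    refine ⟨by simp [f], fun {m n} hm hn _ => ?_⟩
    simp only [f, ArithmeticFunction.coe_mk, mul_eq_zero, hm, hn, or_self, if_false]
    rw [Nat.cast_mul, Real.mul_rpow (by positivity) (by positivity)]
  have hs : ∀ k : ℕ, sg r k = ((ArithmeticFunction.zeta : ArithmeticFunction ℝ) * f) k := by
    intro k
    rw [ArithmeticFunction.coe_zeta_mul_apply]
    refine Finset.sum_congr rfl fun d hd => ?_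
    have : d ≠ 0 := (Nat.pos_of_mem_divisors hd).ne'
    simp [f, this]
  have hm : ((ArithmeticFunction.zeta : ArithmeticFunction ℝ) * f).IsMultiplicative :=
    (ArithmeticFunction.isMultiplicative_zeta.natCast).mul hf
  rw [hs, hs, hs, hm.map_mul_of_coprime h]

/-- values of `σ_{-r}` on `N`-rough numbers -/
def A (r : ℝ) (N : ℕ) : Set ℝ :=
  {y | ∃ n : ℕ, n ≠ 0 ∧ (∀ p : ℕ, p.Prime → p ∣ n → N ≤ p) ∧ sg r n = y}

lemma one_mem_A (r : ℝ) (N : ℕ) : (1 : ℝ) ∈ A r N :=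
  ⟨1, one_ne_zero, fun p hp h => absurd (Nat.dvd_one.1 h) hp.one_lt.ne', sg_one r⟩

lemma A_anti (r : ℝ) {M N : ℕ} (h : M ≤ N) : A r N ⊆ A r M := by
  rintro y ⟨n, h0, hn, rfl⟩
  exact ⟨n, h0, fun p hp hd => h.trans (hn p hp hd), rfl⟩

lemma A_not_prime (r : ℝ) {N : ℕ} (h : ¬ N.Prime) : A r N = A r (N + 1) := by
  refine Set.Subset.antisymm ?_ (A_anti r (Nat.le_succ N))
  rintro y ⟨n, h0, hn, rfl⟩
  refine ⟨n, h0, fun p hp hd => ?_, rfl⟩
  rcases (hn p hp hd).eq_or_lt with e | e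
  · subst e; exact absurd hp h
  · exact e

lemma A_prime_sub (r : ℝ) {p : ℕ} (hp : p.Prime) {y : ℝ} (hy : y ∈ A r p) :
    ∃ k : ℕ, ∃ z ∈ A r (p + 1), y = S ((p : ℝ) ^ (-r)) k * z := by
  obtain ⟨n, h0, hn, rfl⟩ := hy
  obtain ⟨k, m, hm, rfl⟩ := Nat.exists_eq_pow_mul_and_not_dvd h0 p hp.ne_one
  refine ⟨k, sg r m, ⟨m, ?_, ?_, rfl⟩, ?_⟩
  · rintro rfl; simp at h0
  · intro q hq hd
    rcases (hn q hq (hd.mul_left _)).eq_or_lt with e | e
    · subst e; exact absurd hd hm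
    · exact e
  · rw [sg_mul r (Nat.Coprime.pow_left k ((Nat.Prime.coprime_iff_not_dvd hp).2 hm)),
      sg_prime_pow r hp]

lemma A_prime_mem (r : ℝ) {p : ℕ} (hp : p.Prime) (k : ℕ) {z : ℝ} (hz : z ∈ A r (p + 1)) :
    S ((p : ℝ) ^ (-r)) k * z ∈ A r p := by
  obtain ⟨m, h0, hm, rfl⟩ := hz
  have hpm : ¬ p ∣ m := fun h => by have := hm p hp h; omega
  refine ⟨p ^ k * m, ?_, ?_, ?_⟩
  · exact mul_ne_zero (pow_ne_zero _ hp.ne_zero) h0
  · intro q hq hd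
    rcases (Nat.Prime.dvd_mul hq).1 hd with h | h
    · have := hq.dvd_of_dvd_pow h
      rw [(Nat.prime_dvd_prime_iff_eq hq hp).1 this]
    · have := hm q hq h; omega
  · rw [sg_mul r (Nat.Coprime.pow_left k ((Nat.Prime.coprime_iff_not_dvd hp).2 hpm)),
      sg_prime_pow r hp]

lemma A_two (r : ℝ) : A r 2 = {y | ∃ n : ℕ, n ≠ 0 ∧ sg r n = y} := by
  ext y
  constructor
  · rintro ⟨n, h0, _, h⟩; exact ⟨n, h0, h⟩
  · rintro ⟨n, h0, h⟩; exact ⟨n, h0, fun p hp _ => hp.two_le, h⟩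

lemma A_pos (r : ℝ) {N : ℕ} {y : ℝ} (hy : y ∈ A r N) : 1 ≤ y := by
  obtain ⟨n, h0, _, rfl⟩ := hy
  unfold sg
  have h1 : (1 : ℕ) ∈ n.divisors := Nat.one_mem_divisors.2 h0
  have := Finset.single_le_sum (f := fun d : ℕ => (d : ℝ) ^ (-r)) (s := n.divisors)
    (fun i _ => by positivity) h1
  simpa using this

end Q254.CR
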