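import Mathlib
import Pool.Agent.Q254.CrBase

open Finset Set Filter Topology

namespace Q254.CR

/-- `n ↦ n^{-r}` as a monoid hom -/
noncomputable def fhom (r : ℝ) (hr : 1 < r) : ℕ →*₀ ℝ where
  toFun n := (n : ℝ) ^ (-r)
  map_zero' := by simp [Real.zero_rpow (show (-r : ℝ) ≠ 0 by linarith)]
  map_one' := by simp
  map_mul' m n := by rw [Nat.cast_mul, Real.mul_rpow (by positivity) (by positivity)]

noncomputable def zt (r : ℝ) : ℝ := ∑' n : ℕ, (n : ℝ) ^ (-r)

/-- the Euler product over the primes `≥ N` -/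
noncomputable def Z (r : ℝ) (N : ℕ) : ℝ :=
  zt r * ∏ p ∈ Nat.primesBelow N, (1 - (p : ℝ) ^ (-r))

variable {r : ℝ}

lemma x_pos (p : ℕ) (hp : 0 < p) : 0 < (p : ℝ) ^ (-r) := by positivity

lemma x_lt_one (hr : 1 < r) {p : ℕ} (hp : 2 ≤ p) : (p : ℝ) ^ (-r) < 1 := by
  have h : (1 : ℝ) < p := by exact_mod_cast hp
  exact Real.rpow_lt_one_of_one_lt_of_neg h (by linarith)

lemma summ (hr : 1 < r) : Summable (fun n : ℕ => (n : ℝ) ^ (-r)) :=
  Real.summable_nat_rpow.2 (by linarith)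

lemma zt_ge (hr : 1 < r) : 1 ≤ zt r := by
  have := (summ hr).le_tsum 1 (fun n _ => by positivity)
  simpa [zt] using this

lemma euler (hr : 1 < r) : Tendsto (fun n : ℕ => ∏ p ∈ Nat.primesBelow n, (1 - (p : ℝ) ^ (-r))⁻¹)
    atTop (𝓝 (zt r)) := by
  have h := EulerProduct.eulerProduct_completely_multiplicative (f := fhom r hr)
    (by
      have := summ hr
      refine this.congr fun n => ?_
      simp only [fhom, MonoidWithZeroHom.coe_mk, ZeroHom.coe_mk]
      rw [Real.norm_of_nonneg (by positivity)])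
  exact h

lemma Z_tendsto (hr : 1 < r) : Tendsto (Z r) atTop (𝓝 1) := by
  have hz := zt_ge hr
  have h := (euler hr).inv₀ (by linarith)
  have h2 := h.const_mul (zt r)
  rw [mul_inv_cancel₀ (by linarith)] at h2
  refine h2.congr fun n => ?_
  unfold Z
  rw [Finset.prod_inv_distrib, inv_inv]

lemma Z_succ_prime {p : ℕ} (hp : p.Prime) : Z r (p + 1) = Z r p * (1 - (p : ℝ) ^ (-r)) := by
  unfold Z
  rw [Nat.primesBelow_succ, if_pos hp, Finset.prod_insert (by simp [Nat.primesBelow])]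
  ring

lemma Z_succ_not_prime {p : ℕ} (hp : ¬ p.Prime) : Z r (p + 1) = Z r p := by
  unfold Z
  rw [Nat.primesBelow_succ, if_neg hp]

lemma Z_nonneg (hr : 1 < r) (N : ℕ) : 0 ≤ Z r N := by
  unfold Z
  refine mul_nonneg (by linarith [zt_ge hr]) (Finset.prod_nonneg fun p hp => ?_)
  have := x_lt_one hr (Nat.prime_of_mem_primesBelow hp).two_le
  linarith

lemma Z_anti (hr : 1 < r) : Antitone (Z r) := by
  refine antitone_nat_of_succ_le fun n => ?_
  by_cases h : n.Prime
  · rw [Z_succ_prime h]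
    have := Z_nonneg hr n
    have := (x_pos (r := r) n h.pos).le
    nlinarith
  · rw [Z_succ_not_prime h]

lemma one_le_Z (hr : 1 < r) (N : ℕ) : 1 ≤ Z r N := (Z_anti hr).le_of_tendsto (Z_tendsto hr) N

lemma Z_prime (hr : 1 < r) {p : ℕ} (hp : p.Prime) :
    Z r p = (1 - (p : ℝ) ^ (-r))⁻¹ * Z r (p + 1) := by
  have := x_lt_one hr hp.two_le
  rw [Z_succ_prime hp]
  field_simp [show (1 - (p : ℝ) ^ (-r)) ≠ 0 by linarith]

lemma A_le_Z (hr : 1 < r) {N : ℕ} {y : ℝ} (hy : y ∈ A r N) : y ≤ Z r N := by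
  obtain ⟨n, h0, hn, rfl⟩ := hy
  induction n using Nat.strong_induction_on generalizing N with
  | _ n ih =>
    by_cases h1 : n = 1
    · subst h1; rw [sg_one]; exact one_le_Z hr N
    · have hp := Nat.minFac_prime h1
      set p := n.minFac with hpdef
      have hNp : N ≤ p := hn p hp (Nat.minFac_dvd n)
      obtain ⟨k, m, hm, e⟩ := Nat.exists_eq_pow_mul_and_not_dvd h0 p hp.ne_one
      have hm0 : m ≠ 0 := by rintro rfl; simp at hm
      have hk : k ≠ 0 := by
        rintro rfl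
        rw [pow_zero, one_mul] at e
        exact hm (e ▸ Nat.minFac_dvd n)
      have hlt : m < n := by
        rw [e]
        have : 1 < p ^ k := Nat.one_lt_pow hk hp.one_lt
        have hmp := Nat.pos_of_ne_zero hm0
        nlinarith
      have hmr : ∀ q : ℕ, q.Prime → q ∣ m → p + 1 ≤ q := by
        intro q hq hd
        have hdn : q ∣ n := e ▸ hd.mul_left _
        have h2 := Nat.minFac_le_of_dvd hq.two_le hdn
        rcases h2.eq_or_lt with h3 | h3
        · rw [← h3] at hd; exact absurd hd hm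
        · exact h3
      have h4 := ih m hlt (N := p + 1) hm0 hmr
      have h5 : sg r n = S ((p : ℝ) ^ (-r)) k * sg r m := by
        conv_lhs => rw [e]
        rw [sg_mul r (Nat.Coprime.pow_left k ((Nat.Prime.coprime_iff_not_dvd hp).2 hm)),
          sg_prime_pow r hp]
      have hx0 := (x_pos (r := r) p hp.pos).le
      have hx1 := x_lt_one hr hp.two_le
      calc sg r n = S ((p : ℝ) ^ (-r)) k * sg r m := h5
        _ ≤ (1 - (p : ℝ) ^ (-r))⁻¹ * Z r (p + 1) := by
          refine mul_le_mul (S_lt hx0 hx1 k) h4 ?_ ?_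
          · unfold sg; exact Finset.sum_nonneg fun i _ => by positivity
          · exact inv_nonneg.2 (by linarith)
        _ = Z r p := (Z_prime hr hp).symm
        _ ≤ Z r N := Z_anti hr hNp

lemma Z_ge_sum (hr : 1 < r) {N : ℕ} (F : Finset ℕ) (hF : ∀ p ∈ F, p.Prime ∧ N ≤ p) :
    1 + ∑ p ∈ F, (p : ℝ) ^ (-r) ≤ Z r N := by
  have h0 : ∏ p ∈ F, p ≠ 0 := Finset.prod_ne_zero_iff.2 fun p hp => (hF p hp).1.ne_zero
  have hmem : sg r (∏ p ∈ F, p) ∈ A r N := by
    refine ⟨_, h0, fun q hq hd => ?_, rfl⟩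
    obtain ⟨p, hp, hqp⟩ := (hq.prime.dvd_finset_prod_iff _).1 hd
    rw [(Nat.prime_dvd_prime_iff_eq hq (hF p hp).1).1 hqp]
    exact (hF p hp).2
  refine le_trans ?_ (A_le_Z hr hmem)
  unfold sg
  have h1 : (1 : ℕ) ∉ F := fun h => (hF 1 h).1.ne_one rfl
  have hsub : insert 1 F ⊆ (∏ p ∈ F, p).divisors := by
    intro d hd
    rw [Nat.mem_divisors]
    refine ⟨?_, h0⟩
    rcases Finset.mem_insert.1 hd with rfl | h
    · exact one_dvd _
    · exact Finset.dvd_prod_of_mem _ h
  calc 1 + ∑ p ∈ F, (p : ℝ) ^ (-r) = ∑ d ∈ insert 1 F, (d : ℝ) ^ (-r) := by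
        rw [Finset.sum_insert h1]; simp
    _ ≤ _ := Finset.sum_le_sum_of_subset_of_nonneg hsub fun i _ _ => by positivity

lemma Z_mul_sum_le (hr : 1 < r) {N : ℕ} (F : Finset ℕ) :
    ∀ k : ℕ, (∀ p, N ≤ p → p < N + k → p.Prime → p ∈ F) →
      Z r N * (1 - ∑ p ∈ F.filter (fun p => N ≤ p ∧ p < N + k), (p : ℝ) ^ (-r)) ≤ Z r (N + k)
  | 0, _ => by
    rw [Finset.filter_false_of_mem (by intro p _; omega)]
    simp
  | k + 1, h => by
    have ih := Z_mul_sum_le hr F k (fun p h1 h2 h3 => h p h1 (by omega) h3)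
    have hmono : ∑ p ∈ F.filter (fun p => N ≤ p ∧ p < N + k), (p : ℝ) ^ (-r) ≤
        ∑ p ∈ F.filter (fun p => N ≤ p ∧ p < N + (k + 1)), (p : ℝ) ^ (-r) := by
      refine Finset.sum_le_sum_of_subset_of_nonneg ?_ fun i _ _ => by positivity
      intro p hp
      rw [Finset.mem_filter] at hp ⊢
      exact ⟨hp.1, hp.2.1, by omega⟩
    by_cases hp : (N + k).Prime
    · have hin := h (N + k) (by omega) (by omega) hp
      have hx0 := (x_pos (r := r) (N + k) hp.pos).le
      have hx1 := x_lt_one hr hp.two_le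
      have e : F.filter (fun p => N ≤ p ∧ p < N + (k + 1)) =
          insert (N + k) (F.filter (fun p => N ≤ p ∧ p < N + k)) := by
        ext p
        simp only [Finset.mem_filter, Finset.mem_insert]
        constructor
        · rintro ⟨h1, h2, h3⟩
          by_cases h4 : p = N + k
          · exact Or.inl h4
          · exact Or.inr ⟨h1, h2, by omega⟩
        · rintro (rfl | ⟨h1, h2, h3⟩)
          · exact ⟨hin, by omega, by omega⟩
          · exact ⟨h1, h2, by omega⟩
      rw [e, Finset.sum_insert (by simp)]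
      set s := ∑ p ∈ F.filter (fun p => N ≤ p ∧ p < N + k), (p : ℝ) ^ (-r) with hs
      have hs0 : 0 ≤ s := Finset.sum_nonneg fun i _ => by positivity
      have e2 : Z r (N + (k + 1)) = Z r (N + k) * (1 - ((N + k : ℕ) : ℝ) ^ (-r)) := by
        rw [← Z_succ_prime hp]; rfl
      rw [e2]
      have hZ := one_le_Z hr N
      set x := ((N + k : ℕ) : ℝ) ^ (-r) with hx
      have h5 : Z r N * (1 - s) * (1 - x) ≤ Z r (N + k) * (1 - x) :=
        mul_le_mul_of_nonneg_right ih (by linarith)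
      have h6 : 0 ≤ Z r N * (s * x) := by positivity
      nlinarith
    · have e2 : Z r (N + (k + 1)) = Z r (N + k) := by
        rw [← Z_succ_not_prime hp]; rfl
      rw [e2]
      refine le_trans ?_ ih
      have hZ := one_le_Z hr N
      exact mul_le_mul_of_nonneg_left (by linarith) (by linarith)

/-- telescoping majorant for `r ≥ 4` -/
lemma pow4_le {n : ℕ} (hn : 2 ≤ n) (h4 : 4 ≤ r) :
    (n : ℝ) ^ (-r) ≤ 1 / (3 * ((n : ℝ) - 1) ^ 3) - 1 / (3 * (n : ℝ) ^ 3) := by
  have hn' : (2 : ℝ) ≤ n := by exact_mod_cast hn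
  have h1 : (n : ℝ) ^ (-r) ≤ (n : ℝ) ^ (-(4 : ℝ)) :=
    Real.rpow_le_rpow_of_exponent_le (by linarith) (by linarith)
  refine h1.trans ?_
  rw [Real.rpow_neg (by linarith), show (4 : ℝ) = ((4 : ℕ) : ℝ) by norm_num, Real.rpow_natCast]
  have hm : (0 : ℝ) < (n : ℝ) - 1 := by linarith
  have hn0 : (0 : ℝ) < n := by linarith
  rw [div_sub_div _ _ (by positivity) (by positivity), inv_eq_one_div,
    div_le_div_iff₀ (by positivity) (by positivity)]
  set m := (n : ℝ) - 1 with hmdef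
  have e : (n : ℝ) = m + 1 := by rw [hmdef]; ring
  rw [e]
  have : (1 * (3 * (m + 1) ^ 3) - 3 * m ^ 3 * 1) * (m + 1) ^ 4 -
      1 * (3 * m ^ 3 * (3 * (m + 1) ^ 3)) = (m+1)^3 * (3 * ((m+1)^3 - m^3) * (m+1) - 9 * m^3) := by
    ring
  have h2 : 0 ≤ (m+1)^3 * (3 * ((m+1)^3 - m^3) * (m+1) - 9 * m^3) := by
    refine mul_nonneg (by positivity) ?_
    have : 3 * ((m+1)^3 - m^3) * (m+1) - 9 * m^3 = 18 * m^2 + 12 * m + 3 := by ring
    rw [this]; positivity
  linarith

lemma Z_tail (h4 : 4 ≤ r) {N : ℕ} (hN : 2 ≤ N) :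
    Z r N * (1 - 1 / (3 * ((N : ℝ) - 1) ^ 3)) ≤ 1 := by
  have hr : 1 < r := by linarith
  have key : ∀ k : ℕ, Z r N * (1 - 1 / (3 * ((N : ℝ) - 1) ^ 3) + 1 / (3 * (((N + k : ℕ) : ℝ) - 1) ^ 3))
      ≤ Z r (N + k) := by
    intro k
    induction k with
    | zero => simp
    | succ k ih =>
      have hZ := one_le_Z hr N
      have hZk := one_le_Z hr (N + k)
      have hb := pow4_le (r := r) (n := N + k) (by omega) h4
      have hx0 := (x_pos (r := r) (N + k) (by omega)).le
      have hx1 := x_lt_one hr (show 2 ≤ N + k by omega)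
      have h5 : Z r (N + k) * (1 - ((N + k : ℕ) : ℝ) ^ (-r)) ≤ Z r (N + (k + 1)) := by
        by_cases hp : (N + k).Prime
        · rw [← Z_succ_prime hp]; rfl
        · have e2 : Z r (N + (k + 1)) = Z r (N + k) := by
            rw [← Z_succ_not_prime hp]; rfl
          rw [e2]
          nlinarith
      refine le_trans ?_ h5
      have e3 : (((N + (k + 1) : ℕ) : ℝ) - 1) = ((N + k : ℕ) : ℝ) := by push_cast; ring
      rw [e3]
      have hNk : (2 : ℝ) ≤ ((N + k : ℕ) : ℝ) := by exact_mod_cast (show 2 ≤ N + k by omega)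
      have hN2 : (2 : ℝ) ≤ N := by exact_mod_cast hN
      set x := ((N + k : ℕ) : ℝ) ^ (-r) with hx
      set a := 1 / (3 * ((N : ℝ) - 1) ^ 3) with ha
      set b := 1 / (3 * (((N + k : ℕ) : ℝ) - 1) ^ 3) with hb'
      set c := 1 / (3 * ((N + k : ℕ) : ℝ) ^ 3) with hc
      have ha1 : a ≤ 1 := by
        rw [ha, div_le_one (by have : (0:ℝ) < (N:ℝ) - 1 := by linarith
                               positivity)]
        have : (1 : ℝ) ≤ ((N : ℝ) - 1) ^ 3 := one_le_pow₀ (by linarith)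
        linarith
      have hba : b ≤ a := by
        rw [ha, hb']
        have : (N : ℝ) - 1 ≤ ((N + k : ℕ) : ℝ) - 1 := by push_cast; linarith [(Nat.cast_nonneg k : (0:ℝ) ≤ k)]
        have h0 : (0:ℝ) < (N:ℝ) - 1 := by linarith
        gcongr
      have hb0 : 0 ≤ b := by
        rw [hb']
        have h0 : (0:ℝ) < ((N + k : ℕ) : ℝ) - 1 := by linarith
        positivity
      have h6 : Z r N * (1 - a + b) * (1 - x) ≤ Z r (N + k) * (1 - x) :=
        mul_le_mul_of_nonneg_right ih (by linarith)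
      refine le_trans ?_ h6
      rw [mul_assoc]
      refine mul_le_mul_of_nonneg_left ?_ (by linarith)
      nlinarith
  have hlim : Tendsto (fun k : ℕ => Z r (N + k)) atTop (𝓝 1) := by
    have := (Z_tendsto hr).comp (tendsto_add_atTop_nat N)
    refine this.congr fun k => by simp [add_comm]
  refine ge_of_tendsto' hlim fun k => ?_
  refine le_trans ?_ (key k)
  have hZ := one_le_Z hr N
  refine mul_le_mul_of_nonneg_left ?_ (by linarith)
  have hNk : (2 : ℝ) ≤ ((N + k : ℕ) : ℝ) := by exact_mod_cast (show 2 ≤ N + k by omega)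
  have h0 : (0:ℝ) < ((N + k : ℕ) : ℝ) - 1 := by linarith
  have : 0 ≤ 1 / (3 * (((N + k : ℕ) : ℝ) - 1) ^ 3) := by positivity
  linarith

end Q254.CR
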