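import Mathlib
import Pool.Agent.Q254.CrZ

open Finset Set Filter Topology

namespace Q254.CR

variable {r : ℝ}

/-- scaling by a partial sum maps the closure into the closure -/
lemma clos_S {p : ℕ} (hp : p.Prime) (k : ℕ) {z : ℝ} (hz : z ∈ closure (A r (p + 1))) :
    S ((p : ℝ) ^ (-r)) k * z ∈ closure (A r p) := by
  have hc : Continuous (fun z : ℝ => S ((p : ℝ) ^ (-r)) k * z) := by fun_prop
  exact map_mem_closure hc hz fun z hz => A_prime_mem r hp k hz

lemma clos_inf (hr : 1 < r) {p : ℕ} (hp : p.Prime) {z : ℝ} (hz : z ∈ closure (A r (p + 1))) :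
    (1 - (p : ℝ) ^ (-r))⁻¹ * z ∈ closure (A r p) := by
  have h := (S_tendsto (x_pos (r := r) p hp.pos).le (x_lt_one hr hp.two_le)).mul_const z
  have h2 := mem_closure_of_tendsto h (Eventually.of_forall fun k => clos_S (r := r) hp k hz)
  rwa [closure_closure] at h2

theorem greedy (hr : 1 < r) (N0 : ℕ)
    (hg : ∀ p : ℕ, p.Prime → N0 ≤ p → 1 + (p : ℝ) ^ (-r) ≤ Z r (p + 1)) :
    Set.Icc 1 (Z r N0) ⊆ closure (A r N0) := by
  intro y hy
  have key : ∀ k : ℕ, ∃ c : ℝ, 1 ≤ c ∧ c ≤ y ∧ y ≤ c * Z r (N0 + k) ∧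
      ∀ z ∈ closure (A r (N0 + k)), c * z ∈ closure (A r N0) := by
    intro k
    induction k with
    | zero =>
      exact ⟨1, le_rfl, hy.1, by simpa using hy.2, fun z hz => by simpa using hz⟩
    | succ k ih =>
      obtain ⟨c, hc1, hcy, hyZ, hcl⟩ := ih
      by_cases hp : (N0 + k).Prime
      · set p := N0 + k with hpd
        have hx0 := (x_pos (r := r) p hp.pos).le
        have hx1 := x_lt_one hr hp.two_le
        set x := (p : ℝ) ^ (-r) with hxd
        have e1 : N0 + (k + 1) = p + 1 := by omega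
        rw [e1]
        have hinv : 1 ≤ (1 - x)⁻¹ := one_le_inv₀ (by linarith) |>.2 (by linarith)
        have hc0 : 0 < c := by linarith
        by_cases ht : (1 - x)⁻¹ * c ≤ y
        · refine ⟨(1 - x)⁻¹ * c, ?_, ht, ?_, ?_⟩
          · nlinarith
          · rw [Z_prime hr hp] at hyZ
            calc y ≤ c * ((1 - x)⁻¹ * Z r (p + 1)) := hyZ
              _ = (1 - x)⁻¹ * c * Z r (p + 1) := by ring
          · intro z hz
            have := hcl _ (clos_inf hr hp hz)
            convert this using 1
            ring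
        · push Not at ht
          have hlim := (S_tendsto hx0 hx1).mul_const c
          have hex : ∃ k : ℕ, y < S x k * c :=
            (hlim.eventually (lt_mem_nhds ht)).exists
          classical
          set k0 := Nat.find hex with hk0
          have hk0s : y < S x k0 * c := Nat.find_spec hex
          have hk0ne : k0 ≠ 0 := by
            intro h
            rw [h, S_zero] at hk0s
            linarith
          obtain ⟨k1, hk1⟩ := Nat.exists_eq_succ_of_ne_zero hk0ne
          have hk1s : S x k1 * c ≤ y := by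
            by_contra hcon
            push Not at hcon
            have := Nat.find_min' hex hcon
            omega
          refine ⟨S x k1 * c, ?_, hk1s, ?_, ?_⟩
          · have := S_pos hx0 k1
            nlinarith
          · have h1 := S_ratio hx0 k1
            have h2 := hg p hp (by omega)
            have h3 := S_pos hx0 k1
            rw [hk1] at hk0s
            calc y ≤ S x (k1 + 1) * c := hk0s.le
              _ ≤ ((1 + x) * S x k1) * c := by gcongr
              _ = (S x k1 * c) * (1 + x) := by ring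
              _ ≤ (S x k1 * c) * Z r (p + 1) := by gcongr
          · intro z hz
            have := hcl _ (clos_S (r := r) hp k1 hz)
            convert this using 1
            ring
      · refine ⟨c, hc1, hcy, ?_, ?_⟩
        · have : Z r (N0 + (k + 1)) = Z r (N0 + k) := by rw [← Z_succ_not_prime hp]; rfl
          rw [this]; exact hyZ
        · intro z hz
          have : A r (N0 + k) = A r (N0 + (k + 1)) := A_not_prime r hp
          rw [← this] at hz
          exact hcl z hz
  choose c hc1 hcy hyZ hcl using key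
  have hmem : ∀ k, c k ∈ closure (A r N0) := fun k => by
    have := hcl k 1 (subset_closure (one_mem_A r _))
    simpa using this
  have hlimZ : Tendsto (fun k : ℕ => Z r (N0 + k)) atTop (𝓝 1) := by
    have := (Z_tendsto hr).comp (tendsto_add_atTop_nat N0)
    refine this.congr fun k => by simp [add_comm]
  have hlim : Tendsto c atTop (𝓝 y) := by
    have h1 : Tendsto (fun k : ℕ => y * (Z r (N0 + k))⁻¹) atTop (𝓝 y) := by
      have := (hlimZ.inv₀ one_ne_zero).const_mul y
      simpa using this
    refine tendsto_of_tendsto_of_tendsto_of_le_of_le h1 tendsto_const_nhds (fun k => ?_) hcy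
    have hZ := one_le_Z hr (N0 + k)
    have hZ0 : 0 < Z r (N0 + k) := by linarith
    simp only
    rw [← div_eq_mul_inv, div_le_iff₀ hZ0]
    exact hyZ k
  have := mem_closure_of_tendsto hlim (Eventually.of_forall hmem)
  rwa [closure_closure] at this

/-- two primes close above `q` suffice -/
lemma two_primes (hr0 : 1 < r) (hr : r ≤ 22 / 5) {q p1 p2 : ℕ} (hq : 0 < q) (h1 : p1.Prime)
    (h2 : p2.Prime) (hq1 : q < p1) (h12 : p1 < p2) (h : 6 * p2 ≤ 7 * q) :
    1 + (q : ℝ) ^ (-r) ≤ Z r (q + 1) := by
  have hF := Z_ge_sum hr0 (N := q + 1) {p1, p2} (by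
    intro p hp
    rcases Finset.mem_insert.1 hp with rfl | hp
    · exact ⟨h1, hq1⟩
    · rw [Finset.mem_singleton] at hp; subst hp; exact ⟨h2, by omega⟩)
  rw [Finset.sum_pair (by omega)] at hF
  have key : ∀ p : ℕ, 6 * p ≤ 7 * q → 0 < p → (q : ℝ) ^ (-r) / 2 ≤ (p : ℝ) ^ (-r) := by
    intro p hp hp0
    have hq0 : (0 : ℝ) < q := by exact_mod_cast hq
    have hp0' : (0 : ℝ) < p := by exact_mod_cast hp0
    have h3 : (p : ℝ) ≤ 7 / 6 * q := by
      have : (6 : ℝ) * p ≤ 7 * q := by exact_mod_cast hp
      linarith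
    have h4 : (7 / 6 * (q : ℝ)) ^ (-r) ≤ (p : ℝ) ^ (-r) :=
      Real.rpow_le_rpow_of_nonpos hp0' h3 (by linarith)
    refine le_trans ?_ h4
    rw [Real.mul_rpow (by norm_num) hq0.le]
    have h5 : (1 / 2 : ℝ) ≤ (7 / 6 : ℝ) ^ (-r) := by
      have h6 : (7 / 6 : ℝ) ^ (-(22 / 5 : ℝ)) ≤ (7 / 6 : ℝ) ^ (-r) :=
        Real.rpow_le_rpow_of_exponent_le (by norm_num) (by linarith)
      refine le_trans ?_ h6
      rw [Real.rpow_neg (by norm_num), one_div]
      refine inv_anti₀ (by positivity) ?_
      rw [show (22 / 5 : ℝ) = ((22 : ℕ) : ℝ) * (1 / ((5 : ℕ) : ℝ)) by norm_num, Real.rpow_mul (by norm_num),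
        Real.rpow_natCast]
      have h7 : ((7 / 6 : ℝ) ^ 22) ≤ 2 ^ 5 := by norm_num
      calc ((7 / 6 : ℝ) ^ 22) ^ (1 / ((5 : ℕ) : ℝ)) ≤ ((2 : ℝ) ^ 5) ^ (1 / ((5 : ℕ) : ℝ)) := by
            gcongr
        _ = 2 := by
          rw [one_div, Real.pow_rpow_inv_natCast (by norm_num) (by norm_num)]
    have : (0 : ℝ) < (q : ℝ) ^ (-r) := by positivity
    nlinarith
  have a1 := key p1 (by omega) h1.pos
  have a2 := key p2 h h2.pos
  linarith

end Q254.CR
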