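import Mathlib
import Pool.Agent.Q254.CrGreedy

open Finset Set Filter Topology

namespace Q254.CR

variable {r : ℝ}

lemma real_ineq {y : ℝ} (hy : 18000 ≤ y) :
    126 * Real.log y ≤ y * Real.log 2 - Real.log (y + 1) - 2 * √y * Real.log y
      - Real.log 4 * (y / 3) := by
  set t := √y with ht
  have hy0 : 0 ≤ y := by linarith
  have hyt : y = t ^ 2 := (Real.sq_sqrt hy0).symm
  have ht0 : 134 ≤ t := by
    rw [ht]
    refine Real.le_sqrt_of_sq_le ?_
    linarith
  have hl4 : Real.log 4 = 2 * Real.log 2 := by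
    rw [show (4 : ℝ) = 2 ^ 2 by norm_num, Real.log_pow]; norm_num
  have hly : Real.log y = 2 * Real.log t := by
    rw [hyt, Real.log_pow]; norm_num
  have hly1 : Real.log (y + 1) ≤ Real.log 2 + 2 * Real.log t := by
    rw [← hly, ← Real.log_mul (by norm_num) (by linarith)]
    exact Real.log_le_log (by linarith) (by linarith)
  have hlt : Real.log t ≤ 7 * Real.log 2 + t / 128 - 1 := by
    have h1 : Real.log t = Real.log (t / 128) + Real.log 128 := by
      rw [← Real.log_mul (by positivity) (by norm_num)]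
      congr 1; ring
    have h2 := Real.log_le_sub_one_of_pos (show 0 < t / 128 by positivity)
    have h3 : Real.log 128 = 7 * Real.log 2 := by
      rw [show (128 : ℝ) = 2 ^ 7 by norm_num, Real.log_pow]; norm_num
    linarith
  have hl2 := Real.log_two_gt_d9
  have hl2' := Real.log_two_lt_d9
  rw [hl4, hly]
  set l := Real.log 2 with hl
  set u := Real.log t with hu
  have hu2 : u ≤ 3.85204 + t / 128 := by linarith
  have h1 : (254 + 4 * t) * u ≤ (254 + 4 * t) * (3.85204 + t / 128) :=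
    mul_le_mul_of_nonneg_left hu2 (by linarith)
  have h2 : 0.693147 * t ^ 2 / 3 ≤ l * t ^ 2 / 3 := by
    have : 0 ≤ t ^ 2 := by positivity
    nlinarith
  have h3 : (254 + 4 * t) * (3.85204 + t / 128) + 0.7 ≤ 0.693147 * t ^ 2 / 3 := by
    nlinarith
  have e : y * l - (l + 2 * u) - 2 * t * (2 * u) - 2 * l * (y / 3) - 126 * (2 * u) =
      l * t ^ 2 / 3 - l - (254 + 4 * t) * u := by
    rw [hyt]; ring
  linarith

lemma many_primes {q : ℕ} (hq : 6000 ≤ q) :
    126 ≤ ((Finset.Ioc q (3 * q)).filter Nat.Prime).card := by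
  set F := (Finset.Ioc q (3 * q)).filter Nat.Prime with hF
  have hq' : (6000 : ℝ) ≤ q := by exact_mod_cast hq
  have h1 : Chebyshev.theta ((3 * q : ℕ) : ℝ) - Chebyshev.theta (q : ℝ) =
      ∑ p ∈ F, Real.log p := by
    rw [Chebyshev.theta_eq_sum_Icc, Chebyshev.theta_eq_sum_Icc, Nat.floor_natCast,
      Nat.floor_natCast, hF]
    rw [sub_eq_iff_eq_add, ← Finset.sum_union]
    · congr 1
      ext p
      simp only [Finset.mem_filter, Finset.mem_Icc, Finset.mem_union, Finset.mem_Ioc]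
      constructor
      · rintro ⟨⟨_, h1⟩, h2⟩
        by_cases h : q < p
        · exact Or.inl ⟨⟨h, h1⟩, h2⟩
        · exact Or.inr ⟨⟨by omega, by omega⟩, h2⟩
      · rintro (⟨⟨h, h1⟩, h2⟩ | ⟨⟨h, h1⟩, h2⟩)
        · exact ⟨⟨by omega, h1⟩, h2⟩
        · exact ⟨⟨by omega, by omega⟩, h2⟩
    · rw [Finset.disjoint_left]
      intro p hp hp2
      simp only [Finset.mem_filter, Finset.mem_Icc, Finset.mem_Ioc] at hp hp2
      omega
  have h2 : ∑ p ∈ F, Real.log p ≤ F.card * Real.log ((3 * q : ℕ) : ℝ) := by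
    rw [← nsmul_eq_mul]
    refine Finset.sum_le_card_nsmul _ _ _ fun p hp => ?_
    simp only [hF, Finset.mem_filter, Finset.mem_Ioc] at hp
    have h0 : (0 : ℝ) < p := by exact_mod_cast hp.2.pos
    exact Real.log_le_log h0 (by exact_mod_cast hp.1.2)
  have h3 := Chebyshev.theta_ge (3 * q)
  have h4 := Chebyshev.theta_le_log4_mul_x (x := (q : ℝ)) (by positivity)
  have h5 := real_ineq (y := ((3 * q : ℕ) : ℝ)) (by push_cast; linarith)
  have h6 : (((3 * q : ℕ) : ℝ)) / 3 = q := by push_cast; ring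
  rw [h6] at h5
  have hlpos : 0 < Real.log ((3 * q : ℕ) : ℝ) := Real.log_pos (by push_cast; linarith)
  have h7 : 126 * Real.log ((3 * q : ℕ) : ℝ) ≤ F.card * Real.log ((3 * q : ℕ) : ℝ) := by
    linarith
  have h8 := le_of_mul_le_mul_right h7 hlpos
  exact_mod_cast h8

lemma large_primes (hr0 : 1 < r) (hr : r ≤ 22 / 5) {q : ℕ} (hq : 6000 ≤ q) :
    1 + (q : ℝ) ^ (-r) ≤ Z r (q + 1) := by
  set F := (Finset.Ioc q (3 * q)).filter Nat.Prime with hF
  have hc := many_primes hq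
  rw [← hF] at hc
  have hZ := Z_ge_sum hr0 (N := q + 1) F (by
    intro p hp
    simp only [hF, Finset.mem_filter, Finset.mem_Ioc] at hp
    exact ⟨hp.2, hp.1.1⟩)
  have hq0 : (0 : ℝ) < q := by exact_mod_cast (by omega : 0 < q)
  have h1 : F.card • ((3 * q : ℕ) : ℝ) ^ (-r) ≤ ∑ p ∈ F, (p : ℝ) ^ (-r) := by
    refine Finset.card_nsmul_le_sum _ _ _ fun p hp => ?_
    simp only [hF, Finset.mem_filter, Finset.mem_Ioc] at hp
    have h0 : (0 : ℝ) < p := by exact_mod_cast hp.2.pos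
    exact Real.rpow_le_rpow_of_nonpos h0 (by exact_mod_cast hp.1.2) (by linarith)
  rw [nsmul_eq_mul] at h1
  have h2 : ((3 * q : ℕ) : ℝ) ^ (-r) = (3 : ℝ) ^ (-r) * (q : ℝ) ^ (-r) := by
    push_cast
    rw [Real.mul_rpow (by norm_num) hq0.le]
  have h3 : (1 / 126 : ℝ) ≤ (3 : ℝ) ^ (-r) := by
    have h6 : (3 : ℝ) ^ (-(22 / 5 : ℝ)) ≤ (3 : ℝ) ^ (-r) :=
      Real.rpow_le_rpow_of_exponent_le (by norm_num) (by linarith)
    refine le_trans ?_ h6
    rw [Real.rpow_neg (by norm_num), one_div]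
    refine inv_anti₀ (by positivity) ?_
    rw [show (22 / 5 : ℝ) = ((22 : ℕ) : ℝ) * (1 / ((5 : ℕ) : ℝ)) by norm_num, Real.rpow_mul (by norm_num),
      Real.rpow_natCast]
    calc ((3 : ℝ) ^ 22) ^ (1 / ((5 : ℕ) : ℝ)) ≤ ((126 : ℝ) ^ 5) ^ (1 / ((5 : ℕ) : ℝ)) := by
          gcongr; norm_num
      _ = 126 := by
        rw [one_div, Real.pow_rpow_inv_natCast (by norm_num) (by norm_num)]
  rw [h2] at h1
  have h4 : (0 : ℝ) < (q : ℝ) ^ (-r) := by positivity
  have h5 : (126 : ℝ) ≤ F.card := by exact_mod_cast hc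
  have h6 : 1 ≤ (F.card : ℝ) * (3 : ℝ) ^ (-r) := by
    calc (1 : ℝ) = 126 * (1 / 126) := by norm_num
      _ ≤ F.card * (3 : ℝ) ^ (-r) := by gcongr
  nlinarith

end Q254.CR
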