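import Mathlib
import Pool.Agent.Q254.CrLarge

open Finset Set Filter Topology

namespace Q254.CR

variable {r : ℝ}

lemma small_aux (hr : r ≤ 22 / 5) {q p c : ℕ} (hq : 0 < q) (hqp : q < p)
    (h : c ^ 5 * p ^ 22 ≤ (10 ^ 6) ^ 5 * q ^ 22) :
    (c : ℝ) / 10 ^ 6 * (q : ℝ) ^ (-r) ≤ (p : ℝ) ^ (-r) := by
  have hq0 : (0 : ℝ) < q := by exact_mod_cast hq
  have hp0 : (0 : ℝ) < p := by exact_mod_cast (hq.trans hqp)
  have h1 : (c : ℝ) / 10 ^ 6 ≤ ((q : ℝ) / p) ^ (22 / 5 : ℝ) := by
    have h2 : ((c : ℝ) / 10 ^ 6) ^ 5 ≤ ((q : ℝ) / p) ^ 22 := by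
      rw [div_pow, div_pow, div_le_div_iff₀ (by positivity) (by positivity)]
      have : ((c : ℝ)) ^ 5 * (p : ℝ) ^ 22 ≤ (10 ^ 6) ^ 5 * (q : ℝ) ^ 22 := by exact_mod_cast h
      linarith
    have h3 : (((q : ℝ) / p) ^ (22 / 5 : ℝ)) ^ 5 = ((q : ℝ) / p) ^ 22 := by
      rw [← Real.rpow_natCast, ← Real.rpow_mul (by positivity), ← Real.rpow_natCast]
      norm_num
    rw [← h3] at h2
    exact le_of_pow_le_pow_left₀ (by norm_num) (by positivity) h2
  have h4 : ((q : ℝ) / p) ^ (22 / 5 : ℝ) ≤ ((q : ℝ) / p) ^ r := by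
    refine Real.rpow_le_rpow_of_exponent_ge (by positivity) ?_ hr
    rw [div_le_one hp0]
    exact_mod_cast hqp.le
  have h5 : ((q : ℝ) / p) ^ r * (q : ℝ) ^ (-r) = (p : ℝ) ^ (-r) := by
    rw [Real.div_rpow hq0.le hp0.le, Real.rpow_neg hq0.le, Real.rpow_neg hp0.le]
    have : (q : ℝ) ^ r ≠ 0 := by positivity
    field_simp
  rw [← h5]
  have : (0 : ℝ) < (q : ℝ) ^ (-r) := by positivity
  exact mul_le_mul_of_nonneg_right (h1.trans h4) this.le

lemma small_sum (hr : r ≤ 22 / 5) {q : ℕ} (hq : 0 < q) :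
    ∀ D : List (ℕ × ℕ), (∀ d ∈ D, q < d.1 ∧ d.2 ^ 5 * d.1 ^ 22 ≤ (10 ^ 6) ^ 5 * q ^ 22) →
      (((D.map Prod.snd).sum : ℕ) : ℝ) / 10 ^ 6 * (q : ℝ) ^ (-r) ≤
        (D.map fun d => (d.1 : ℝ) ^ (-r)).sum
  | [], _ => by simp
  | d :: D, h => by
    have ih := small_sum hr hq D fun e he => h e (List.mem_cons_of_mem _ he)
    have h1 := h d List.mem_cons_self
    have h2 := small_aux hr hq h1.1 h1.2
    simp only [List.map_cons, List.sum_cons, Nat.cast_add]
    rw [add_div, add_mul]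
    exact add_le_add h2 ih

lemma small_primes (hr0 : 1 < r) (hr : r ≤ 22 / 5) {q : ℕ} (hq : 0 < q) (D : List (ℕ × ℕ))
    (hnd : (D.map Prod.fst).Nodup)
    (hp : ∀ p ∈ D.map Prod.fst, p.Prime)
    (h : ∀ d ∈ D, q < d.1 ∧ d.2 ^ 5 * d.1 ^ 22 ≤ (10 ^ 6) ^ 5 * q ^ 22)
    (hs : 10 ^ 6 ≤ (D.map Prod.snd).sum) :
    1 + (q : ℝ) ^ (-r) ≤ Z r (q + 1) := by
  have hZ := Z_ge_sum hr0 (N := q + 1) (D.map Prod.fst).toFinset (by
    intro p hpm
    rw [List.mem_toFinset] at hpm
    refine ⟨hp p hpm, ?_⟩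
    obtain ⟨d, hd, rfl⟩ := List.mem_map.1 hpm
    exact (h d hd).1)
  rw [List.sum_toFinset _ hnd, List.map_map] at hZ
  have h1 := small_sum hr hq D h
  have h2 : (1 : ℝ) ≤ (((D.map Prod.snd).sum : ℕ) : ℝ) / 10 ^ 6 := by
    rw [le_div_iff₀ (by positivity), one_mul]
    exact_mod_cast hs
  have h3 : (0 : ℝ) < (q : ℝ) ^ (-r) := by positivity
  have h4 : (D.map fun d => (d.1 : ℝ) ^ (-r)).sum =
      (List.map ((fun p : ℕ => (p : ℝ) ^ (-r)) ∘ Prod.fst) D).sum := rfl
  rw [h4] at h1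
  nlinarith

def lad : List ℕ → Bool
  | a :: b :: c :: t => decide (a < b) && decide (b < c) && decide (6 * c ≤ 7 * a) &&
      lad (b :: c :: t)
  | _ => true

lemma lad_spec (q : ℕ) : ∀ (l : List ℕ), lad l = true → ∀ a t, l = a :: t → a ≤ q →
    (∃ p1 ∈ l, ∃ p2 ∈ l, q < p1 ∧ p1 < p2 ∧ 6 * p2 ≤ 7 * q) ∨ ∀ x ∈ l.dropLast, x ≤ q
  | [], _ => by intro a t h; simp at h
  | [a], _ => by intro a t _ _; right; simp
  | [a, b], _ => by
    intro a' t h ha
    right
    simp only [List.cons.injEq] at h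
    simp [h.1, ha]
  | a :: b :: c :: t, h => by
    intro a' t' e ha
    simp only [lad, Bool.and_eq_true, decide_eq_true_eq] at h
    obtain ⟨⟨⟨h1, h2⟩, h3⟩, h4⟩ := h
    simp only [List.cons.injEq] at e
    obtain ⟨rfl, -⟩ := e
    by_cases hb : q < b
    · left
      exact ⟨b, by simp, c, by simp, hb, h2, by omega⟩
    · push Not at hb
      rcases lad_spec q (b :: c :: t) h4 b (c :: t) rfl hb with ⟨p1, hp1, p2, hp2, h5⟩ | h5
      · exact Or.inl ⟨p1, List.mem_cons_of_mem _ hp1, p2, List.mem_cons_of_mem _ hp2, h5⟩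
      · right
        intro x hx
        rw [List.dropLast_cons_of_ne_nil (by simp)] at hx
        rcases List.mem_cons.1 hx with rfl | hx
        · exact ha
        · exact h5 x hx

def ladL : List ℕ := [89, 97, 101, 109, 113, 127, 131, 137, 149, 157, 167, 181, 193, 211, 223,
  233, 239, 269, 277, 307, 317, 347, 367, 401, 419, 467, 487, 541, 563, 631, 653, 733, 757, 853,
  877, 991, 1009, 1151, 1171, 1319, 1361, 1531, 1549, 1777, 1801, 2053, 2089, 2393, 2437, 2789,
  2833, 3253, 3299, 3793, 3821, 4421, 4441, 5153, 5167, 6007, 6011]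

lemma ladL_prime : ∀ p ∈ ladL, p.Prime := by
  unfold ladL
  simp only [List.mem_cons, List.not_mem_nil, or_false, forall_eq_or_imp, forall_eq]
  norm_num

lemma ladL_ok : lad ladL = true := by decide

theorem greedy_cond (hr0 : 1 < r) (hr : r ≤ 22 / 5) (q : ℕ) (hq : q.Prime) (h23 : 23 ≤ q) :
    1 + (q : ℝ) ^ (-r) ≤ Z r (q + 1) := by
  by_cases h6 : 6000 ≤ q
  · exact large_primes hr0 hr h6
  push Not at h6
  by_cases h89 : 89 ≤ q
  · rcases lad_spec q ladL ladL_ok 89 _ rfl h89 with ⟨p1, hp1, p2, hp2, h1, h2, h3⟩ | h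
    · exact two_primes hr0 hr hq.pos (ladL_prime p1 hp1) (ladL_prime p2 hp2) h1 h2 h3
    · have := h 6007 (by decide)
      omega
  push Not at h89
  have hcases : q = 23 ∨ q = 29 ∨ q = 31 ∨ q = 37 ∨ q = 41 ∨ q = 43 ∨ q = 47 ∨ q = 53 ∨ q = 59 ∨
      q = 61 ∨ q = 67 ∨ q = 71 ∨ q = 73 ∨ q = 79 ∨ q = 83 := by
    interval_cases q <;> first | (exfalso; revert hq; norm_num; done) | simp
  rcases hcases with rfl | rfl | rfl | rfl | rfl | rfl | rfl | rfl | rfl | rfl | rfl | rfl | rfl |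
    rfl | rfl
  · exact small_primes hr0 hr (by norm_num) [(29, 360621), (31, 268912), (37, 123456),
      (41, 78587), (43, 63729), (47, 43089), (53, 25397), (59, 15843), (61, 13682), (67, 9054)]
      (by decide) (by norm_num) (by decide +kernel) (by decide)
  · exact small_primes hr0 hr (by norm_num) [(31, 745692), (37, 342344)]
      (by decide) (by norm_num) (by decide +kernel) (by decide)
  · exact small_primes hr0 hr (by norm_num) [(37, 459096), (41, 292241), (43, 236990), (47, 160236)]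
      (by decide) (by norm_num) (by decide +kernel) (by decide)
  · exact small_primes hr0 hr (by norm_num) [(41, 636558), (43, 516209)]
      (by decide) (by norm_num) (by decide +kernel) (by decide)
  · exact small_primes hr0 hr (by norm_num) [(43, 810938), (47, 548300)]
      (by decide) (by norm_num) (by decide +kernel) (by decide)
  · exact small_primes hr0 hr (by norm_num) [(47, 676130), (53, 398517)]
      (by decide) (by norm_num) (by decide +kernel) (by decide)
  · exact small_primes hr0 hr (by norm_num) [(53, 589408), (59, 367689), (61, 317526)]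
      (by decide) (by norm_num) (by decide +kernel) (by decide)
  · exact two_primes hr0 hr (by norm_num) (p1 := 59) (p2 := 61) (by norm_num) (by norm_num)
      (by norm_num) (by norm_num) (by norm_num)
  · exact two_primes hr0 hr (by norm_num) (p1 := 61) (p2 := 67) (by norm_num) (by norm_num)
      (by norm_num) (by norm_num) (by norm_num)
  · exact two_primes hr0 hr (by norm_num) (p1 := 67) (p2 := 71) (by norm_num) (by norm_num)
      (by norm_num) (by norm_num) (by norm_num)
  · exact two_primes hr0 hr (by norm_num) (p1 := 71) (p2 := 73) (by norm_num) (by norm_num)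
      (by norm_num) (by norm_num) (by norm_num)
  · exact two_primes hr0 hr (by norm_num) (p1 := 73) (p2 := 79) (by norm_num) (by norm_num)
      (by norm_num) (by norm_num) (by norm_num)
  · exact two_primes hr0 hr (by norm_num) (p1 := 79) (p2 := 83) (by norm_num) (by norm_num)
      (by norm_num) (by norm_num) (by norm_num)
  · exact two_primes hr0 hr (by norm_num) (p1 := 83) (p2 := 89) (by norm_num) (by norm_num)
      (by norm_num) (by norm_num) (by norm_num)
  · exact small_primes hr0 hr (by norm_num) [(89, 735576), (97, 503672)]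
      (by decide) (by norm_num) (by decide +kernel) (by decide)

/-- for `1 < r ≤ 22/5` the closure of the 23-rough part is an interval -/
theorem base23 (hr0 : 1 < r) (hr : r ≤ 22 / 5) : Set.Icc 1 (Z r 23) ⊆ closure (A r 23) :=
  greedy hr0 23 fun p hp h => greedy_cond hr0 hr p hp h

end Q254.CR
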