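import Mathlib
import Pool.Agent.Q254.CrSmall

open Finset Set Filter Topology

namespace Q254.CR

variable {r : ℝ}

/-- insertion of an interval into a sorted list of disjoint intervals, merging where they meet -/
def ins (I : ℕ × ℕ) : List (ℕ × ℕ) → List (ℕ × ℕ)
  | [] => [I]
  | J :: L => bif Nat.blt I.2 J.1 then I :: J :: L
      else bif Nat.blt J.2 I.1 then J :: ins I L
      else ins (min I.1 J.1, max I.2 J.2) L

lemma ins_cov : ∀ (L : List (ℕ × ℕ)) (I : ℕ × ℕ), ∀ J ∈ I :: L,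
    ∃ J' ∈ ins I L, J'.1 ≤ J.1 ∧ J.2 ≤ J'.2
  | [], I => by
    intro J hJ
    simp only [List.mem_singleton] at hJ
    subst hJ
    exact ⟨J, by simp [ins], le_rfl, le_rfl⟩
  | K :: L, I => by
    intro J hJ
    unfold ins
    cases h1 : Nat.blt I.2 K.1
    · cases h2 : Nat.blt K.2 I.1
      · simp only [cond_false]
        have ih := ins_cov L (min I.1 K.1, max I.2 K.2)
        rcases List.mem_cons.1 hJ with rfl | hJ
        · obtain ⟨J', h3, h4, h5⟩ := ih _ List.mem_cons_self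
          exact ⟨J', h3, h4.trans (min_le_left _ _), (le_max_left _ _).trans h5⟩
        · rcases List.mem_cons.1 hJ with rfl | hJ
          · obtain ⟨J', h3, h4, h5⟩ := ih _ List.mem_cons_self
            exact ⟨J', h3, h4.trans (min_le_right _ _), (le_max_right _ _).trans h5⟩
          · exact ih _ (List.mem_cons_of_mem _ hJ)
      · simp only [cond_false, cond_true]
        have ih := ins_cov L I
        rcases List.mem_cons.1 hJ with rfl | hJ
        · obtain ⟨J', h3, h4⟩ := ih _ List.mem_cons_self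
          exact ⟨J', List.mem_cons_of_mem _ h3, h4⟩
        · rcases List.mem_cons.1 hJ with rfl | hJ
          · exact ⟨J, List.mem_cons_self, le_rfl, le_rfl⟩
          · obtain ⟨J', h3, h4⟩ := ih _ (List.mem_cons_of_mem _ hJ)
            exact ⟨J', List.mem_cons_of_mem _ h3, h4⟩
    · simp only [cond_true]
      exact ⟨J, hJ, le_rfl, le_rfl⟩

def merge (L : List (ℕ × ℕ)) : List (ℕ × ℕ) := L.foldr ins []

lemma merge_cov : ∀ (L : List (ℕ × ℕ)), ∀ J ∈ L, ∃ J' ∈ merge L, J'.1 ≤ J.1 ∧ J.2 ≤ J'.2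
  | [] => by simp
  | I :: L => by
    intro J hJ
    have ih := merge_cov L
    rcases List.mem_cons.1 hJ with rfl | hJ
    · exact ins_cov (merge L) J J List.mem_cons_self
    · obtain ⟨J1, h1, h2, h3⟩ := ih J hJ
      obtain ⟨J2, h4, h5, h6⟩ := ins_cov (merge L) I J1 (List.mem_cons_of_mem _ h1)
      exact ⟨J2, h4, h5.trans h2, h3.trans h6⟩

/-- `L` covers `A` (scale `M`) -/
def Cov (M : ℕ) (A : Set ℝ) (L : List (ℕ × ℕ)) : Prop :=
  ∀ x ∈ A, ∃ I ∈ L, (I.1 : ℝ) ≤ x * M ∧ x * M ≤ I.2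

lemma Cov.merge {M : ℕ} {A : Set ℝ} {L : List (ℕ × ℕ)} (h : Cov M A L) : Cov M A (merge L) := by
  intro x hx
  obtain ⟨I, hI, h1, h2⟩ := h x hx
  obtain ⟨J, hJ, h3, h4⟩ := merge_cov L I hI
  refine ⟨J, hJ, le_trans (by exact_mod_cast h3) h1, le_trans h2 (by exact_mod_cast h4)⟩

def lo (M x : ℕ) : ℕ → ℕ
  | 0 => M
  | k + 1 => M + x * lo M x k / M

def hi (M x : ℕ) : ℕ → ℕ
  | 0 => M
  | k + 1 => M + (x * hi M x k / M + 1)

def loInf (M x : ℕ) : ℕ := M * M / (M - x)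
def hiInf (M x : ℕ) : ℕ := M * M / (M - x) + 1

lemma fl_le {a b M : ℕ} {x y : ℝ} (hM : 0 < M) (hx : (a : ℝ) ≤ x * M) (hy : (b : ℝ) ≤ y * M)
    (hx0 : 0 ≤ x) : ((a * b / M : ℕ) : ℝ) ≤ x * y * M := by
  have hM' : (0 : ℝ) < M := by exact_mod_cast hM
  have h1 : ((a * b / M : ℕ) : ℝ) ≤ (a : ℝ) * b / M := by
    have := @Nat.cast_div_le ℝ _ _ _ (a * b) M
    rw [Nat.cast_mul] at this
    exact this
  refine h1.trans ?_
  rw [div_le_iff₀ hM']
  calc (a : ℝ) * b ≤ (x * M) * (y * M) := by gcongr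
    _ = x * y * M * M := by ring

lemma le_fl {a b M : ℕ} {x y : ℝ} (hM : 0 < M) (hx : x * M ≤ (a : ℝ)) (hy : y * M ≤ (b : ℝ))
    (hy0 : 0 ≤ y) : x * y * M ≤ ((a * b / M + 1 : ℕ) : ℝ) := by
  have hM' : (0 : ℝ) < M := by exact_mod_cast hM
  have h1 : (a : ℝ) * b / M ≤ ((a * b / M + 1 : ℕ) : ℝ) := by
    rw [div_le_iff₀ hM']
    have h2 : a * b < (a * b / M + 1) * M := by
      have := Nat.lt_div_mul_add hM (a := a * b)
      calc a * b < a * b / M * M + M := this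
        _ = (a * b / M + 1) * M := by ring
    exact_mod_cast h2.le
  refine le_trans ?_ h1
  rw [le_div_iff₀ hM']
  calc x * y * M * M = (x * M) * (y * M) := by ring
    _ ≤ (a : ℝ) * b := by gcongr

lemma lo_le {M xl : ℕ} {x : ℝ} (hM : 0 < M) (hx0 : 0 ≤ x) (hx : (xl : ℝ) ≤ x * M) :
    ∀ k, (lo M xl k : ℝ) ≤ S x k * M
  | 0 => by simp [lo, S_zero]
  | k + 1 => by
    have ih := lo_le hM hx0 hx k
    have := fl_le hM hx ih hx0
    rw [S_succ]
    simp only [lo]
    push_cast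
    push_cast at this
    linarith

lemma le_hi {M xh : ℕ} {x : ℝ} (hM : 0 < M) (hx0 : 0 ≤ x) (hx : x * M ≤ (xh : ℝ)) :
    ∀ k, S x k * M ≤ (hi M xh k : ℝ)
  | 0 => by simp [hi, S_zero]
  | k + 1 => by
    have ih := le_hi hM hx0 hx k
    have := le_fl hM hx ih (by linarith [S_pos hx0 k])
    rw [S_succ]
    simp only [hi]
    push_cast
    push_cast at this
    linarith

lemma loInf_le {M xl : ℕ} {x : ℝ} (hM : 0 < M) (hx : (xl : ℝ) ≤ x * M) (hx1 : x < 1)
    (hl : xl < M) : (loInf M xl : ℝ) ≤ (1 - x)⁻¹ * M := by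
  have hM' : (0 : ℝ) < M := by exact_mod_cast hM
  have h1 : (loInf M xl : ℝ) ≤ (M : ℝ) * M / (M - xl) := by
    have := @Nat.cast_div_le ℝ _ _ _ (M * M) (M - xl)
    unfold loInf
    rw [Nat.cast_mul, Nat.cast_sub hl.le] at this
    exact this
  refine h1.trans ?_
  have h2 : (0 : ℝ) < 1 - x := by linarith
  have h3 : (0 : ℝ) < (M : ℝ) - xl := by
    have : (xl : ℝ) < M := by exact_mod_cast hl
    linarith
  rw [← div_eq_inv_mul, div_le_div_iff₀ h3 h2]
  nlinarith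

lemma le_hiInf {M xh : ℕ} {x : ℝ} (hM : 0 < M) (hx : x * M ≤ (xh : ℝ)) (hx1 : x < 1)
    (hl : xh < M) : (1 - x)⁻¹ * M ≤ (hiInf M xh : ℝ) := by
  have hM' : (0 : ℝ) < M := by exact_mod_cast hM
  have h2 : (0 : ℝ) < 1 - x := by linarith
  have h3 : (0 : ℝ) < (M : ℝ) - xh := by
    have : (xh : ℝ) < M := by exact_mod_cast hl
    linarith
  have h1 : (M : ℝ) * M / (M - xh) ≤ (hiInf M xh : ℝ) := by
    rw [div_le_iff₀ h3, ← Nat.cast_sub hl.le]
    unfold hiInf
    have h4 : M * M < (M * M / (M - xh) + 1) * (M - xh) := by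
      have := Nat.lt_div_mul_add (show 0 < M - xh by omega) (a := M * M)
      calc M * M < M * M / (M - xh) * (M - xh) + (M - xh) := this
        _ = (M * M / (M - xh) + 1) * (M - xh) := by ring
    exact_mod_cast h4.le
  refine le_trans ?_ h1
  rw [← div_eq_inv_mul, div_le_div_iff₀ h2 h3]
  nlinarith

/-- bounds for `S x k`, `k < K`, and for the tail -/
def outT (M xl xh K : ℕ) : List (ℕ × ℕ) :=
  (List.range K).map (fun k => (lo M xl k, hi M xh k)) ++ [(lo M xl K, hiInf M xh)]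

def newOut (M : ℕ) (T L : List (ℕ × ℕ)) : List (ℕ × ℕ) :=
  T.flatMap fun t => L.map fun I => (t.1 * I.1 / M, t.2 * I.2 / M + 1)

lemma outT_spec {M xl xh : ℕ} {x : ℝ} (K : ℕ) (hM : 0 < M) (hx0 : 0 ≤ x) (hx1 : x < 1)
    (hl : (xl : ℝ) ≤ x * M) (hh : x * M ≤ (xh : ℝ)) (hxh : xh < M) (k : ℕ) :
    ∃ t ∈ outT M xl xh K, (t.1 : ℝ) ≤ S x k * M ∧ S x k * M ≤ t.2 := by
  have hM' : (0 : ℝ) < M := by exact_mod_cast hM
  by_cases hk : k < K
  · refine ⟨(lo M xl k, hi M xh k), ?_, lo_le hM hx0 hl k, le_hi hM hx0 hh k⟩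
    simp only [outT, List.mem_append, List.mem_map, List.mem_range]
    exact Or.inl ⟨k, hk, rfl⟩
  · push Not at hk
    refine ⟨(lo M xl K, hiInf M xh), by simp [outT], ?_, ?_⟩
    · refine (lo_le hM hx0 hl K).trans ?_
      exact mul_le_mul_of_nonneg_right (S_mono hx0 hk) hM'.le
    · refine le_trans ?_ (le_hiInf hM hh hx1 hxh)
      exact mul_le_mul_of_nonneg_right (S_lt hx0 hx1 k) hM'.le

lemma newOut_spec {M : ℕ} (hM : 0 < M) {p : ℕ} (hp : p.Prime) {T L : List (ℕ × ℕ)}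
    (hT : ∀ k, ∃ t ∈ T, (t.1 : ℝ) ≤ S ((p : ℝ) ^ (-r)) k * M ∧ S ((p : ℝ) ^ (-r)) k * M ≤ t.2)
    (hL : Cov M (A r (p + 1)) L) : Cov M (A r p) (newOut M T L) := by
  intro y hy
  obtain ⟨k, z, hz, rfl⟩ := A_prime_sub r hp hy
  obtain ⟨t, ht, ht1, ht2⟩ := hT k
  obtain ⟨I, hI, hI1, hI2⟩ := hL z hz
  have hx0 := (x_pos (r := r) p hp.pos).le
  refine ⟨(t.1 * I.1 / M, t.2 * I.2 / M + 1), ?_, ?_, ?_⟩
  · simp only [newOut, List.mem_flatMap, List.mem_map]
    exact ⟨t, ht, I, hI, rfl⟩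
  · exact fl_le hM ht1 hI1 (by linarith [S_pos hx0 k])
  · exact le_fl hM ht2 hI2 (by linarith [A_pos r hz])

/-- inner intervals: every interval of the list lies in `F`, and every point of `A` is joined
inside `F` to the left end of one of them -/
structure Good (M : ℕ) (F A : Set ℝ) (L : List (ℕ × ℕ)) : Prop where
  h1 : ∀ I ∈ L, I.1 ≤ I.2 ∧ Set.Icc ((I.1 : ℝ) / M) ((I.2 : ℝ) / M) ⊆ F
  h2 : ∀ x ∈ A, ∃ I ∈ L, Set.uIcc x ((I.1 : ℝ) / M) ⊆ F

lemma uIcc_trans {F : Set ℝ} {x y z : ℝ} (h1 : Set.uIcc x y ⊆ F) (h2 : Set.uIcc y z ⊆ F) :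
    Set.uIcc x z ⊆ F := fun _ hw => (Set.uIcc_subset_uIcc_union_uIcc hw).elim (@h1 _) (@h2 _)

lemma ins_good {M : ℕ} (hM : 0 < M) {F : Set ℝ} : ∀ (L : List (ℕ × ℕ)) (I : ℕ × ℕ),
    (∀ J ∈ I :: L, J.1 ≤ J.2 ∧ Set.Icc ((J.1 : ℝ) / M) ((J.2 : ℝ) / M) ⊆ F) →
    (∀ J ∈ ins I L, J.1 ≤ J.2 ∧ Set.Icc ((J.1 : ℝ) / M) ((J.2 : ℝ) / M) ⊆ F) ∧
    (∀ J ∈ I :: L, ∃ J' ∈ ins I L, Set.uIcc ((J.1 : ℝ) / M) ((J'.1 : ℝ) / M) ⊆ F)
  | [], I, h => by
    have hM' : (0 : ℝ) < M := by exact_mod_cast hM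
    refine ⟨h, fun J hJ => ⟨J, hJ, ?_⟩⟩
    rw [Set.uIcc_self, Set.singleton_subset_iff]
    exact (h J hJ).2 ⟨le_rfl, by have : (J.1 : ℝ) ≤ J.2 := by exact_mod_cast (h J hJ).1
                                 gcongr⟩
  | K :: L, I, h => by
    have hM' : (0 : ℝ) < M := by exact_mod_cast hM
    have hself : ∀ J ∈ I :: K :: L, Set.uIcc ((J.1 : ℝ) / M) ((J.1 : ℝ) / M) ⊆ F := by
      intro J hJ
      rw [Set.uIcc_self, Set.singleton_subset_iff]
      exact (h J hJ).2 ⟨le_rfl, by have : (J.1 : ℝ) ≤ J.2 := by exact_mod_cast (h J hJ).1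
                                   gcongr⟩
    unfold ins
    cases h1 : Nat.blt I.2 K.1
    · cases h2 : Nat.blt K.2 I.1
      · simp only [cond_false]
        have h1' : K.1 ≤ I.2 := by
          have : ¬ Nat.blt I.2 K.1 = true := by simp [h1]
          rw [Nat.blt_eq] at this
          omega
        have h2' : I.1 ≤ K.2 := by
          have : ¬ Nat.blt K.2 I.1 = true := by simp [h2]
          rw [Nat.blt_eq] at this
          omega
        have hI := h I List.mem_cons_self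
        have hK := h K (by simp)
        have hnew : min I.1 K.1 ≤ max I.2 K.2 ∧
            Set.Icc (((min I.1 K.1 : ℕ) : ℝ) / M) (((max I.2 K.2 : ℕ) : ℝ) / M) ⊆ F := by
          refine ⟨(min_le_left _ _).trans (hI.1.trans (le_max_left _ _)), ?_⟩
          intro w hw
          have hw1 : (((min I.1 K.1 : ℕ) : ℝ)) ≤ w * M := by
            have := hw.1; rwa [div_le_iff₀ hM'] at this
          have hw2 : w * M ≤ ((max I.2 K.2 : ℕ) : ℝ) := by
            have := hw.2; rwa [le_div_iff₀ hM'] at this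
          have c1 : (K.1 : ℝ) ≤ I.2 := by exact_mod_cast h1'
          have c2 : (I.1 : ℝ) ≤ K.2 := by exact_mod_cast h2'
          rw [Nat.cast_min] at hw1
          rw [Nat.cast_max] at hw2
          by_cases hc : (I.1 : ℝ) ≤ w * M ∧ w * M ≤ I.2
          · refine hI.2 ⟨?_, ?_⟩
            · rw [div_le_iff₀ hM']; exact hc.1
            · rw [le_div_iff₀ hM']; exact hc.2
          · refine hK.2 ⟨?_, ?_⟩
            · rw [div_le_iff₀ hM']
              rcases min_le_iff.1 hw1 with h3 | h3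
              · have : ¬ w * M ≤ I.2 := fun h4 => hc ⟨h3, h4⟩
                linarith
              · exact h3
            · rw [le_div_iff₀ hM']
              rcases le_max_iff.1 hw2 with h3 | h3
              · have : ¬ (I.1 : ℝ) ≤ w * M := fun h4 => hc ⟨h4, h3⟩
                linarith
              · exact h3
        have ih := ins_good hM L (min I.1 K.1, max I.2 K.2) (by
          intro J hJ
          rcases List.mem_cons.1 hJ with rfl | hJ
          · exact hnew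
          · exact h J (List.mem_cons_of_mem _ (List.mem_cons_of_mem _ hJ)))
        refine ⟨ih.1, ?_⟩
        obtain ⟨J0, hJ0, hl0⟩ := ih.2 _ List.mem_cons_self
        have hlink : ∀ a : ℕ, min I.1 K.1 ≤ a → a ≤ max I.2 K.2 →
            Set.uIcc ((a : ℝ) / M) (((min I.1 K.1 : ℕ) : ℝ) / M) ⊆ F := by
          intro a ha1 ha2
          have ha1' : ((min I.1 K.1 : ℕ) : ℝ) ≤ a := by exact_mod_cast ha1
          have ha2' : (a : ℝ) ≤ ((max I.2 K.2 : ℕ) : ℝ) := by exact_mod_cast ha2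
          rw [Set.uIcc_of_ge (by gcongr)]
          refine (Set.Icc_subset_Icc_right (by gcongr)).trans hnew.2
        intro J hJ
        rcases List.mem_cons.1 hJ with rfl | hJ
        · exact ⟨J0, hJ0, uIcc_trans (hlink _ (min_le_left _ _)
            (hI.1.trans (le_max_left _ _))) hl0⟩
        · rcases List.mem_cons.1 hJ with rfl | hJ
          · exact ⟨J0, hJ0, uIcc_trans (hlink _ (min_le_right _ _)
              (hK.1.trans (le_max_right _ _))) hl0⟩
          · exact ih.2 J (List.mem_cons_of_mem _ hJ)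
      · simp only [cond_false, cond_true]
        have ih := ins_good hM L I (by
          intro J hJ
          rcases List.mem_cons.1 hJ with rfl | hJ
          · exact h _ List.mem_cons_self
          · exact h J (List.mem_cons_of_mem _ (List.mem_cons_of_mem _ hJ)))
        refine ⟨?_, ?_⟩
        · intro J hJ
          rcases List.mem_cons.1 hJ with rfl | hJ
          · exact h _ (by simp)
          · exact ih.1 J hJ
        · intro J hJ
          rcases List.mem_cons.1 hJ with rfl | hJ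
          · obtain ⟨J', h3, h4⟩ := ih.2 _ List.mem_cons_self
            exact ⟨J', List.mem_cons_of_mem _ h3, h4⟩
          · rcases List.mem_cons.1 hJ with rfl | hJ
            · exact ⟨J, List.mem_cons_self, hself J (by simp)⟩
            · obtain ⟨J', h3, h4⟩ := ih.2 _ (List.mem_cons_of_mem _ hJ)
              exact ⟨J', List.mem_cons_of_mem _ h3, h4⟩
    · simp only [cond_true]
      exact ⟨h, fun J hJ => ⟨J, hJ, hself J hJ⟩⟩

lemma merge_good_aux {M : ℕ} (hM : 0 < M) {F : Set ℝ} : ∀ (L : List (ℕ × ℕ)),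
    (∀ J ∈ L, J.1 ≤ J.2 ∧ Set.Icc ((J.1 : ℝ) / M) ((J.2 : ℝ) / M) ⊆ F) →
    (∀ J ∈ merge L, J.1 ≤ J.2 ∧ Set.Icc ((J.1 : ℝ) / M) ((J.2 : ℝ) / M) ⊆ F) ∧
    (∀ J ∈ L, ∃ J' ∈ merge L, Set.uIcc ((J.1 : ℝ) / M) ((J'.1 : ℝ) / M) ⊆ F)
  | [], _ => by simp [merge]
  | I :: L, h => by
    have ih := merge_good_aux hM L fun J hJ => h J (List.mem_cons_of_mem _ hJ)
    have h2 := ins_good hM (merge L) I (by
      intro J hJ
      rcases List.mem_cons.1 hJ with rfl | hJ
      · exact h _ List.mem_cons_self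
      · exact ih.1 J hJ)
    refine ⟨h2.1, ?_⟩
    intro J hJ
    rcases List.mem_cons.1 hJ with rfl | hJ
    · exact h2.2 _ List.mem_cons_self
    · obtain ⟨J1, h3, h4⟩ := ih.2 J hJ
      obtain ⟨J2, h5, h6⟩ := h2.2 J1 (List.mem_cons_of_mem _ h3)
      exact ⟨J2, h5, uIcc_trans h4 h6⟩

lemma Good.merge {M : ℕ} (hM : 0 < M) {F A : Set ℝ} {L : List (ℕ × ℕ)} (h : Good M F A L) :
    Good M F A (merge L) := by
  have h2 := merge_good_aux hM L h.h1
  refine ⟨h2.1, fun x hx => ?_⟩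
  obtain ⟨I, hI, h3⟩ := h.h2 x hx
  obtain ⟨J, hJ, h4⟩ := h2.2 I hI
  exact ⟨J, hJ, uIcc_trans h3 h4⟩

/-- new inner intervals -/
def newIn (M xl xh K : ℕ) (L : List (ℕ × ℕ)) : List (ℕ × ℕ) :=
  ((List.range K).flatMap fun k => L.map fun I => (hi M xh k * I.1 / M + 1, lo M xl k * I.2 / M)) ++
    L.map fun I => (hi M xh K * I.1 / M + 1, loInf M xl * I.2 / M)

def chkIn (M xl xh K : ℕ) (L : List (ℕ × ℕ)) : Bool :=
  L.all fun I =>
    (List.range (K + 1)).all (fun k =>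
      Nat.ble (hi M xh k * I.1 / M + 1) (lo M xl k * I.2 / M)) &&
    (Nat.ble (hiInf M xh * I.1) (lo M xl K * I.2) &&
      Nat.ble (hi M xh K * I.1 / M + 1) (loInf M xl * I.2 / M))

end Q254.CR
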