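import Mathlib
import Pool.Agent.Q254.CrInt

open Finset Set Filter Topology

namespace Q254.CR

variable {r : ℝ}

lemma scale_Icc {F F' : Set ℝ} {c α β : ℝ} (hc : 0 < c) (hs : ∀ z ∈ F', c * z ∈ F)
    (h : Set.Icc α β ⊆ F') : Set.Icc (c * α) (c * β) ⊆ F := by
  intro w hw
  have h1 : w / c ∈ Set.Icc α β := by
    constructor
    · rw [le_div_iff₀ hc]; linarith [hw.1]
    · rw [div_le_iff₀ hc]; linarith [hw.2]
  have := hs _ (h h1)
  rwa [mul_div_cancel₀ _ hc.ne'] at this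

lemma scale_uIcc {F F' : Set ℝ} {c α β : ℝ} (hc : 0 < c) (hs : ∀ z ∈ F', c * z ∈ F)
    (h : Set.uIcc α β ⊆ F') : Set.uIcc (c * α) (c * β) ⊆ F := by
  rcases le_total α β with h1 | h1
  · rw [Set.uIcc_of_le h1] at h
    rw [Set.uIcc_of_le (by nlinarith)]
    exact scale_Icc hc hs h
  · rw [Set.uIcc_of_ge h1] at h
    rw [Set.uIcc_of_ge (by nlinarith)]
    exact scale_Icc hc hs h

lemma newIn_spec (hr : 1 < r) {M : ℕ} (hM : 0 < M) {p : ℕ} (hp : p.Prime) {xl xh K : ℕ}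
    {L : List (ℕ × ℕ)}
    (hl : (xl : ℝ) ≤ (p : ℝ) ^ (-r) * M) (hh : (p : ℝ) ^ (-r) * M ≤ (xh : ℝ)) (hxh : xh < M)
    (hxl : xl < M) (hchk : chkIn M xl xh K L = true)
    (hG : Good M (closure (A r (p + 1))) (A r (p + 1)) L) :
    Good M (closure (A r p)) (A r p) (newIn M xl xh K L) := by
  have hM' : (0 : ℝ) < M := by exact_mod_cast hM
  have hx0 := (x_pos (r := r) p hp.pos).le
  have hx1 := x_lt_one hr hp.two_le
  set x := (p : ℝ) ^ (-r) with hx
  have hSS : ∀ k, ∀ z ∈ closure (A r (p + 1)), S x k * z ∈ closure (A r p) :=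
    fun k z hz => clos_S hp k hz
  have hSI : ∀ z ∈ closure (A r (p + 1)), (1 - x)⁻¹ * z ∈ closure (A r p) :=
    fun z hz => clos_inf hr hp hz
  have hSpos : ∀ k, 0 < S x k := fun k => by linarith [S_pos hx0 k]
  have hinv : 0 < (1 - x)⁻¹ := inv_pos.2 (by linarith)
  simp only [chkIn, List.all_eq_true, Bool.and_eq_true, List.mem_range, Nat.ble_eq] at hchk
  -- facts for every interval
  have fact1 : ∀ I ∈ L, ∀ k, S x k * ((I.1 : ℝ) / M) ≤ ((hi M xh k * I.1 / M + 1 : ℕ) : ℝ) / M := by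
    intro I _ k
    rw [le_div_iff₀ hM']
    exact le_fl hM (le_hi hM hx0 hh k) (by rw [div_mul_cancel₀ _ hM'.ne']) (by positivity)
  have fact2 : ∀ I ∈ L, ∀ k, ((lo M xl k * I.2 / M : ℕ) : ℝ) / M ≤ S x k * ((I.2 : ℝ) / M) := by
    intro I _ k
    rw [div_le_iff₀ hM']
    exact fl_le hM (lo_le hM hx0 hl k) (by rw [div_mul_cancel₀ _ hM'.ne']) (hSpos k).le
  have fact3 : ∀ I ∈ L, ((loInf M xl * I.2 / M : ℕ) : ℝ) / M ≤ (1 - x)⁻¹ * ((I.2 : ℝ) / M) := by
    intro I _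
    rw [div_le_iff₀ hM']
    exact fl_le hM (loInf_le hM hl hx1 hxl) (by rw [div_mul_cancel₀ _ hM'.ne']) hinv.le
  have fact4 : ∀ I ∈ L, (1 - x)⁻¹ * ((I.1 : ℝ) / M) ≤ S x K * ((I.2 : ℝ) / M) := by
    intro I hI
    have h1 := (hchk I hI).2.1
    have h2 : ((hiInf M xh : ℕ) : ℝ) * I.1 ≤ (lo M xl K : ℝ) * I.2 := by exact_mod_cast h1
    have h3 := le_hiInf hM hh hx1 hxh
    have h4 := lo_le hM hx0 hl K
    have h5 : (1 - x)⁻¹ * M * I.1 ≤ S x K * M * I.2 :=
      calc (1 - x)⁻¹ * M * I.1 ≤ (hiInf M xh : ℝ) * I.1 := by gcongr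
        _ ≤ (lo M xl K : ℝ) * I.2 := h2
        _ ≤ S x K * M * I.2 := by gcongr
    rw [mul_div_assoc', mul_div_assoc', div_le_div_iff_of_pos_right hM']
    refine le_of_mul_le_mul_right ?_ hM'
    linarith
  have hk : ∀ I ∈ L, ∀ k ≤ K, ((hi M xh k * I.1 / M + 1 : ℕ) : ℝ) / M ≤
      ((lo M xl k * I.2 / M : ℕ) : ℝ) / M := by
    intro I hI k hk
    have := (hchk I hI).1 k (by omega)
    have h2 : ((hi M xh k * I.1 / M + 1 : ℕ) : ℝ) ≤ ((lo M xl k * I.2 / M : ℕ) : ℝ) := by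
      exact_mod_cast this
    gcongr
  have hIcc : ∀ I ∈ L, ∀ k, Set.Icc (S x k * ((I.1 : ℝ) / M)) (S x k * ((I.2 : ℝ) / M)) ⊆
      closure (A r p) := fun I hI k => scale_Icc (hSpos k) (hSS k) (hG.h1 I hI).2
  have hIccI : ∀ I ∈ L, Set.Icc ((1 - x)⁻¹ * ((I.1 : ℝ) / M)) ((1 - x)⁻¹ * ((I.2 : ℝ) / M)) ⊆
      closure (A r p) := fun I hI => scale_Icc hinv hSI (hG.h1 I hI).2
  have hmem : ∀ J, J ∈ newIn M xl xh K L ↔ (∃ k < K, ∃ I ∈ L,
      (hi M xh k * I.1 / M + 1, lo M xl k * I.2 / M) = J) ∨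
      (∃ I ∈ L, (hi M xh K * I.1 / M + 1, loInf M xl * I.2 / M) = J) := by
    intro J
    simp only [newIn, List.mem_append, List.mem_flatMap, List.mem_map, List.mem_range]
  constructor
  · intro J hJ
    rcases (hmem J).1 hJ with ⟨k, hkK, I, hI, rfl⟩ | ⟨I, hI, rfl⟩
    · refine ⟨(hchk I hI).1 k (by omega), ?_⟩
      exact (Set.Icc_subset_Icc (fact1 I hI k) (fact2 I hI k)).trans (hIcc I hI k)
    · refine ⟨(hchk I hI).2.2, ?_⟩
      intro w hw
      have hw1 : S x K * ((I.1 : ℝ) / M) ≤ w := (fact1 I hI K).trans hw.1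
      have hw2 : w ≤ (1 - x)⁻¹ * ((I.2 : ℝ) / M) := hw.2.trans (fact3 I hI)
      by_cases hc : w ≤ S x K * ((I.2 : ℝ) / M)
      · exact hIcc I hI K ⟨hw1, hc⟩
      · exact hIccI I hI ⟨by linarith [fact4 I hI], hw2⟩
  · intro y hy
    obtain ⟨k, z, hz, rfl⟩ := A_prime_sub r hp hy
    obtain ⟨I, hI, hlink⟩ := hG.h2 z hz
    have hl1 : Set.uIcc (S x k * z) (S x k * ((I.1 : ℝ) / M)) ⊆ closure (A r p) :=
      scale_uIcc (hSpos k) (hSS k) hlink
    have hI0 : (0 : ℝ) ≤ (I.1 : ℝ) / M := by positivity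
    have hI12 : (I.1 : ℝ) / M ≤ (I.2 : ℝ) / M := by
      have : (I.1 : ℝ) ≤ I.2 := by exact_mod_cast (hG.h1 I hI).1
      gcongr
    have hI2 : (0 : ℝ) ≤ (I.2 : ℝ) / M := by positivity
    by_cases hkK : k < K
    · refine ⟨_, (hmem _).2 (Or.inl ⟨k, hkK, I, hI, rfl⟩), uIcc_trans hl1 ?_⟩
      refine (Set.uIcc_subset_Icc ⟨le_rfl, ?_⟩ ⟨fact1 I hI k, ?_⟩).trans (hIcc I hI k)
      · have := (hSpos k).le
        gcongr
      · exact (hk I hI k (by omega)).trans (fact2 I hI k)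
    · push Not at hkK
      refine ⟨_, (hmem _).2 (Or.inr ⟨I, hI, rfl⟩), uIcc_trans hl1 ?_⟩
      have h1 : S x K ≤ S x k := S_mono hx0 hkK
      have h2 : S x k ≤ (1 - x)⁻¹ := S_lt hx0 hx1 k
      have hl2 : Set.uIcc (S x k * ((I.1 : ℝ) / M)) ((1 - x)⁻¹ * ((I.1 : ℝ) / M)) ⊆
          closure (A r p) := by
        refine (Set.uIcc_subset_Icc ⟨le_rfl, ?_⟩ ⟨?_, ?_⟩).trans (hIcc I hI k)
        · have := (hSpos k).le
          gcongr
        · gcongr
        · refine (fact4 I hI).trans ?_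
          gcongr
      refine uIcc_trans hl2 ?_
      refine (Set.uIcc_subset_Icc ⟨?_, fact4 I hI⟩ ⟨fact1 I hI K, ?_⟩).trans (hIcc I hI K)
      · have := h1.trans h2
        gcongr
      · exact (hk I hI K le_rfl).trans (fact2 I hI K)

lemma isClosed_link {F : Set ℝ} (hF : IsClosed F) (a : ℝ) :
    IsClosed {x : ℝ | Set.uIcc x a ⊆ F} := by
  refine isClosed_of_closure_subset fun x hx => ?_
  intro w hw
  by_cases hwx : w = x
  · subst hwx
    have : {x : ℝ | Set.uIcc x a ⊆ F} ⊆ F := fun y hy => hy Set.left_mem_uIcc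
    exact (closure_mono this |>.trans hF.closure_subset) hx
  · rw [Set.mem_uIcc] at hw
    rcases hw with ⟨h1, h2⟩ | ⟨h1, h2⟩
    · have hlt : x < w := lt_of_le_of_ne h1 (Ne.symm hwx)
      obtain ⟨y, hy1, hy2⟩ := mem_closure_iff.1 hx (Set.Iio w) isOpen_Iio hlt
      exact hy2 (Set.mem_uIcc.2 (Or.inl ⟨le_of_lt hy1, h2⟩))
    · have hlt : w < x := lt_of_le_of_ne h2 hwx
      obtain ⟨y, hy1, hy2⟩ := mem_closure_iff.1 hx (Set.Ioi w) isOpen_Ioi hlt
      exact hy2 (Set.mem_uIcc.2 (Or.inr ⟨h1, le_of_lt hy1⟩))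

lemma mk_eq {F : Set ℝ} {x y : ℝ} (hx : x ∈ F) (hy : y ∈ F) :
    (ConnectedComponents.mk (⟨x, hx⟩ : F) = ConnectedComponents.mk (⟨y, hy⟩ : F)) ↔
      Set.uIcc x y ⊆ F := by
  rw [ConnectedComponents.coe_eq_coe']
  have e : x ∈ connectedComponentIn F y ↔ (⟨x, hx⟩ : F) ∈ connectedComponent (⟨y, hy⟩ : F) := by
    rw [connectedComponentIn_eq_image hy]
    constructor
    · rintro ⟨z, hz, h⟩
      have : z = ⟨x, hx⟩ := Subtype.ext h
      rwa [this] at hz
    · intro h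
      exact ⟨_, h, rfl⟩
  rw [← e]
  constructor
  · intro h
    have hc : IsPreconnected (connectedComponentIn F y) := isPreconnected_connectedComponentIn
    have ho := hc.ordConnected
    exact (ho.uIcc_subset h (mem_connectedComponentIn hy)).trans (connectedComponentIn_subset F y)
  · intro h
    exact isPreconnected_uIcc.subset_connectedComponentIn Set.right_mem_uIcc h Set.left_mem_uIcc

theorem card_eq {M : ℕ} (hM : 0 < M) {A : Set ℝ} {Lo Li : List (ℕ × ℕ)} {n : ℕ}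
    (hn : Li.length = n)
    (hcov : Cov M A Lo) (hgood : Good M (closure A) A Li)
    (hf : List.Forall₂ (fun o i => o.1 ≤ i.1 ∧ i.2 ≤ o.2) Lo Li)
    (hs : Lo.Pairwise (fun I J => I.2 < J.1)) :
    Nat.card (ConnectedComponents (closure A)) = n := by
  have hM' : (0 : ℝ) < M := by exact_mod_cast hM
  have hlen : Lo.length = Li.length := hf.length_eq
  have hget : ∀ (i : ℕ) (h1 : i < Lo.length) (h2 : i < Li.length),
      Lo[i].1 ≤ Li[i].1 ∧ Li[i].2 ≤ Lo[i].2 := fun i h1 h2 => by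
    have := (List.forall₂_iff_get.1 hf).2 i h1 h2
    simpa using this
  have hIn : ∀ I ∈ Li, (I.1 : ℝ) / M ∈ closure A := fun I hI => by
    have h1 := hgood.h1 I hI
    have h2 : (I.1 : ℝ) ≤ I.2 := by exact_mod_cast h1.1
    exact h1.2 ⟨le_rfl, by gcongr⟩
  let f : Fin Li.length → ConnectedComponents (closure A) := fun i =>
    ConnectedComponents.mk ⟨(Li[i].1 : ℝ) / M, hIn _ (List.getElem_mem _)⟩
  have hcl : ∀ y ∈ closure A, ∃ I ∈ Li, Set.uIcc y ((I.1 : ℝ) / M) ⊆ closure A := by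
    intro y hy
    have hc : IsClosed (⋃ I ∈ {I : ℕ × ℕ | I ∈ Li},
        {x : ℝ | Set.uIcc x ((I.1 : ℝ) / M) ⊆ closure A}) :=
      (List.finite_toSet Li).isClosed_biUnion fun I _ => isClosed_link isClosed_closure _
    have hsub : A ⊆ ⋃ I ∈ {I : ℕ × ℕ | I ∈ Li},
        {x : ℝ | Set.uIcc x ((I.1 : ℝ) / M) ⊆ closure A} := by
      intro x hx
      obtain ⟨I, hI, h⟩ := hgood.h2 x hx
      exact Set.mem_biUnion hI h
    have := closure_minimal hsub hc hy
    simp only [Set.mem_iUnion] at this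
    obtain ⟨I, hI, h⟩ := this
    exact ⟨I, hI, h⟩
  have hout : ∀ y ∈ closure A, ∃ I ∈ Lo, (I.1 : ℝ) ≤ y * M ∧ y * M ≤ I.2 := by
    intro y hy
    have hc : IsClosed (⋃ I ∈ {I : ℕ × ℕ | I ∈ Lo},
        {x : ℝ | (I.1 : ℝ) ≤ x * M ∧ x * M ≤ I.2}) :=
      (List.finite_toSet Lo).isClosed_biUnion fun I _ => by
        have c : Continuous (fun x : ℝ => x * (M : ℝ)) := by fun_prop
        exact (isClosed_le continuous_const c).inter (isClosed_le c continuous_const)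
    have hsub : A ⊆ ⋃ I ∈ {I : ℕ × ℕ | I ∈ Lo},
        {x : ℝ | (I.1 : ℝ) ≤ x * M ∧ x * M ≤ I.2} := by
      intro x hx
      obtain ⟨I, hI, h⟩ := hcov x hx
      exact Set.mem_biUnion hI h
    have := closure_minimal hsub hc hy
    simp only [Set.mem_iUnion] at this
    obtain ⟨I, hI, h⟩ := this
    exact ⟨I, hI, h⟩
  have hsurj : Function.Surjective f := by
    intro c
    obtain ⟨⟨y, hy⟩, rfl⟩ := ConnectedComponents.surjective_coe c
    obtain ⟨I, hI, h⟩ := hcl y hy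
    obtain ⟨i, hi, rfl⟩ := List.getElem_of_mem hI
    refine ⟨⟨i, hi⟩, ?_⟩
    simp only [f]
    rw [mk_eq, Set.uIcc_comm]
    exact h
  have hsep : ∀ i j : Fin Li.length, i < j → f i ≠ f j := by
    intro i j hij he
    simp only [f] at he
    rw [mk_eq] at he
    have hi1 := hget i.1 (by have := i.2; omega) i.2
    have hj1 := hget j.1 (by have := j.2; omega) j.2
    have hord : ∀ (a b : ℕ) (ha : a < Lo.length) (hb : b < Lo.length), a < b →
        Lo[a].2 < Lo[b].1 := fun a b ha hb hab => List.pairwise_iff_getElem.1 hs a b ha hb hab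
    have hle : ∀ (a : ℕ) (ha : a < Lo.length), Lo[a].1 ≤ Lo[a].2 := by
      intro a ha
      have h1 := hget a ha (by omega)
      have h2 := (hgood.h1 Li[a] (List.getElem_mem _)).1
      omega
    have hiL : i.1 < Lo.length := by have := i.2; omega
    have hjL : j.1 < Lo.length := by have := j.2; omega
    have hgap := hord i.1 j.1 hiL hjL hij
    have hLi := (hgood.h1 Li[i.1] (List.getElem_mem _)).1
    -- the separating point
    have hg : ((Lo[i.1].2 : ℝ) + 1 / 2) / M ∈ closure A := by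
      refine he ?_
      rw [Set.mem_uIcc]
      left
      constructor
      · have h1 : (Li[i.1].1 : ℝ) ≤ Lo[i.1].2 := by
          have : Li[i.1].1 ≤ Lo[i.1].2 := hLi.trans hi1.2
          exact_mod_cast this
        simp only [Fin.getElem_fin]
        gcongr
        linarith
      · have h1 : (Lo[i.1].2 : ℝ) + 1 ≤ Li[j.1].1 := by
          have : Lo[i.1].2 + 1 ≤ Li[j.1].1 := by have := hj1.1; omega
          exact_mod_cast this
        simp only [Fin.getElem_fin]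
        gcongr
        linarith
    obtain ⟨I, hI, h1, h2⟩ := hout _ hg
    rw [div_mul_cancel₀ _ hM'.ne'] at h1 h2
    obtain ⟨k, hk, rfl⟩ := List.getElem_of_mem hI
    have h1' : (2 : ℝ) * Lo[k].1 ≤ 2 * Lo[i.1].2 + 1 := by linarith
    have h2' : (2 : ℝ) * Lo[i.1].2 + 1 ≤ 2 * Lo[k].2 := by linarith
    have h1'' : 2 * Lo[k].1 ≤ 2 * Lo[i.1].2 + 1 := by exact_mod_cast h1'
    have h2'' : 2 * Lo[i.1].2 + 1 ≤ 2 * Lo[k].2 := by exact_mod_cast h2'
    rcases lt_trichotomy k i.1 with h | h | h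
    · have := hord k i.1 hk hiL h
      have := hle i.1 hiL
      omega
    · subst h; omega
    · have := hord i.1 k hiL hk h
      omega
  have hinj : Function.Injective f := by
    intro i j he
    rcases lt_trichotomy i j with h | h | h
    · exact absurd he (hsep i j h)
    · exact h
    · exact absurd he.symm (hsep j i h)
  have := Nat.card_congr (Equiv.ofBijective f ⟨hinj, hsurj⟩)
  rw [← this, Nat.card_eq_fintype_card, Fintype.card_fin, hn]

end Q254.CR
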