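import Mathlib
import Pool.Agent.Q254.CrCount

open Finset Set Filter Topology

namespace Q254.CR

variable {r : ℝ}

def eqL : List (ℕ × ℕ) → List (ℕ × ℕ) → Bool
  | [], [] => true
  | a :: s, b :: t => Nat.beq a.1 b.1 && (Nat.beq a.2 b.2 && eqL s t)
  | _, _ => false

lemma eqL_eq : ∀ s t : List (ℕ × ℕ), eqL s t = true → s = t
  | [], [], _ => rfl
  | a :: s, b :: t, h => by
    simp only [eqL, Bool.and_eq_true, Nat.beq_eq] at h
    rw [eqL_eq s t h.2.2, Prod.ext h.1 h.2.1]
  | [], _ :: _, h => by simp [eqL] at h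
  | _ :: _, [], h => by simp [eqL] at h

def nest : List (ℕ × ℕ) → List (ℕ × ℕ) → Bool
  | [], [] => true
  | a :: s, b :: t => Nat.ble a.1 b.1 && (Nat.ble b.2 a.2 && nest s t)
  | _, _ => false

lemma nest_spec : ∀ s t : List (ℕ × ℕ), nest s t = true →
    List.Forall₂ (fun o i : ℕ × ℕ => o.1 ≤ i.1 ∧ i.2 ≤ o.2) s t
  | [], [], _ => List.Forall₂.nil
  | a :: s, b :: t, h => by
    simp only [nest, Bool.and_eq_true, Nat.ble_eq] at h
    exact List.Forall₂.cons ⟨h.1, h.2.1⟩ (nest_spec s t h.2.2)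
  | [], _ :: _, h => by simp [nest] at h
  | _ :: _, [], h => by simp [nest] at h

/-- sorted with gaps; also the intervals themselves are nonempty -/
def sepr : List (ℕ × ℕ) → Bool
  | [] => true
  | [a] => Nat.ble a.1 a.2
  | a :: b :: t => Nat.ble a.1 a.2 && (Nat.blt a.2 b.1 && sepr (b :: t))

lemma sepr_aux : ∀ (s : List (ℕ × ℕ)) (a : ℕ × ℕ), sepr (a :: s) = true →
    a.1 ≤ a.2 ∧ (∀ b ∈ s, a.2 < b.1) ∧ s.Pairwise (fun I J => I.2 < J.1)
  | [], a, h => by
    simp only [sepr, Nat.ble_eq] at h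
    exact ⟨h, by simp, List.Pairwise.nil⟩
  | b :: t, a, h => by
    simp only [sepr, Bool.and_eq_true, Nat.ble_eq, Nat.blt_eq] at h
    obtain ⟨h1, h2, h3⟩ := h
    obtain ⟨h4, h5, h6⟩ := sepr_aux t b h3
    refine ⟨h1, ?_, List.Pairwise.cons h5 h6⟩
    intro c hc
    rcases List.mem_cons.1 hc with rfl | hc
    · exact h2
    · have := h5 c hc; omega

lemma sepr_spec (s : List (ℕ × ℕ)) (h : sepr s = true) : s.Pairwise (fun I J => I.2 < J.1) := by
  cases s with
  | nil => exact List.Pairwise.nil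
  | cons a s =>
    obtain ⟨_, h2, h3⟩ := sepr_aux s a h
    exact List.Pairwise.cons h2 h3

/-- bounds for `p^{-u/v}` -/
def chkX (u v M p xl : ℕ) : Bool :=
  Nat.ble (xl ^ v * p ^ u) (M ^ v) && (Nat.ble (M ^ v) ((xl + 1) ^ v * p ^ u) && Nat.blt (xl + 1) M)

lemma x_bounds {u v M p xl : ℕ} (hv : 0 < v) (hp : 0 < p) (hM : 0 < M)
    (hr : r = (u : ℝ) / v) :
    (xl ^ v * p ^ u ≤ M ^ v → (xl : ℝ) ≤ (p : ℝ) ^ (-r) * M) ∧
    (M ^ v ≤ xl ^ v * p ^ u → (p : ℝ) ^ (-r) * M ≤ (xl : ℝ)) := by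
  have hp0 : (0 : ℝ) < p := by exact_mod_cast hp
  have hM0 : (0 : ℝ) < M := by exact_mod_cast hM
  have hv0 : (v : ℝ) ≠ 0 := by positivity
  have e : ((p : ℝ) ^ (-r) * M) ^ v * (p : ℝ) ^ u = (M : ℝ) ^ v := by
    rw [mul_pow, ← Real.rpow_natCast ((p : ℝ) ^ (-r)) v, ← Real.rpow_mul hp0.le, hr]
    rw [show (-((u : ℝ) / v) * (v : ℝ)) = -(u : ℝ) by field_simp, Real.rpow_neg hp0.le,
      Real.rpow_natCast]
    field_simp
  have hpu : (0 : ℝ) < (p : ℝ) ^ u := by positivity
  constructor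
  · intro h
    have h1 : (xl : ℝ) ^ v * (p : ℝ) ^ u ≤ (M : ℝ) ^ v := by exact_mod_cast h
    rw [← e] at h1
    have h2 := le_of_mul_le_mul_right h1 hpu
    exact le_of_pow_le_pow_left₀ hv.ne' (by positivity) h2
  · intro h
    have h1 : (M : ℝ) ^ v ≤ (xl : ℝ) ^ v * (p : ℝ) ^ u := by exact_mod_cast h
    rw [← e] at h1
    have h2 := le_of_mul_le_mul_right h1 hpu
    exact le_of_pow_le_pow_left₀ hv.ne' (by positivity) h2

lemma A_gap (r : ℝ) (a : ℕ) : ∀ k : ℕ, (∀ n, a ≤ n → n < a + k → ¬ n.Prime) → A r a = A r (a + k)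
  | 0, _ => rfl
  | k + 1, h => by
    rw [A_gap r a k fun n h1 h2 => h n h1 (by omega)]
    exact A_not_prime r (h (a + k) (by omega) (by omega))

/-- a pair of lists describing `A r N` from outside and from inside -/
structure Desc (r : ℝ) (M N : ℕ) (Lo Li : List (ℕ × ℕ)) : Prop where
  cov : Cov M (A r N) Lo
  good : Good M (closure (A r N)) (A r N) Li

lemma Desc.gap {M N k : ℕ} {Lo Li : List (ℕ × ℕ)} (h : Desc r M (N + k) Lo Li)
    (hN : ∀ n, N ≤ n → n < N + k → ¬ n.Prime) : Desc r M N Lo Li := by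
  have := A_gap r N k hN
  exact ⟨this ▸ h.cov, this ▸ h.good⟩

def stepChk (u v M p xl K : ℕ) (Lo Li Lo' Li' : List (ℕ × ℕ)) : Bool :=
  chkX u v M p xl && (chkIn M xl (xl + 1) K Li &&
    (eqL (merge (newOut M (outT M xl (xl + 1) K) Lo)) Lo' &&
      eqL (merge (newIn M xl (xl + 1) K Li)) Li'))

lemma Desc.step {M : ℕ} (hM : 0 < M) (hr : 1 < r) {u v p xl K : ℕ} (hv : 0 < v)
    (hruv : r = (u : ℝ) / v) (hp : p.Prime) {Lo Li Lo' Li' : List (ℕ × ℕ)}
    (h : Desc r M (p + 1) Lo Li) (hchk : stepChk u v M p xl K Lo Li Lo' Li' = true) :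
    Desc r M p Lo' Li' := by
  simp only [stepChk, chkX, Bool.and_eq_true, Nat.ble_eq, Nat.blt_eq] at hchk
  obtain ⟨⟨h1, h2, h3⟩, h4, h5, h6⟩ := hchk
  have hl := (x_bounds (r := r) hv hp.pos hM hruv).1 h1
  have hh := (x_bounds (r := r) hv hp.pos hM hruv).2 h2
  have hx0 := (x_pos (r := r) p hp.pos).le
  have hx1 := x_lt_one hr hp.two_le
  rw [← eqL_eq _ _ h5, ← eqL_eq _ _ h6]
  refine ⟨?_, ?_⟩
  · refine Cov.merge (newOut_spec hM hp ?_ h.cov)
    exact fun k => outT_spec K hM hx0 hx1 hl hh h3 k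
  · exact Good.merge hM (newIn_spec hr hM hp hl hh h3 (by omega) h4 h.good)

/-- the sum over the tail primes -/
def chkTail (u v M : ℕ) (D : List (ℕ × ℕ)) : Bool :=
  D.all fun d => chkX u v M d.1 d.2

lemma tail_bounds {u v M : ℕ} (hv : 0 < v) (hM : 0 < M) (hruv : r = (u : ℝ) / v) :
    ∀ D : List (ℕ × ℕ), (∀ d ∈ D, 0 < d.1) → chkTail u v M D = true →
      (((D.map Prod.snd).sum : ℕ) : ℝ) ≤ ((D.map Prod.fst).map fun p : ℕ => (p : ℝ) ^ (-r)).sum * M ∧
      ((D.map Prod.fst).map fun p : ℕ => (p : ℝ) ^ (-r)).sum * M ≤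
        (((D.map Prod.snd).sum + D.length : ℕ) : ℝ)
  | [], _, _ => by simp
  | d :: D, hpos, h => by
    simp only [chkTail, List.all_cons, Bool.and_eq_true, chkX, Nat.ble_eq, Nat.blt_eq] at h
    obtain ⟨⟨h1, h2, _⟩, h4⟩ := h
    have ih := tail_bounds hv hM hruv D (fun e he => hpos e (List.mem_cons_of_mem _ he))
      (by simpa only [chkTail, chkX] using h4)
    have hd := hpos d List.mem_cons_self
    have hl := (x_bounds (r := r) hv hd hM hruv).1 h1
    have hh := (x_bounds (r := r) hv hd hM hruv).2 h2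
    simp only [List.map_cons, List.sum_cons, List.length_cons, Nat.cast_add, Nat.cast_one] at *
    constructor
    · nlinarith [ih.1]
    · nlinarith [ih.2]

/-- trial division by the primes below 23 -/
def pt (n : ℕ) : Bool :=
  [2, 3, 5, 7, 11, 13, 17, 19].all fun q => !(Nat.beq (n % q) 0)

lemma pt_spec {n : ℕ} (hn : 23 ≤ n) (hp : n.Prime) : pt n = true := by
  simp only [pt, List.all_eq_true, Bool.not_eq_true']
  intro q hq
  by_contra hcon
  have h0 : n % q = 0 := by
    have : Nat.beq (n % q) 0 = true := by simpa using hcon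
    exact Nat.eq_of_beq_eq_true this
  have hdvd : q ∣ n := Nat.dvd_of_mod_eq_zero h0
  rcases (Nat.dvd_prime hp).1 hdvd with h | h
  · subst h; simp at hq
  · subst h
    simp only [List.mem_cons, List.not_mem_nil, or_false] at hq
    omega

def ptChk (P : List ℕ) : Bool := (List.range 477).all fun k =>
  !(pt (23 + k)) || P.contains (23 + k)

theorem base_desc (h4 : 4 ≤ r) (hr : r ≤ 22 / 5) {u v M : ℕ} (hv : 0 < v) (hM : 0 < M)
    (hruv : r = (u : ℝ) / v) (D : List (ℕ × ℕ)) (hD : chkTail u v M D = true)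
    (hprime : ∀ p ∈ D.map Prod.fst, p.Prime ∧ 23 ≤ p)
    (hnd : (D.map Prod.fst).Nodup) (hpt : ptChk (D.map Prod.fst) = true)
    (s zhi : ℕ) (hs : (D.map Prod.snd).sum = s)
    (hlt : s + D.length < M)
    (hz : M * M * 372754497 ≤ zhi * (M - (s + D.length)) * 372754496) :
    Desc r M 23 [(M, zhi)] [(M, M + s)] := by
  have hM' : (0 : ℝ) < M := by exact_mod_cast hM
  have hr1 : 1 < r := by linarith
  have htb := tail_bounds hv hM hruv D
    (fun d hd => (hprime d.1 (List.mem_map_of_mem hd)).1.pos) hD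
  rw [hs] at htb
  set F := (D.map Prod.fst).toFinset with hF
  have hsum : ((D.map Prod.fst).map fun p : ℕ => (p : ℝ) ^ (-r)).sum = ∑ p ∈ F, (p : ℝ) ^ (-r) := by
    rw [hF, List.sum_toFinset _ hnd]
  rw [hsum] at htb
  set X := ∑ p ∈ F, (p : ℝ) ^ (-r) with hX
  have hlow : 1 + X ≤ Z r 23 := Z_ge_sum hr1 F fun p hp => hprime p (by simpa [hF] using hp)
  have hup0 := Z_mul_sum_le hr1 (N := 23) F 477 (by
    intro p h1 h2 h3
    rw [hF, List.mem_toFinset]
    have h5 := pt_spec h1 h3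
    simp only [ptChk, List.all_eq_true, List.mem_range] at hpt
    have := hpt (p - 23) (by omega)
    rw [show 23 + (p - 23) = p by omega, h5] at this
    simpa using this)
  have hX0 : ∑ p ∈ F.filter (fun p => 23 ≤ p ∧ p < 23 + 477), (p : ℝ) ^ (-r) ≤ X :=
    Finset.sum_le_sum_of_subset_of_nonneg (Finset.filter_subset _ _) fun i _ _ => by positivity
  have hZ1 := one_le_Z hr1 23
  have hup : Z r 23 * (1 - X) ≤ Z r 500 := by
    refine le_trans ?_ hup0
    exact mul_le_mul_of_nonneg_left (by linarith) (by linarith)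
  have htail := Z_tail h4 (N := 500) (by norm_num)
  have hzhi : Z r 23 * M ≤ zhi := by
    have h1 : X * M ≤ ((s + D.length : ℕ) : ℝ) := htb.2
    have h2 : ((s + D.length : ℕ) : ℝ) < M := by exact_mod_cast hlt
    have h3 : (M : ℝ) * M * 372754497 ≤
        zhi * (M - ((s + D.length : ℕ) : ℝ)) * 372754496 := by
      have h5 : ((M * M * 372754497 : ℕ) : ℝ) ≤
          ((zhi * (M - (s + D.length)) * 372754496 : ℕ) : ℝ) := by exact_mod_cast hz
      rw [Nat.cast_mul, Nat.cast_mul, Nat.cast_mul, Nat.cast_mul, Nat.cast_sub hlt.le] at h5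
      push_cast at h5 ⊢
      exact h5
    have h6 : (M : ℝ) - ((s + D.length : ℕ) : ℝ) ≤ M * (1 - X) := by linarith
    have h7 : (0 : ℝ) < (M : ℝ) - ((s + D.length : ℕ) : ℝ) := by linarith
    have h8 : Z r 500 * 372754496 ≤ 372754497 := by
      norm_num at htail ⊢
      linarith
    have h9 : Z r 23 * (M - ((s + D.length : ℕ) : ℝ)) ≤ Z r 500 * M := by
      calc Z r 23 * (M - ((s + D.length : ℕ) : ℝ)) ≤ Z r 23 * (M * (1 - X)) :=
            mul_le_mul_of_nonneg_left h6 (by linarith)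
        _ = Z r 23 * (1 - X) * M := by ring
        _ ≤ Z r 500 * M := mul_le_mul_of_nonneg_right hup hM'.le
    have h10 : Z r 23 * M * ((M - ((s + D.length : ℕ) : ℝ)) * 372754496) ≤
        zhi * ((M - ((s + D.length : ℕ) : ℝ)) * 372754496) := by
      calc Z r 23 * M * ((M - ((s + D.length : ℕ) : ℝ)) * 372754496) =
            Z r 23 * (M - ((s + D.length : ℕ) : ℝ)) * (M * 372754496) := by ring
        _ ≤ Z r 500 * M * (M * 372754496) :=
            mul_le_mul_of_nonneg_right h9 (by positivity)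
        _ = Z r 500 * 372754496 * (M * M) := by ring
        _ ≤ 372754497 * (M * M) := mul_le_mul_of_nonneg_right h8 (by positivity)
        _ = (M : ℝ) * M * 372754497 := by ring
        _ ≤ zhi * (M - ((s + D.length : ℕ) : ℝ)) * 372754496 := h3
        _ = _ := by ring
    exact le_of_mul_le_mul_right h10 (mul_pos h7 (by norm_num))
  have hbase := base23 hr1 hr
  constructor
  · intro x hx
    refine ⟨(M, zhi), by simp, ?_, ?_⟩
    · have := A_pos r hx
      simp only
      nlinarith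
    · have := A_le_Z hr1 hx
      calc x * M ≤ Z r 23 * M := mul_le_mul_of_nonneg_right this hM'.le
        _ ≤ zhi := hzhi
  · constructor
    · intro I hI
      simp only [List.mem_singleton] at hI
      subst hI
      refine ⟨by simp, ?_⟩
      refine Set.Subset.trans ?_ hbase
      simp only
      rw [div_self hM'.ne']
      refine Set.Icc_subset_Icc_right ?_
      rw [div_le_iff₀ hM']
      push_cast
      nlinarith [htb.1]
    · intro x hx
      refine ⟨(M, M + s), by simp, ?_⟩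
      simp only
      rw [div_self hM'.ne', Set.uIcc_of_ge (A_pos r hx)]
      exact (Set.Icc_subset_Icc_right (A_le_Z hr1 hx)).trans hbase

/-- the primes in `[23, 500)` -/
def tailPrimes : List ℕ := [23, 29, 31, 37, 41, 43, 47, 53, 59, 61, 67, 71, 73, 79, 83, 89,
  97, 101, 103, 107, 109, 113, 127, 131, 137, 139, 149, 151, 157, 163, 167, 173, 179, 181, 191,
  193, 197, 199, 211, 223, 227, 229, 233, 239, 241, 251, 257, 263, 269, 271, 277, 281, 283, 293,
  307, 311, 313, 317, 331, 337, 347, 349, 353, 359, 367, 373, 379, 383, 389, 397, 401, 409, 419,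
  421, 431, 433, 439, 443, 449, 457, 461, 463, 467, 479, 487, 491, 499]

lemma tailPrimes_spec : ∀ p ∈ tailPrimes, p.Prime ∧ 23 ≤ p := by
  unfold tailPrimes
  simp only [List.mem_cons, List.not_mem_nil, or_false, forall_eq_or_imp, forall_eq]
  norm_num

end Q254.CR
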