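import Mathlib

/-!
# 2-adic obstruction: values of `x³ + 2x² + 3x + 8c`

If `θ ∈ ℤ₂` is the root of `x³ + 2x² + 3x + 8c` divisible by `8` and `k ∈ ℤ`, then `k - θ` and
`k³ + 2k² + 3k + 8c` are not both sums of two squares in `ℚ₂`.
-/

set_option autoImplicit false

namespace Q254Cubic

instance : Fact (Nat.Prime 2) := ⟨Nat.prime_two⟩

/-- reduction modulo `8` -/
noncomputable def red : ℤ_[2] →+* ZMod 8 := PadicInt.toZModPow 3

theorem dvd_of_red_eq_zero {x : ℤ_[2]} (h : red x = 0) : (8 : ℤ_[2]) ∣ x := by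
  have h1 : x ∈ RingHom.ker (PadicInt.toZModPow 3 : ℤ_[2] →+* ZMod (2 ^ 3)) := h
  rw [PadicInt.ker_toZModPow, Ideal.mem_span_singleton] at h1
  have : ((2 : ℕ) : ℤ_[2]) ^ 3 = 8 := by norm_num
  rwa [this] at h1

theorem red_eq_zero_of_dvd {x : ℤ_[2]} (h : (8 : ℤ_[2]) ∣ x) : red x = 0 := by
  obtain ⟨y, rfl⟩ := h
  rw [map_mul]
  have : red 8 = 0 := by
    have : red ((8 : ℕ) : ℤ_[2]) = ((8 : ℕ) : ZMod 8) := map_natCast red 8
    have h8 : ((8 : ℕ) : ZMod 8) = 0 := by decide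
    rw [h8] at this
    simpa using this
  rw [this, zero_mul]

theorem red_natCast (n : ℕ) : red (n : ℤ_[2]) = n := map_natCast red n

theorem two_dvd_of {x : ℤ_[2]} (h : 4 * red x = 0) : (2 : ℤ_[2]) ∣ x := by
  have h4 : red (4 * x) = 0 := by
    rw [map_mul]
    have : red 4 = 4 := by simpa using red_natCast 4
    rw [this, h]
  obtain ⟨y, hy⟩ := dvd_of_red_eq_zero h4
  refine ⟨y, ?_⟩
  have h40 : (4 : ℤ_[2]) ≠ 0 := by norm_num
  apply mul_left_cancel₀ h40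
  rw [hy]; ring

/-- `2^e z` with `z ≡ 3 mod 4` is not a sum of two squares in `ℤ₂`. -/
theorem not_sum_int (z : ℤ_[2]) (hz : red z = 3 ∨ red z = 7) :
    ∀ (e : ℕ) (r s : ℤ_[2]), r ^ 2 + s ^ 2 ≠ 2 ^ e * z := by
  intro e
  induction e using Nat.strong_induction_on with
  | _ e ih =>
    intro r s h
    have hred : red r ^ 2 + red s ^ 2 = 2 ^ e * red z := by
      have := congrArg red h
      rw [map_add, map_pow, map_pow, map_mul, map_pow] at this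
      have h2 : red 2 = 2 := by simpa using red_natCast 2
      rwa [h2] at this
    rcases Nat.lt_or_ge e 2 with he | he
    · interval_cases e
      · rw [pow_zero, one_mul] at hred
        have key : ∀ x y : ZMod 8, x ^ 2 + y ^ 2 ≠ 3 ∧ x ^ 2 + y ^ 2 ≠ 7 := by decide
        rcases hz with hz | hz
        · exact (key _ _).1 (hred.trans hz)
        · exact (key _ _).2 (hred.trans hz)
      · rw [pow_one] at hred
        have key : ∀ x y : ZMod 8, x ^ 2 + y ^ 2 ≠ 2 * 3 ∧ x ^ 2 + y ^ 2 ≠ 2 * 7 := by decide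
        rcases hz with hz | hz
        · exact (key _ _).1 (by rw [hred, hz])
        · exact (key _ _).2 (by rw [hred, hz])
    · obtain ⟨f, rfl⟩ : ∃ f, e = f + 2 := ⟨e - 2, by omega⟩
      have key : ∀ x y w : ZMod 8, x ^ 2 + y ^ 2 = 4 * w → 4 * x = 0 ∧ 4 * y = 0 := by decide
      have h1 : red r ^ 2 + red s ^ 2 = 4 * (2 ^ f * red z) := by
        rw [hred, pow_add]; ring
      obtain ⟨hr, hs⟩ := key _ _ _ h1
      obtain ⟨r', rfl⟩ := two_dvd_of hr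
      obtain ⟨s', rfl⟩ := two_dvd_of hs
      apply ih f (by omega) r' s'
      have h40 : (4 : ℤ_[2]) ≠ 0 := by norm_num
      apply mul_left_cancel₀ h40
      have : (2 * r') ^ 2 + (2 * s') ^ 2 = 2 ^ (f + 2) * z := h
      calc 4 * (r' ^ 2 + s' ^ 2) = (2 * r') ^ 2 + (2 * s') ^ 2 := by ring
        _ = 2 ^ (f + 2) * z := this
        _ = 4 * (2 ^ f * z) := by rw [pow_add]; ring

/-- clearing denominators -/
theorem exists_int (R : ℚ_[2]) : ∃ j : ℕ, ∀ i ≥ j, ∃ r : ℤ_[2], (r : ℚ_[2]) = 2 ^ i * R := by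
  obtain ⟨j, hj⟩ : ∃ j : ℕ, ‖R‖ ≤ 2 ^ j := by
    obtain ⟨j, hj⟩ := pow_unbounded_of_one_lt ‖R‖ (one_lt_two)
    exact ⟨j, hj.le⟩
  refine ⟨j, fun i hi => ?_⟩
  have hn : ‖(2 : ℚ_[2]) ^ i * R‖ ≤ 1 := by
    rw [norm_mul, norm_pow]
    have h2 : ‖(2 : ℚ_[2])‖ = 2⁻¹ := by
      have := Padic.norm_p (p := 2)
      simpa using this
    rw [h2]
    have h3 : ‖R‖ ≤ 2 ^ i := hj.trans (pow_le_pow_right₀ (by norm_num) hi)
    have h4 : (0 : ℝ) < 2 ^ i := by positivity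
    rw [inv_pow, inv_mul_le_iff₀ h4, mul_one]
    exact h3
  exact ⟨⟨_, hn⟩, rfl⟩

/-- `2^e z` with `z ≡ 3 mod 4` is not a sum of two squares in `ℚ₂`. -/
theorem not_sum (z : ℤ_[2]) (hz : red z = 3 ∨ red z = 7) (e : ℕ) (R S : ℚ_[2]) :
    R ^ 2 + S ^ 2 ≠ ((2 ^ e * z : ℤ_[2]) : ℚ_[2]) := by
  intro h
  obtain ⟨j1, h1⟩ := exists_int R
  obtain ⟨j2, h2⟩ := exists_int S
  obtain ⟨r, hr⟩ := h1 (max j1 j2) (le_max_left _ _)
  obtain ⟨s, hs⟩ := h2 (max j1 j2) (le_max_right _ _)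
  set i := max j1 j2
  apply not_sum_int z hz (2 * i + e) r s
  apply Subtype.coe_injective
  push_cast
  rw [hr, hs]
  have h' : R ^ 2 + S ^ 2 = 2 ^ e * (z : ℚ_[2]) := by rw [h]; push_cast; rfl
  calc (2 ^ i * R) ^ 2 + (2 ^ i * S) ^ 2 = 2 ^ (2 * i) * (R ^ 2 + S ^ 2) := by ring
    _ = 2 ^ (2 * i + e) * (z : ℚ_[2]) := by rw [h', pow_add]; ring

/-- the 2-adic root -/
theorem exists_theta (c : ℤ) : ∃ t : ℤ_[2],
    (8 * t) ^ 3 + 2 * (8 * t) ^ 2 + 3 * (8 * t) + 8 * (c : ℤ_[2]) = 0 := by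
  -- solve `64 t³ + 16 t² + 3 t + c = 0`
  set F : Polynomial ℤ_[2] := 64 * Polynomial.X ^ 3 + 16 * Polynomial.X ^ 2 + 3 * Polynomial.X +
    Polynomial.C (c : ℤ_[2]) with hF
  -- starting value: `c` (since `3 c + c = 4 c`)
  have hd : F.derivative.aeval (c : ℤ_[2]) = 192 * (c : ℤ_[2]) ^ 2 + 32 * c + 3 := by
    rw [hF]
    simp
    ring
  have hu : ‖F.derivative.aeval (c : ℤ_[2])‖ = 1 := by
    rw [hd]
    by_contra hne
    have hlt : ‖192 * (c : ℤ_[2]) ^ 2 + 32 * c + 3‖ < 1 :=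
      lt_of_le_of_ne (PadicInt.norm_le_one _) hne
    rw [PadicInt.norm_lt_one_iff_dvd] at hlt
    obtain ⟨y, hy⟩ := hlt
    have h1 : red (192 * (c : ℤ_[2]) ^ 2 + 32 * c + 3) = 2 * red y := by
      rw [hy, map_mul, red_natCast]; norm_num
    have hc : ∃ m : ZMod 8, red (c : ℤ_[2]) = m := ⟨_, rfl⟩
    obtain ⟨m, hm⟩ := hc
    rw [map_add, map_add, map_mul, map_mul, map_pow, hm] at h1
    have h192 : red 192 = 192 := by simpa using red_natCast 192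
    have h32 : red 32 = 32 := by simpa using red_natCast 32
    have h3 : red 3 = 3 := by simpa using red_natCast 3
    rw [h192, h32, h3] at h1
    have key : ∀ m y : ZMod 8, 192 * m ^ 2 + 32 * m + 3 ≠ 2 * y := by decide
    exact key _ _ h1
  have he : F.aeval (c : ℤ_[2]) = 64 * (c : ℤ_[2]) ^ 3 + 16 * (c : ℤ_[2]) ^ 2 + 3 * c + c := by
    rw [hF]; simp
  have hlt : ‖F.aeval (c : ℤ_[2])‖ < ‖F.derivative.aeval (c : ℤ_[2])‖ ^ 2 := by
    rw [hu, one_pow, he, PadicInt.norm_lt_one_iff_dvd]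
    refine ⟨32 * (c : ℤ_[2]) ^ 3 + 8 * (c : ℤ_[2]) ^ 2 + 2 * c, ?_⟩
    push_cast; ring
  obtain ⟨t, ht, _⟩ := hensels_lemma hlt
  refine ⟨t, ?_⟩
  have : F.aeval t = 64 * t ^ 3 + 16 * t ^ 2 + 3 * t + c := by
    rw [hF]; simp
  rw [this] at ht
  linear_combination 8 * ht

/-- the obstruction -/
theorem obstruction {c k : ℤ} {t : ℤ_[2]}
    (ht : (8 * t) ^ 3 + 2 * (8 * t) ^ 2 + 3 * (8 * t) + 8 * (c : ℤ_[2]) = 0)
    (hne : (k : ℤ_[2]) ≠ 8 * t) {R S R' S' : ℚ_[2]}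
    (h1 : R ^ 2 + S ^ 2 = (((k : ℤ_[2]) - 8 * t : ℤ_[2]) : ℚ_[2]))
    (h2 : R' ^ 2 + S' ^ 2 =
      (((k : ℤ_[2]) ^ 3 + 2 * (k : ℤ_[2]) ^ 2 + 3 * (k : ℤ_[2]) + 8 * (c : ℤ_[2]) : ℤ_[2]) : ℚ_[2])) :
    False := by
  set κ : ℤ_[2] := (k : ℤ_[2]) - 8 * t with hκ
  have hκ0 : κ ≠ 0 := sub_ne_zero.mpr hne
  have hk : (k : ℤ_[2]) = κ + 8 * t := by rw [hκ]; ring
  have hp : (k : ℤ_[2]) ^ 3 + 2 * (k : ℤ_[2]) ^ 2 + 3 * (k : ℤ_[2]) + 8 * (c : ℤ_[2]) =
      κ * (κ ^ 2 + (2 + 24 * t) * κ + 3 + 32 * t + 192 * t ^ 2) := by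
    rw [hk]; linear_combination ht
  rw [hp] at h2
  have hspec := PadicInt.unitCoeff_spec hκ0
  set u : ℤ_[2]ˣ := PadicInt.unitCoeff hκ0 with hu
  set e : ℕ := κ.valuation with he
  have hspec' : κ = 2 ^ e * (u : ℤ_[2]) := by
    rw [hspec]; push_cast; ring
  -- the unit is odd
  have hodd : red (u : ℤ_[2]) = 1 ∨ red (u : ℤ_[2]) = 3 ∨ red (u : ℤ_[2]) = 5 ∨
      red (u : ℤ_[2]) = 7 := by
    have hmul : red (u : ℤ_[2]) * red ((u⁻¹ : ℤ_[2]ˣ) : ℤ_[2]) = 1 := by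
      rw [← map_mul, Units.mul_inv, map_one]
    have key : ∀ x y : ZMod 8, x * y = 1 → x = 1 ∨ x = 3 ∨ x = 5 ∨ x = 7 := by decide
    exact key _ _ hmul
  have h15 : red (u : ℤ_[2]) = 1 ∨ red (u : ℤ_[2]) = 5 := by
    rcases hodd with h | h | h | h
    · exact Or.inl h
    · exfalso
      exact not_sum (u : ℤ_[2]) (Or.inl h) e R S (by rw [h1, hspec'])
    · exact Or.inr h
    · exfalso
      exact not_sum (u : ℤ_[2]) (Or.inr h) e R S (by rw [h1, hspec'])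
  have r2 : red 2 = 2 := by simpa using red_natCast 2
  have r3 : red 3 = 3 := by simpa using red_natCast 3
  have r24 : red 24 = 24 := by simpa using red_natCast 24
  have r32 : red 32 = 32 := by simpa using red_natCast 32
  have r192 : red 192 = 192 := by simpa using red_natCast 192
  have hg : ∀ κ' : ℤ_[2], red (κ' ^ 2 + (2 + 24 * t) * κ' + 3 + 32 * t + 192 * t ^ 2) =
      red κ' ^ 2 + 2 * red κ' + 3 := by
    intro κ'
    rw [map_add, map_add, map_add, map_add, map_mul, map_mul, map_mul, map_add, map_mul, map_pow,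
      map_pow, r2, r3, r24, r32, r192]
    have key : ∀ x y : ZMod 8, x ^ 2 + (2 + 24 * y) * x + 3 + 32 * y + 192 * y ^ 2 =
      x ^ 2 + 2 * x + 3 := by decide
    exact key _ _
  rcases Nat.eq_zero_or_pos e with he0 | he0
  · -- `κ` is a unit
    have hκu : κ = (u : ℤ_[2]) := by rw [hspec', he0]; ring
    set w := κ * (κ ^ 2 + (2 + 24 * t) * κ + 3 + 32 * t + 192 * t ^ 2) with hw
    have hwr : red (w - 6) = 0 := by
      have r6 : red 6 = 6 := by simpa using red_natCast 6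
      rw [map_sub, hw, map_mul, hg, hκu, r6]
      rcases h15 with h | h <;> rw [h] <;> decide
    obtain ⟨y, hy⟩ := dvd_of_red_eq_zero hwr
    have hw2 : w = 2 ^ 1 * (3 + 4 * y) := by linear_combination hy
    have hred : red (3 + 4 * y) = 3 ∨ red (3 + 4 * y) = 7 := by
      have r4 : red 4 = 4 := by simpa using red_natCast 4
      rw [map_add, map_mul, r3, r4]
      have key : ∀ y : ZMod 8, 3 + 4 * y = 3 ∨ 3 + 4 * y = 7 := by decide
      exact key _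
    exact not_sum (3 + 4 * y) hred 1 R' S' (by rw [h2, hw2])
  · obtain ⟨f, hf⟩ : ∃ f, e = f + 1 := ⟨e - 1, by omega⟩
    have hκ2 : κ = 2 * (2 ^ f * (u : ℤ_[2])) := by rw [hspec', hf, pow_succ]; ring
    set g := κ ^ 2 + (2 + 24 * t) * κ + 3 + 32 * t + 192 * t ^ 2 with hgdef
    have hgr : red g = 3 := by
      rw [hgdef, hg, hκ2, map_mul, r2]
      have key : ∀ x : ZMod 8, (2 * x) ^ 2 + 2 * (2 * x) + 3 = 3 := by decide
      exact key _
    have hug : red ((u : ℤ_[2]) * g) = 3 ∨ red ((u : ℤ_[2]) * g) = 7 := by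
      rw [map_mul, hgr]
      rcases h15 with h | h <;> rw [h]
      · left; decide
      · right; decide
    apply not_sum ((u : ℤ_[2]) * g) hug e R' S'
    rw [h2]
    have hfin : κ * g = 2 ^ e * ((u : ℤ_[2]) * g) :=
      (congrArg (· * g) hspec').trans (mul_assoc _ _ _)
    rw [hfin]

end Q254Cubic
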