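import Mathlib
import Pool.Agent.Q254.CubicPadic

/-!
# `p(q₀(x)) = q₁(x)² + q₂(x)²` with `p` a monic cubic and `q₀` quadratic

Algebraic part: if `p(a y² + c) = q₁(y)² + q₂(y)²` and `p` has no rational root, then
`p(a Y + c) = a³ (Y (Y + μ)² + (l Y + σ)²)` for rational `μ, l, σ`, and `a` is a sum of two
rational squares.
-/

set_option autoImplicit false

open Polynomial

namespace Q254Cubic

section coeffs
variable {a c d A0 A1 A2 A3 B0 B1 B2 B3 : ℚ}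

theorem coeffs (H : ∀ y : ℚ, (a * y ^ 2 + c) ^ 3 + 2 * (a * y ^ 2 + c) ^ 2 + 3 * (a * y ^ 2 + c) + d
      = (A3 * y ^ 3 + A2 * y ^ 2 + A1 * y + A0) ^ 2 + (B3 * y ^ 3 + B2 * y ^ 2 + B1 * y + B0) ^ 2) :
    a ^ 3 = A3 ^ 2 + B3 ^ 2 ∧
    3 * a ^ 2 * c + 2 * a ^ 2 = A2 ^ 2 + 2 * A3 * A1 + B2 ^ 2 + 2 * B3 * B1 ∧
    3 * a * c ^ 2 + 4 * a * c + 3 * a = A1 ^ 2 + 2 * A2 * A0 + B1 ^ 2 + 2 * B2 * B0 ∧
    c ^ 3 + 2 * c ^ 2 + 3 * c + d = A0 ^ 2 + B0 ^ 2 ∧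
    A3 * A2 + B3 * B2 = 0 ∧ A3 * A0 + A2 * A1 + B3 * B0 + B2 * B1 = 0 ∧
    A1 * A0 + B1 * B0 = 0 := by
  have H0 := H 0
  have H1 := H 1
  have H2 := H 2
  have H3 := H 3
  have H1' := H (-1)
  have H2' := H (-2)
  have H3' := H (-3)
  refine ⟨?_, ?_, ?_, ?_, ?_, ?_, ?_⟩
  · linear_combination (1 / 24) * ((H1 + H1') / 2 - H0) - (1 / 60) * ((H2 + H2') / 2 - H0) +
      (1 / 360) * ((H3 + H3') / 2 - H0)
  · linear_combination (-13 / 24) * ((H1 + H1') / 2 - H0) + (1 / 6) * ((H2 + H2') / 2 - H0) -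
      (1 / 72) * ((H3 + H3') / 2 - H0)
  · linear_combination (3 / 2) * ((H1 + H1') / 2 - H0) - (3 / 20) * ((H2 + H2') / 2 - H0) +
      (1 / 90) * ((H3 + H3') / 2 - H0)
  · linear_combination H0
  · linear_combination (-1 / 2) * ((1 / 24) * ((H1 - H1') / 2) - (1 / 30) * ((H2 - H2') / 2) +
      (1 / 120) * ((H3 - H3') / 2))
  · linear_combination (-1 / 2) * ((-13 / 24) * ((H1 - H1') / 2) + (1 / 3) * ((H2 - H2') / 2) -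
      (1 / 24) * ((H3 - H3') / 2))
  · linear_combination (-1 / 2) * ((3 / 2) * ((H1 - H1') / 2) - (3 / 10) * ((H2 - H2') / 2) +
      (1 / 30) * ((H3 - H3') / 2))

theorem structure_eq (ha : a ≠ 0) (hroot : ∀ x : ℚ, x ^ 3 + 2 * x ^ 2 + 3 * x + d ≠ 0)
    (H : ∀ y : ℚ, (a * y ^ 2 + c) ^ 3 + 2 * (a * y ^ 2 + c) ^ 2 + 3 * (a * y ^ 2 + c) + d
      = (A3 * y ^ 3 + A2 * y ^ 2 + A1 * y + A0) ^ 2 + (B3 * y ^ 3 + B2 * y ^ 2 + B1 * y + B0) ^ 2) :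
    (∃ α β : ℚ, a = α ^ 2 + β ^ 2) ∧ ∃ μ l σ : ℚ,
      3 * a ^ 2 * c + 2 * a ^ 2 = a ^ 3 * (2 * μ + l ^ 2) ∧
      3 * a * c ^ 2 + 4 * a * c + 3 * a = a ^ 3 * (μ ^ 2 + 2 * l * σ) ∧
      c ^ 3 + 2 * c ^ 2 + 3 * c + d = a ^ 3 * σ ^ 2 := by
  obtain ⟨E6, E4, E2, E0, O5, O3, O1⟩ := coeffs H
  have hS : a ^ 3 ≠ 0 := pow_ne_zero 3 ha
  refine ⟨⟨A3 / a, B3 / a, ?_⟩, ?_⟩
  · field_simp
    linear_combination E6
  · -- coordinates with respect to `(A3, B3)` and `(-B3, A3)`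
    obtain ⟨l, hl1, hl2⟩ : ∃ l : ℚ, A2 = -l * B3 ∧ B2 = l * A3 := by
      refine ⟨(A3 * B2 - B3 * A2) / a ^ 3, ?_, ?_⟩
      · field_simp
        linear_combination A2 * E6 + A3 * O5
      · field_simp
        linear_combination B2 * E6 + B3 * O5
    obtain ⟨μ, ν, hm1, hm2⟩ : ∃ μ ν : ℚ, A1 = μ * A3 - ν * B3 ∧ B1 = μ * B3 + ν * A3 := by
      refine ⟨(A3 * A1 + B3 * B1) / a ^ 3, (A3 * B1 - B3 * A1) / a ^ 3, ?_, ?_⟩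
      · field_simp
        linear_combination A1 * E6
      · field_simp
        linear_combination B1 * E6
    obtain ⟨ρ, σ, hr1, hr2⟩ : ∃ ρ σ : ℚ, A0 = ρ * A3 - σ * B3 ∧ B0 = ρ * B3 + σ * A3 := by
      refine ⟨(A3 * A0 + B3 * B0) / a ^ 3, (A3 * B0 - B3 * A0) / a ^ 3, ?_, ?_⟩
      · field_simp
        linear_combination A0 * E6
      · field_simp
        linear_combination B0 * E6
    have hρ : ρ = -l * ν := by
      have : a ^ 3 * (ρ + l * ν) = 0 := by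
        rw [hl1, hl2, hm1, hm2, hr1, hr2] at O3
        linear_combination O3 + (ρ + l * ν) * E6
      have := (mul_eq_zero.mp this).resolve_left hS
      linarith
    have hν : ν * (σ - l * μ) = 0 := by
      have : a ^ 3 * (μ * ρ + ν * σ) = 0 := by
        rw [hm1, hm2, hr1, hr2] at O1
        linear_combination O1 + (μ * ρ + ν * σ) * E6
      have := (mul_eq_zero.mp this).resolve_left hS
      rw [hρ] at this
      linear_combination this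
    have F4 : 3 * a ^ 2 * c + 2 * a ^ 2 = a ^ 3 * (l ^ 2 + 2 * μ) := by
      rw [hl1, hl2, hm1, hm2] at E4
      linear_combination E4 - (l ^ 2 + 2 * μ) * E6
    have F2 : 3 * a * c ^ 2 + 4 * a * c + 3 * a = a ^ 3 * (μ ^ 2 + ν ^ 2 + 2 * l * σ) := by
      rw [hl1, hl2, hm1, hm2, hr1, hr2] at E2
      linear_combination E2 - (μ ^ 2 + ν ^ 2 + 2 * l * σ) * E6
    have F0 : c ^ 3 + 2 * c ^ 2 + 3 * c + d = a ^ 3 * (ρ ^ 2 + σ ^ 2) := by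
      rw [hr1, hr2] at E0
      linear_combination E0 - (ρ ^ 2 + σ ^ 2) * E6
    rcases mul_eq_zero.mp hν with h0 | h0
    · -- the good case
      refine ⟨μ, l, σ, ?_, ?_, ?_⟩
      · rw [F4]; ring
      · rw [F2, h0]; ring
      · rw [F0, hρ, h0]; ring
    · -- a rational root
      exfalso
      have hσ : σ = l * μ := by linarith
      apply hroot (c - a * l ^ 2)
      rw [hσ] at F2 F0
      rw [hρ] at F0
      linear_combination (l ^ 4) * F4 - l ^ 2 * F2 + F0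

end coeffs

/-- Main contradiction. -/
theorem main {c' : ℤ} (hroot : ∀ x : ℚ, x ^ 3 + 2 * x ^ 2 + 3 * x + 8 * (c' : ℚ) ≠ 0)
    {a c y0 : ℚ} (ha : a ≠ 0) {k : ℤ} (hk : a * y0 ^ 2 + c = k) {A0 A1 A2 A3 B0 B1 B2 B3 : ℚ}
    (H : ∀ y : ℚ, (a * y ^ 2 + c) ^ 3 + 2 * (a * y ^ 2 + c) ^ 2 + 3 * (a * y ^ 2 + c) + 8 * (c' : ℚ)
      = (A3 * y ^ 3 + A2 * y ^ 2 + A1 * y + A0) ^ 2 + (B3 * y ^ 3 + B2 * y ^ 2 + B1 * y + B0) ^ 2) :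
    False := by
  obtain ⟨⟨α, β, hαβ⟩, μ, l, σ, F4, F2, F0⟩ := structure_eq ha hroot H
  obtain ⟨t, ht⟩ := exists_theta c'
  -- cast everything to `ℚ₂`
  have ha' : (a : ℚ_[2]) ≠ 0 := by exact_mod_cast ha
  have F4' : 3 * (a : ℚ_[2]) ^ 2 * c + 2 * (a : ℚ_[2]) ^ 2 = (a : ℚ_[2]) ^ 3 * (2 * μ + (l : ℚ_[2]) ^ 2) := by
    exact_mod_cast F4
  have F2' : 3 * (a : ℚ_[2]) * (c : ℚ_[2]) ^ 2 + 4 * (a : ℚ_[2]) * c + 3 * (a : ℚ_[2]) =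
      (a : ℚ_[2]) ^ 3 * ((μ : ℚ_[2]) ^ 2 + 2 * l * σ) := by
    exact_mod_cast F2
  have F0' : (c : ℚ_[2]) ^ 3 + 2 * (c : ℚ_[2]) ^ 2 + 3 * (c : ℚ_[2]) + 8 * ((c' : ℚ) : ℚ_[2]) =
      (a : ℚ_[2]) ^ 3 * (σ : ℚ_[2]) ^ 2 := by
    exact_mod_cast F0
  have hαβ' : (a : ℚ_[2]) = (α : ℚ_[2]) ^ 2 + (β : ℚ_[2]) ^ 2 := by exact_mod_cast hαβ
  set θ : ℚ_[2] := ((8 * t : ℤ_[2]) : ℚ_[2]) with hθ
  have htheta : θ ^ 3 + 2 * θ ^ 2 + 3 * θ + 8 * ((c' : ℚ) : ℚ_[2]) = 0 := by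
    have h8 : (((8 * t) ^ 3 + 2 * (8 * t) ^ 2 + 3 * (8 * t) + 8 * (c' : ℤ_[2]) : ℤ_[2]) : ℚ_[2]) =
        ((0 : ℤ_[2]) : ℚ_[2]) := by rw [ht]
    push_cast at h8
    rw [hθ]
    push_cast
    exact h8
  set Y : ℚ_[2] := (θ - c) / a with hY
  have hθY : θ = a * Y + c := by rw [hY]; field_simp; ring
  have hid : (a : ℚ_[2]) ^ 3 * (Y * (Y + μ) ^ 2 + (l * Y + σ) ^ 2) = 0 := by
    rw [hθY] at htheta
    linear_combination htheta - Y ^ 2 * F4' - Y * F2' - F0'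
  have hid2 := (mul_eq_zero.mp hid).resolve_left (pow_ne_zero 3 ha')
  -- `θ` is not rational
  have hnorat : ∀ x : ℚ, θ ≠ (x : ℚ_[2]) := by
    intro x hx
    rw [hx] at htheta
    apply hroot x
    exact_mod_cast htheta
  have hYμ : Y + μ ≠ 0 := by
    intro h0
    apply hnorat (c - a * μ)
    have : Y = -μ := by linear_combination h0
    rw [hθY, this]
    push_cast; ring
  set m : ℚ_[2] := (l * Y + σ) / (Y + μ) with hm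
  have hm2 : -Y = m ^ 2 := by
    rw [hm]
    field_simp
    linear_combination -hid2
  have hkQ : ((k : ℤ_[2]) : ℚ_[2]) = a * (y0 : ℚ_[2]) ^ 2 + c := by
    have : ((k : ℤ_[2]) : ℚ_[2]) = ((k : ℚ) : ℚ_[2]) := by push_cast; rfl
    rw [this, ← hk]
    push_cast; rfl
  have h1 : (α * y0 - β * m) ^ 2 + (α * m + β * y0) ^ 2 =
      (((k : ℤ_[2]) - 8 * t : ℤ_[2]) : ℚ_[2]) := by
    have e1 : (((k : ℤ_[2]) - 8 * t : ℤ_[2]) : ℚ_[2]) = ((k : ℤ_[2]) : ℚ_[2]) - θ := by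
      rw [hθ]; push_cast; rfl
    rw [e1, hkQ, hθY]
    linear_combination (-((y0 : ℚ_[2]) ^ 2 + m ^ 2)) * hαβ' - (a : ℚ_[2]) * hm2
  have h2 : ((A3 * y0 ^ 3 + A2 * y0 ^ 2 + A1 * y0 + A0 : ℚ) : ℚ_[2]) ^ 2 +
      ((B3 * y0 ^ 3 + B2 * y0 ^ 2 + B1 * y0 + B0 : ℚ) : ℚ_[2]) ^ 2 =
      (((k : ℤ_[2]) ^ 3 + 2 * (k : ℤ_[2]) ^ 2 + 3 * (k : ℤ_[2]) + 8 * (c' : ℤ_[2]) : ℤ_[2]) : ℚ_[2]) := by
    have hH := H y0
    rw [hk] at hH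
    have e2 : (((k : ℤ_[2]) ^ 3 + 2 * (k : ℤ_[2]) ^ 2 + 3 * (k : ℤ_[2]) + 8 * (c' : ℤ_[2]) : ℤ_[2])
        : ℚ_[2]) = (((k : ℚ) ^ 3 + 2 * (k : ℚ) ^ 2 + 3 * (k : ℚ) + 8 * (c' : ℚ) : ℚ) : ℚ_[2]) := by
      push_cast; rfl
    rw [e2, hH]
    push_cast; rfl
  have hne : (k : ℤ_[2]) ≠ 8 * t := by
    intro h0
    apply hnorat k
    rw [hθ, ← h0]
    push_cast; rfl
  exact obstruction ht hne h1 h2

end Q254Cubic
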