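import Mathlib
import Pool.Agent.Q254.CubicAlg

set_option autoImplicit false

open Polynomial

namespace Q254Cubic

/-- the cubic `x³ + 2x² + 3x + 8c` -/
noncomputable def pc (c : ℤ) : ℤ[X] := X ^ 3 + 2 * X ^ 2 + 3 * X + C (8 * c)

theorem pc_monic (c : ℤ) : (pc c).Monic := by
  unfold pc
  monicity!

theorem pc_natDegree (c : ℤ) : (pc c).natDegree = 3 := by
  unfold pc
  compute_degree!

theorem pc_map_eval (c : ℤ) (x : ℚ) :
    ((pc c).map (Int.castRingHom ℚ)).eval x = x ^ 3 + 2 * x ^ 2 + 3 * x + 8 * (c : ℚ) := by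
  unfold pc
  simp

theorem pc_noroot {c : ℤ} (hirr : Irreducible (pc c)) (x : ℚ) :
    x ^ 3 + 2 * x ^ 2 + 3 * x + 8 * (c : ℚ) ≠ 0 := by
  intro hx
  have hI : Irreducible ((pc c).map (algebraMap ℤ ℚ)) :=
    (Polynomial.Monic.irreducible_iff_irreducible_map_fraction_map (pc_monic c)).mp hirr
  have hroot : ((pc c).map (algebraMap ℤ ℚ)).IsRoot x := by
    rw [IsRoot.def]
    have := pc_map_eval c x
    rw [hx] at this
    exact this
  have hdeg := degree_eq_one_of_irreducible_of_root hI hroot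
  have hnat : ((pc c).map (algebraMap ℤ ℚ)).natDegree = 1 := natDegree_eq_of_degree_eq_some hdeg
  rw [(pc_monic c).natDegree_map, pc_natDegree] at hnat
  omega

theorem natDegree_le_three {F q1 q2 : ℚ[X]} (hF : F.natDegree ≤ 6) (h : F = q1 ^ 2 + q2 ^ 2) :
    q1.natDegree ≤ 3 ∧ q2.natDegree ≤ 3 := by
  by_contra hcon
  set d := max q1.natDegree q2.natDegree with hd
  have h1 : q1.natDegree ≤ d := le_max_left _ _
  have h2 : q2.natDegree ≤ d := le_max_right _ _
  have hd4 : 4 ≤ d := by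
    by_contra hlt
    exact hcon ⟨by omega, by omega⟩
  have c1 : (q1 ^ 2).coeff (2 * d) = q1.coeff d ^ 2 := coeff_pow_of_natDegree_le h1
  have c2 : (q2 ^ 2).coeff (2 * d) = q2.coeff d ^ 2 := coeff_pow_of_natDegree_le h2
  have hz : F.coeff (2 * d) = 0 := coeff_eq_zero_of_natDegree_lt (by omega)
  rw [h, coeff_add, c1, c2] at hz
  have z1 : q1.coeff d = 0 := by nlinarith [sq_nonneg (q1.coeff d), sq_nonneg (q2.coeff d)]
  have z2 : q2.coeff d = 0 := by nlinarith [sq_nonneg (q1.coeff d), sq_nonneg (q2.coeff d)]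
  rcases max_choice q1.natDegree q2.natDegree with hm | hm
  · have hdd : q1.natDegree = d := by rw [hd, hm]
    rw [← hdd] at z1
    have : q1 = 0 := leadingCoeff_eq_zero.mp z1
    rw [this] at hdd
    simp at hdd
    omega
  · have hdd : q2.natDegree = d := by rw [hd, hm]
    rw [← hdd] at z2
    have : q2 = 0 := leadingCoeff_eq_zero.mp z2
    rw [this] at hdd
    simp at hdd
    omega

theorem eval_cubic {q : ℚ[X]} (h : q.natDegree ≤ 3) (x : ℚ) :
    q.eval x = q.coeff 3 * x ^ 3 + q.coeff 2 * x ^ 2 + q.coeff 1 * x + q.coeff 0 := by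
  rw [eval_eq_sum_range' (show q.natDegree < 4 by omega)]
  simp [Finset.sum_range_succ]
  ring

theorem no_identity {c : ℤ} (hirr : Irreducible (pc c)) (q0 q1 q2 : ℚ[X])
    (h0 : q0.natDegree = 2) (hint : ∃ (x : ℚ) (k : ℤ), q0.eval x = k) :
    ((pc c).map (Int.castRingHom ℚ)).comp q0 ≠ q1 ^ 2 + q2 ^ 2 := by
  intro h
  obtain ⟨x0, k, hk⟩ := hint
  have hdeg : (((pc c).map (Int.castRingHom ℚ)).comp q0).natDegree ≤ 6 := by
    rw [natDegree_comp, (pc_monic c).natDegree_map, pc_natDegree, h0]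
  obtain ⟨d1, d2⟩ := natDegree_le_three hdeg h
  set a := q0.coeff 2 with ha
  set b := q0.coeff 1 with hb
  set c0 := q0.coeff 0 with hc0
  have ha0 : a ≠ 0 := by
    have hne : q0 ≠ 0 := by
      rintro rfl; simp at h0
    have : q0.leadingCoeff ≠ 0 := leadingCoeff_ne_zero.mpr hne
    rw [leadingCoeff, h0] at this
    exact this
  have hq0 : ∀ x : ℚ, q0.eval x = a * x ^ 2 + b * x + c0 := by
    intro x
    rw [eval_eq_sum_range' (show q0.natDegree < 3 by omega)]
    simp [Finset.sum_range_succ]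
    ring
  set Q1 := q1.comp (X - C (b / (2 * a))) with hQ1
  set Q2 := q2.comp (X - C (b / (2 * a))) with hQ2
  have D1 : Q1.natDegree ≤ 3 := by
    rw [hQ1, natDegree_comp, natDegree_X_sub_C]; omega
  have D2 : Q2.natDegree ≤ 3 := by
    rw [hQ2, natDegree_comp, natDegree_X_sub_C]; omega
  have hshift : ∀ y : ℚ, a * (y - b / (2 * a)) ^ 2 + b * (y - b / (2 * a)) + c0 =
      a * y ^ 2 + (c0 - b ^ 2 / (4 * a)) := by
    intro y
    field_simp
    ring
  refine main (c' := c) (pc_noroot hirr) (a := a) (c := c0 - b ^ 2 / (4 * a))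
    (y0 := x0 + b / (2 * a)) ha0 (k := k) ?_
    (A0 := Q1.coeff 0) (A1 := Q1.coeff 1) (A2 := Q1.coeff 2) (A3 := Q1.coeff 3)
    (B0 := Q2.coeff 0) (B1 := Q2.coeff 1) (B2 := Q2.coeff 2) (B3 := Q2.coeff 3) ?_
  · rw [← hshift, ← hk, hq0]; ring
  · intro y
    rw [← eval_cubic D1, ← eval_cubic D2, ← hshift y]
    have he := congrArg (fun f : ℚ[X] => f.eval (y - b / (2 * a))) h
    simp only [eval_comp, eval_add, eval_pow] at he
    rw [pc_map_eval, hq0] at he
    rw [he, hQ1, hQ2, eval_comp, eval_comp]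
    simp

theorem pc_one_irreducible : Irreducible (pc 1) := by
  rw [(pc_monic 1).irreducible_iff_roots_eq_zero_of_degree_le_three
    (by rw [pc_natDegree]; norm_num) (by rw [pc_natDegree])]
  rw [Multiset.eq_zero_iff_forall_notMem]
  intro x hx
  have hroot := isRoot_of_mem_roots hx
  rw [IsRoot.def] at hroot
  have he : x ^ 3 + 2 * x ^ 2 + 3 * x + 8 = 0 := by
    unfold pc at hroot
    simpa using hroot
  have h1 : x < 0 := by
    by_contra hge
    push Not at hge
    have : 0 ≤ x ^ 3 := by positivity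
    nlinarith [sq_nonneg x]
  have h2 : -3 < x := by
    by_contra hle
    push Not at hle
    have h3 : x * (x ^ 2 + 2 * x + 3) = -8 := by linarith
    have h4 : 6 ≤ x ^ 2 + 2 * x + 3 := by nlinarith
    nlinarith
  interval_cases x <;> omega

end Q254Cubic
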