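import Mathlib

/-!
# Stern polynomials at prime indices are irreducible

`B 0 = 0`, `B 1 = 1`, `B (2n) = X * B n`, `B (2n+1) = B n + B (n+1)` for `n ≥ 1`.

1. `B n` (`n ≥ 1`) has no complex zero `t` with `Re t ≥ 3/2`.  Put `ε = 1/t = c² + i k`.
   For neighbours `a = B n t`, `b = B (n+1) t` with sum `s = B (2n+1) t` follow `x = a / s`;
   the two steps of the recursion send `x` to `1 - T x` and `T (1 - x)`, where
   `T x = ε / (ε + x)`.  An explicit box `Q` with `T²(Q) ⊆ Q`, `T(1 - Q) ⊆ Q` and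
   `T²(1 - Q) ⊆ Q` keeps `s ≠ 0` for ever.
2. `B n (2) = n`.  If `p` is a prime and `B p = f g` over `ℤ`, one factor, say `f`, has
   `|f 2| = 1`; all zeros `z` of `f` have `Re z < 3/2`, i.e. `|2 - z| > |1 - z|`, so `f`
   nonconstant would give `1 = |f 2| > |f 1| ≥ 1`.
-/

set_option autoImplicit false

open Polynomial Complex

namespace Q254Stern

theorem pg1 {c : ℝ} (h0 : 0 ≤ c) (h1 : 0 ≤ 49/60 - c) :
    0 ≤ (8867/25000)*c^0 + (-1351/5000)*c^1 + (-2293/3000)*c^2 + (2579/1200)*c^3 + (-29/40)*c^4 := by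
  have e : (8867/25000)*c^0 + (-1351/5000)*c^1 + (-2293/3000)*c^2 + (2579/1200)*c^3 + (-29/40)*c^4 =
    (275799168/282475249)*(c^0*(49/60-c)^5) + (1207408032/282475249)*(c^1*(49/60-c)^4) + (1675244952/282475249)*(c^2*(49/60-c)^3) + (1449528657/282475249)*(c^3*(49/60-c)^2) + (2146379805/564950498)*(c^4*(49/60-c)^1) + (734594667/564950498)*(c^5*(49/60-c)^0) := by ring
  rw [e]; positivity

theorem pg2 {c : ℝ} (h0 : 0 ≤ c) (h1 : 0 ≤ 49/60 - c) :
    0 ≤ (249/3125)*c^0 + (-351/5000)*c^1 + (-343/3000)*c^2 + (1139/1200)*c^3 + (11/40)*c^4 := by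
  have e : (249/3125)*c^0 + (-351/5000)*c^1 + (-343/3000)*c^2 + (1139/1200)*c^3 + (11/40)*c^4 =
    (61959168/282475249)*(c^0*(49/60-c)^5) + (265216032/282475249)*(c^1*(49/60-c)^4) + (381977352/282475249)*(c^2*(49/60-c)^3) + (576234177/282475249)*(c^3*(49/60-c)^2) + (1705447605/564950498)*(c^4*(49/60-c)^1) + (910420227/564950498)*(c^5*(49/60-c)^0) := by ring
  rw [e]; positivity

theorem pA {c : ℝ} (h0 : 0 ≤ c) (h1 : 0 ≤ 49/60 - c) :
    0 ≤ (67/1200)*c^0 + (17/20)*c^1 + (73/20)*c^2 + 2*c^3 + 4*c^4 := by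
  have e : (67/1200)*c^0 + (17/20)*c^1 + (73/20)*c^2 + 2*c^3 + 4*c^4 =
    (723600/5764801)*(c^0*(49/60-c)^4) + (11890800/5764801)*(c^1*(49/60-c)^3) + (62879940/5764801)*(c^2*(49/60-c)^2) + (107099760/5764801)*(c^3*(49/60-c)^1) + (78446224/5764801)*(c^4*(49/60-c)^0) := by ring
  rw [e]; positivity

theorem pB {c : ℝ} (h0 : 0 ≤ c) (h1 : 0 ≤ 49/60 - c) :
    0 ≤ (152881/640000)*c^0 + (-1173/16000)*c^1 + (-30557/48000)*c^2 + (97/200)*c^3 + (-119/1600)*c^4 + (1/40)*c^5 + (1/4)*c^6 := by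
  have e : (152881/640000)*c^0 + (-1173/16000)*c^1 + (-30557/48000)*c^2 + (97/200)*c^3 + (-119/1600)*c^4 + (1/40)*c^5 + (1/4)*c^6 =
    (11145024900/13841287201)*(c^0*(49/60-c)^6) + (64076767200/13841287201)*(c^1*(49/60-c)^5) + (133399276110/13841287201)*(c^2*(49/60-c)^4) + (128054839680/13841287201)*(c^3*(49/60-c)^3) + (223270541649/55365148804)*(c^4*(49/60-c)^2) + (7977882498/13841287201)*(c^5*(49/60-c)^1) + (3207874756/13841287201)*(c^6*(49/60-c)^0) := by ring
  rw [e]; positivity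

theorem pC {c : ℝ} (h0 : 0 ≤ c) (h1 : 0 ≤ 49/60 - c) :
    0 ≤ (10659/62500)*c^0 + (-1002/3125)*c^1 + (588/3125)*c^2 + (-198/625)*c^3 + (37/1250)*c^4 + (-27/25)*c^5 + (108/25)*c^6 := by
  have e : (10659/62500)*c^0 + (-1002/3125)*c^1 + (588/3125)*c^2 + (-198/625)*c^3 + (37/1250)*c^4 + (-27/25)*c^5 + (108/25)*c^6 =
    (1718690586624000/1628413597910449)*(c^0*(49/60-c)^9) + (12829310115840000/1628413597910449)*(c^1*(49/60-c)^8) + (42026292722073600/1628413597910449)*(c^2*(49/60-c)^7) + (11084921404416000/232630513987207)*(c^3*(49/60-c)^6) + (12147656084052480/232630513987207)*(c^4*(49/60-c)^5) + (6674430998764800/232630513987207)*(c^5*(49/60-c)^4) + (643404650146560/232630513987207)*(c^6*(49/60-c)^3) + (4808899163439360/1628413597910449)*(c^7*(49/60-c)^2) + (16371321275439360/1628413597910449)*(c^8*(49/60-c)^1) + (7700053621985280/1628413597910449)*(c^9*(49/60-c)^0) := by ring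
  rw [e]; positivity

/-! ## Real inequalities -/

section ineq
variable {c k : ℝ}

theorem c_le (h0 : 0 < c) (hk : k ^ 2 ≤ 2 / 3 * c ^ 2 - c ^ 4) : 0 ≤ 49 / 60 - c := by
  by_contra h
  push Not at h
  have h1 : c ^ 4 ≤ 2 / 3 * c ^ 2 := by nlinarith [sq_nonneg k]
  have h2 : 0 < c ^ 2 := by positivity
  have h3 : c ^ 2 ≤ 2 / 3 := by
    by_contra h3
    push Not at h3
    nlinarith
  nlinarith

/-- `|k| ≤ (49/60) c - (5/8) c³` -/
theorem kap1 (h0 : 0 < c) (hk : k ^ 2 ≤ 2 / 3 * c ^ 2 - c ^ 4) :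
    |k| ≤ 49 / 60 * c - 5 / 8 * c ^ 3 := by
  have h1 : |k| ^ 2 ≤ 2 / 3 * c ^ 2 - c ^ 4 := by rwa [sq_abs]
  have h2 : 2 * |k| * (4 / 5 * c) ≤ |k| ^ 2 + (4 / 5 * c) ^ 2 := two_mul_le_add_sq _ _
  have h3 : (8 / 5 * c) * |k| ≤ (8 / 5 * c) * (49 / 60 * c - 5 / 8 * c ^ 3) := by nlinarith
  exact le_of_mul_le_mul_left h3 (by positivity)

theorem kap2 (hk : k ^ 2 ≤ 2 / 3 * c ^ 2 - c ^ 4) :
    |k| ≤ 1 / 6 + c ^ 2 - 3 / 2 * c ^ 4 := by
  have h1 : |k| ^ 2 ≤ 2 / 3 * c ^ 2 - c ^ 4 := by rwa [sq_abs]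
  nlinarith [sq_nonneg (|k| - 1 / 3)]

/-- upper bound for the real part of `1 - 1/y` -/
theorem up1 (h0 : 0 < c) (hk : k ^ 2 ≤ 2 / 3 * c ^ 2 - c ^ 4) {R I : ℝ}
    (hR1 : 1 - c + c ^ 2 ≤ R) (hR2 : R ≤ 2 + c + c ^ 2) (hI : |I| ≤ 18 / 25 + |k|) :
    (17 / 40 - c / 4) * (R ^ 2 + I ^ 2) ≤ R := by
  have hc := c_le h0 hk
  have hb : 0 ≤ 17 / 40 - c / 4 := by nlinarith
  have hk1 := kap1 h0 hk
  have hI2 : I ^ 2 ≤ (2 / 3 * c ^ 2 - c ^ 4) + 2 * (18 / 25) * (49 / 60 * c - 5 / 8 * c ^ 3)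
      + (18 / 25) ^ 2 := by
    have h1 : |I| ^ 2 ≤ (18 / 25 + |k|) ^ 2 := by
      apply pow_le_pow_left₀ (abs_nonneg _) hI
    rw [sq_abs] at h1
    have h2 : |k| ^ 2 = k ^ 2 := sq_abs k
    nlinarith
  set J := (2 / 3 * c ^ 2 - c ^ 4) + 2 * (18 / 25) * (49 / 60 * c - 5 / 8 * c ^ 3)
      + (18 / 25) ^ 2 with hJ
  have g1 := pg1 h0.le hc
  have g2 := pg2 h0.le hc
  have g1' : 0 ≤ (1 - c + c ^ 2) - (17 / 40 - c / 4) * ((1 - c + c ^ 2) ^ 2 + J) := by
    have e : (1 - c + c ^ 2) - (17 / 40 - c / 4) * ((1 - c + c ^ 2) ^ 2 + J) =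
      (8867/25000)*c^0 + (-1351/5000)*c^1 + (-2293/3000)*c^2 + (2579/1200)*c^3 + (-29/40)*c^4 := by
      rw [hJ]; ring
    rw [e]; exact g1
  have g2' : 0 ≤ (2 + c + c ^ 2) - (17 / 40 - c / 4) * ((2 + c + c ^ 2) ^ 2 + J) := by
    have e : (2 + c + c ^ 2) - (17 / 40 - c / 4) * ((2 + c + c ^ 2) ^ 2 + J) =
      (249/3125)*c^0 + (-351/5000)*c^1 + (-343/3000)*c^2 + (1139/1200)*c^3 + (11/40)*c^4 := by
      rw [hJ]; ring
    rw [e]; exact g2
  have a1 : 0 ≤ R - (1 - c + c ^ 2) := by linarith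
  have a2 : 0 ≤ (2 + c + c ^ 2) - R := by linarith
  have key : 0 ≤ (1 + 2 * c) * (R - (17 / 40 - c / 4) * (R ^ 2 + J)) := by
    have e : (1 + 2 * c) * (R - (17 / 40 - c / 4) * (R ^ 2 + J)) =
      ((2 + c + c ^ 2) - R) * ((1 - c + c ^ 2) - (17 / 40 - c / 4) * ((1 - c + c ^ 2) ^ 2 + J))
      + (R - (1 - c + c ^ 2)) * ((2 + c + c ^ 2) - (17 / 40 - c / 4) * ((2 + c + c ^ 2) ^ 2 + J))
      + (17 / 40 - c / 4) * (R - (1 - c + c ^ 2)) * ((2 + c + c ^ 2) - R) * (1 + 2 * c) := by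
      ring
    rw [e]; positivity
  have key2 : 0 ≤ R - (17 / 40 - c / 4) * (R ^ 2 + J) := by
    by_contra h
    push Not at h
    nlinarith
  nlinarith [mul_le_mul_of_nonneg_left hI2 hb]

/-- the three estimates for `ε / y` -/
theorem lowA (h0 : 0 < c) (hk : k ^ 2 ≤ 2 / 3 * c ^ 2 - c ^ 4) {R : ℝ}
    (hR : 17 / 40 - c / 4 + c ^ 2 ≤ R) : k ^ 2 ≤ 4 * c ^ 2 * (c * R + R ^ 2) := by
  have hc := c_le h0 hk
  have hA := pA h0.le hc
  have hR0 : 0 < 17 / 40 - c / 4 + c ^ 2 := by nlinarith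
  have h1 : 2 / 3 - c ^ 2 ≤ 4 * (c * R + R ^ 2) := by
    have h2 : (17 / 40 - c / 4 + c ^ 2) ^ 2 ≤ R ^ 2 := by
      apply pow_le_pow_left₀ hR0.le hR
    have h3 : c * (17 / 40 - c / 4 + c ^ 2) ≤ c * R := by
      apply mul_le_mul_of_nonneg_left hR h0.le
    nlinarith
  nlinarith [mul_le_mul_of_nonneg_left h1 (sq_nonneg c)]

theorem lowB (h0 : 0 < c) (hk : k ^ 2 ≤ 2 / 3 * c ^ 2 - c ^ 4) {R : ℝ}
    (hR : 17 / 40 - c / 4 + c ^ 2 ≤ R) :
    k ^ 2 ≤ 4 * (23 / 40 + c / 4) * R * ((23 / 40 + c / 4) * R - c ^ 2) := by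
  have hc := c_le h0 hk
  have hB := pB h0.le hc
  have hR0 : 0 < 17 / 40 - c / 4 + c ^ 2 := by nlinarith
  have hb : 0 < 23 / 40 + c / 4 := by linarith
  have hpos : 0 ≤ (23 / 40 + c / 4) * (17 / 40 - c / 4 + c ^ 2) - c ^ 2 := by
    have e : (23 / 40 + c / 4) * (17 / 40 - c / 4 + c ^ 2) - c ^ 2 =
      391 / 1600 - 3 / 80 * c - 39 / 80 * c ^ 2 + c ^ 3 / 4 := by ring
    rw [e]
    nlinarith [mul_nonneg h0.le hc, mul_nonneg (sq_nonneg c) hc, mul_nonneg (sq_nonneg c) h0.le]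
  have h1 : (23 / 40 + c / 4) * (17 / 40 - c / 4 + c ^ 2) - c ^ 2 ≤ (23 / 40 + c / 4) * R - c ^ 2 := by
    nlinarith
  have h2 : 4 * (23 / 40 + c / 4) * (17 / 40 - c / 4 + c ^ 2) *
      ((23 / 40 + c / 4) * (17 / 40 - c / 4 + c ^ 2) - c ^ 2) ≤
      4 * (23 / 40 + c / 4) * R * ((23 / 40 + c / 4) * R - c ^ 2) := by
    apply mul_le_mul _ h1 hpos
    · have : 0 < R := lt_of_lt_of_le hR0 hR
      positivity
    · apply mul_le_mul_of_nonneg_left hR; positivity
  refine le_trans ?_ h2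
  have e : 4 * (23 / 40 + c / 4) * (17 / 40 - c / 4 + c ^ 2) *
      ((23 / 40 + c / 4) * (17 / 40 - c / 4 + c ^ 2) - c ^ 2) - (2 / 3 * c ^ 2 - c ^ 4) =
      (152881/640000)*c^0 + (-1173/16000)*c^1 + (-30557/48000)*c^2 + (97/200)*c^3 + (-119/1600)*c^4 + (1/40)*c^5 + (1/4)*c^6 := by
    ring
  linarith

theorem lowC (h0 : 0 < c) (hk : k ^ 2 ≤ 2 / 3 * c ^ 2 - c ^ 4) {R : ℝ}
    (hR : 17 / 40 - c / 4 + c ^ 2 ≤ R) :
    c ^ 4 ≤ 4 * (18 / 25) * R * (18 / 25 * R - |k|) := by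
  have hc := c_le h0 hk
  have hC := pC h0.le hc
  have hk2 := kap2 hk
  have hR0 : 0 < 17 / 40 - c / 4 + c ^ 2 := by nlinarith
  have hpos : 0 ≤ 18 / 25 * (17 / 40 - c / 4 + c ^ 2) - (1 / 6 + c ^ 2 - 3 / 2 * c ^ 4) := by
    by_contra h
    push Not at h
    have h5 : 0 ≤ 4 * (18 / 25) * (17 / 40 - c / 4 + c ^ 2) *
      (18 / 25 * (17 / 40 - c / 4 + c ^ 2) - (1 / 6 + c ^ 2 - 3 / 2 * c ^ 4)) := by
      have e : 4 * (18 / 25) * (17 / 40 - c / 4 + c ^ 2) *
      (18 / 25 * (17 / 40 - c / 4 + c ^ 2) - (1 / 6 + c ^ 2 - 3 / 2 * c ^ 4)) - c ^ 4 =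
        (10659/62500)*c^0 + (-1002/3125)*c^1 + (588/3125)*c^2 + (-198/625)*c^3 + (37/1250)*c^4 + (-27/25)*c^5 + (108/25)*c^6 := by
        ring
      have : 0 ≤ c ^ 4 := by positivity
      linarith
    have h6 : 0 < 4 * (18 / 25) * (17 / 40 - c / 4 + c ^ 2) := by positivity
    nlinarith
  have h2 : 4 * (18 / 25) * (17 / 40 - c / 4 + c ^ 2) *
      (18 / 25 * (17 / 40 - c / 4 + c ^ 2) - (1 / 6 + c ^ 2 - 3 / 2 * c ^ 4)) ≤
      4 * (18 / 25) * R * (18 / 25 * R - |k|) := by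
    apply mul_le_mul
    · nlinarith
    · nlinarith
    · exact hpos
    · have : 0 < R := lt_of_lt_of_le hR0 hR
      positivity
  refine le_trans ?_ h2
  have e : 4 * (18 / 25) * (17 / 40 - c / 4 + c ^ 2) *
      (18 / 25 * (17 / 40 - c / 4 + c ^ 2) - (1 / 6 + c ^ 2 - 3 / 2 * c ^ 4)) - c ^ 4 =
        (10659/62500)*c^0 + (-1002/3125)*c^1 + (588/3125)*c^2 + (-198/625)*c^3 + (37/1250)*c^4 + (-27/25)*c^5 + (108/25)*c^6 := by
        ring
  linarith

/-- quadratic form with nonpositive discriminant -/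
theorem quad_nonneg {a b d x : ℝ} (ha : 0 < a) (hd : b ^ 2 ≤ 4 * a * d) :
    0 ≤ a * x ^ 2 + b * x + d := by
  have h : 0 ≤ 4 * a * (a * x ^ 2 + b * x + d) := by
    nlinarith [sq_nonneg (2 * a * x + b)]
  by_contra h2
  push Not at h2
  nlinarith

end ineq

/-! ## The invariant box -/

/-- The box `Q`. -/
def InQ (c : ℝ) (x : ℂ) : Prop := -c ≤ x.re ∧ x.re ≤ 23 / 40 + c / 4 ∧ |x.im| ≤ 18 / 25

/-- `x` and `T x = ε / (ε + x)` lie in the box. -/
def InP (c : ℝ) (ε x : ℂ) : Prop := InQ c x ∧ ε + x ≠ 0 ∧ InQ c (ε / (ε + x))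

section box
variable {c k : ℝ}

/-- `1 - 1/y ∈ Q` -/
theorem oneSub (h0 : 0 < c) (hk : k ^ 2 ≤ 2 / 3 * c ^ 2 - c ^ 4) {y : ℂ}
    (hR1 : 1 - c + c ^ 2 ≤ y.re) (hR2 : y.re ≤ 2 + c + c ^ 2) (hI : |y.im| ≤ 18 / 25 + |k|) :
    InQ c (1 - 1 / y) := by
  have hc := c_le h0 hk
  have hR34 : 3 / 4 ≤ y.re := by nlinarith [sq_nonneg (c - 1 / 2)]
  have hy : 0 < y.re ^ 2 + y.im ^ 2 := by nlinarith [sq_nonneg y.im]
  have hns : Complex.normSq y = y.re ^ 2 + y.im ^ 2 := by
    rw [Complex.normSq_apply]; ring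
  have hre : (1 - 1 / y).re = 1 - y.re / (y.re ^ 2 + y.im ^ 2) := by
    rw [one_div, Complex.sub_re, Complex.inv_re, hns, Complex.one_re]
  have him : (1 - 1 / y).im = y.im / (y.re ^ 2 + y.im ^ 2) := by
    rw [one_div, Complex.sub_im, Complex.inv_im, hns, Complex.one_im]; ring
  refine ⟨?_, ?_, ?_⟩
  · rw [hre]
    have : y.re / (y.re ^ 2 + y.im ^ 2) ≤ 1 + c := by
      rw [div_le_iff₀ hy]
      have h1 : 1 ≤ (1 + c) * y.re := by
        have h2 : (1 + c) * (1 - c + c ^ 2) = 1 + c ^ 3 := by ring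
        have h3 : 0 < c ^ 3 := by positivity
        nlinarith
      have h4 : 0 ≤ (1 + c) * y.im ^ 2 := by positivity
      nlinarith
    linarith
  · rw [hre]
    have h1 := up1 h0 hk hR1 hR2 hI
    have : (17 / 40 - c / 4) ≤ y.re / (y.re ^ 2 + y.im ^ 2) := by
      rw [le_div_iff₀ hy]; exact h1
    linarith
  · rw [him, abs_div, abs_of_pos hy, div_le_iff₀ hy]
    have h1 : |y.im| ^ 2 = y.im ^ 2 := sq_abs _
    nlinarith [sq_nonneg (|y.im| - 25 / 36), abs_nonneg y.im]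

/-- `ε / y ∈ Q` -/
theorem epsDiv (h0 : 0 < c) (hk : k ^ 2 ≤ 2 / 3 * c ^ 2 - c ^ 4) {ε y : ℂ}
    (hεr : ε.re = c ^ 2) (hεi : ε.im = k)
    (hR1 : 17 / 40 - c / 4 + c ^ 2 ≤ y.re) :
    InQ c (ε / y) := by
  have hc := c_le h0 hk
  have hR0 : 0 < 17 / 40 - c / 4 + c ^ 2 := by nlinarith
  have hR : 0 < y.re := lt_of_lt_of_le hR0 hR1
  have hy : 0 < y.re ^ 2 + y.im ^ 2 := by nlinarith [sq_nonneg y.im]
  have hns : Complex.normSq y = y.re ^ 2 + y.im ^ 2 := by
    rw [Complex.normSq_apply]; ring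
  have hre : (ε / y).re = (c ^ 2 * y.re + k * y.im) / (y.re ^ 2 + y.im ^ 2) := by
    rw [Complex.div_re, hns, hεr, hεi]; ring
  have him : (ε / y).im = (k * y.re - c ^ 2 * y.im) / (y.re ^ 2 + y.im ^ 2) := by
    rw [Complex.div_im, hns, hεr, hεi]; ring
  refine ⟨?_, ?_, ?_⟩
  · rw [hre, le_div_iff₀ hy]
    have h1 := quad_nonneg (a := c) (b := k) (d := c ^ 2 * y.re + c * y.re ^ 2) (x := y.im) h0
      (by
        have := lowA h0 hk hR1
        nlinarith)
    nlinarith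
  · rw [hre, div_le_iff₀ hy]
    have hb : 0 < 23 / 40 + c / 4 := by linarith
    have h1 := quad_nonneg (a := 23 / 40 + c / 4) (b := -k)
      (d := (23 / 40 + c / 4) * y.re ^ 2 - c ^ 2 * y.re) (x := y.im) hb
      (by
        have := lowB h0 hk hR1
        nlinarith)
    nlinarith
  · rw [him, abs_div, abs_of_pos hy, div_le_iff₀ hy]
    have h1 : |k * y.re - c ^ 2 * y.im| ≤ |k| * y.re + c ^ 2 * |y.im| := by
      calc |k * y.re - c ^ 2 * y.im| ≤ |k * y.re| + |c ^ 2 * y.im| := abs_sub _ _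
        _ = |k| * y.re + c ^ 2 * |y.im| := by
          rw [abs_mul, abs_mul, abs_of_pos hR, abs_of_pos (by positivity : (0:ℝ) < c ^ 2)]
    refine le_trans h1 ?_
    have h2 := quad_nonneg (a := 18 / 25) (b := -(c ^ 2))
      (d := 18 / 25 * y.re ^ 2 - |k| * y.re) (x := |y.im|) (by norm_num)
      (by
        have := lowC h0 hk hR1
        nlinarith)
    have h3 : |y.im| ^ 2 = y.im ^ 2 := sq_abs _
    nlinarith

variable {ε : ℂ}

theorem eps_re_pos (h0 : 0 < c) (hεr : ε.re = c ^ 2) : 0 < ε.re := by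
  rw [hεr]; positivity

theorem eps_ne (h0 : 0 < c) (hεr : ε.re = c ^ 2) : ε ≠ 0 := by
  intro h
  have := eps_re_pos h0 hεr
  rw [h] at this
  simp at this

/-- property (1): if `x ∈ P` then `T x ∈ P`. -/
theorem stepT (h0 : 0 < c) (hk : k ^ 2 ≤ 2 / 3 * c ^ 2 - c ^ 4)
    (hεr : ε.re = c ^ 2) (hεi : ε.im = k) {x : ℂ} (hx : InP c ε x) :
    InP c ε (ε / (ε + x)) := by
  obtain ⟨⟨hx1, hx2, hx3⟩, hne, hT⟩ := hx
  have hc := c_le h0 hk
  have hε := eps_ne h0 hεr
  have hyre : (1 + ε + x).re = 1 + c ^ 2 + x.re := by simp [hεr]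
  have hyim : (1 + ε + x).im = k + x.im := by simp [hεi]
  have hypos : 0 < (1 + ε + x).re := by rw [hyre]; nlinarith [sq_nonneg (c - 1 / 2)]
  have hy : 1 + ε + x ≠ 0 := by
    intro h; rw [h] at hypos; simp at hypos
  have e1 : ε + ε / (ε + x) = ε * (1 + ε + x) / (ε + x) := by
    field_simp; ring
  have hne2 : ε + ε / (ε + x) ≠ 0 := by
    rw [e1]; exact div_ne_zero (mul_ne_zero hε hy) hne
  refine ⟨hT, hne2, ?_⟩
  have e2 : ε / (ε + ε / (ε + x)) = 1 - 1 / (1 + ε + x) := by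
    rw [e1]; field_simp; ring
  rw [e2]
  apply oneSub h0 hk
  · rw [hyre]; linarith
  · rw [hyre]; linarith
  · rw [hyim]
    calc |k + x.im| ≤ |k| + |x.im| := abs_add_le _ _
      _ ≤ 18 / 25 + |k| := by linarith

/-- properties (2) and (3): if `x ∈ Q` then `1 - x + ε ≠ 0` and `T (1 - x) ∈ P`. -/
theorem stepU (h0 : 0 < c) (hk : k ^ 2 ≤ 2 / 3 * c ^ 2 - c ^ 4)
    (hεr : ε.re = c ^ 2) (hεi : ε.im = k) {x : ℂ} (hx : InQ c x) :
    ε + (1 - x) ≠ 0 ∧ InP c ε (ε / (ε + (1 - x))) := by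
  obtain ⟨hx1, hx2, hx3⟩ := hx
  have hc := c_le h0 hk
  have hε := eps_ne h0 hεr
  have hzre : (ε + (1 - x)).re = c ^ 2 + (1 - x.re) := by simp [hεr]
  have hzpos : 17 / 40 - c / 4 + c ^ 2 ≤ (ε + (1 - x)).re := by rw [hzre]; linarith
  have hR0 : 0 < 17 / 40 - c / 4 + c ^ 2 := by nlinarith
  have hz : ε + (1 - x) ≠ 0 := by
    intro h; rw [h] at hzpos; simp at hzpos; linarith
  have hyre : (2 + ε - x).re = 2 + c ^ 2 - x.re := by simp [hεr]
  have hyim : (2 + ε - x).im = k - x.im := by simp [hεi]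
  have hypos : 0 < (2 + ε - x).re := by rw [hyre]; nlinarith
  have hy : 2 + ε - x ≠ 0 := by
    intro h; rw [h] at hypos; simp at hypos
  have e1 : ε + ε / (ε + (1 - x)) = ε * (2 + ε - x) / (ε + (1 - x)) := by
    field_simp; ring
  have hne2 : ε + ε / (ε + (1 - x)) ≠ 0 := by
    rw [e1]; exact div_ne_zero (mul_ne_zero hε hy) hz
  refine ⟨hz, epsDiv h0 hk hεr hεi hzpos, hne2, ?_⟩
  have e2 : ε / (ε + ε / (ε + (1 - x))) = 1 - 1 / (2 + ε - x) := by
    rw [e1]; field_simp; ring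
  rw [e2]
  apply oneSub h0 hk
  · rw [hyre]; linarith
  · rw [hyre]; linarith
  · rw [hyim]
    calc |k - x.im| ≤ |k| + |x.im| := abs_sub _ _
      _ ≤ 18 / 25 + |k| := by linarith

end box

/-! ## Stern polynomials -/

/-- The defining recursion of the Stern polynomials. -/
def IsStern (B : ℕ → ℤ[X]) : Prop :=
  B 0 = 0 ∧ B 1 = 1 ∧ (∀ n ≥ 1, B (2 * n) = X * B n) ∧ ∀ n ≥ 1, B (2 * n + 1) = B n + B (n + 1)

section stern
variable {B : ℕ → ℤ[X]}

theorem induct {P : ℕ → Prop} (h1 : P 1) (he : ∀ n ≥ 1, P n → P (2 * n))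
    (ho : ∀ n ≥ 1, P n → P (n + 1) → P (2 * n + 1)) : ∀ n ≥ 1, P n := by
  intro n
  induction n using Nat.strong_induction_on with
  | _ n ih =>
    intro hn
    rcases Nat.even_or_odd' n with ⟨m, hm | hm⟩
    · subst hm
      exact he m (by omega) (ih m (by omega) (by omega))
    · subst hm
      rcases Nat.eq_zero_or_pos m with h0 | h0
      · subst h0; simpa using h1
      · exact ho m h0 (ih m (by omega) h0) (ih (m + 1) (by omega) (by omega))

theorem eval_two (h : IsStern B) : ∀ n ≥ 1, (B n).eval 2 = n := by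
  obtain ⟨_, h1, h2, h3⟩ := h
  apply induct
  · rw [h1]; simp
  · intro n hn ih
    rw [h2 n hn]; simp [ih]
  · intro n hn ih1 ih2
    rw [h3 n hn, eval_add, ih1, ih2]; push_cast; ring

theorem eval_one_pos (h : IsStern B) : ∀ n ≥ 1, 0 < (B n).eval 1 := by
  obtain ⟨_, h1, h2, h3⟩ := h
  apply induct
  · rw [h1]; simp
  · intro n hn ih
    rw [h2 n hn]; simpa using ih
  · intro n hn ih1 ih2
    rw [h3 n hn, eval_add]; linarith

theorem eval_zero (h : IsStern B) : ∀ n ≥ 1, (B n).eval 0 = if Even n then 0 else 1 := by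
  obtain ⟨_, h1, h2, h3⟩ := h
  apply induct
  · rw [h1]; simp
  · intro n hn ih
    rw [h2 n hn]; simp
  · intro n hn ih1 ih2
    rw [h3 n hn, eval_add, ih1, ih2]
    have : ¬ Even (2 * n + 1) := by simp
    rw [if_neg this]
    by_cases hn2 : Even n
    · rw [if_pos hn2, if_neg (by simpa [Nat.even_add_one] using hn2)]; simp
    · rw [if_neg hn2, if_pos (by simpa [Nat.even_add_one] using hn2)]; simp

/-- The invariant along the tree. -/
theorem invariant (h : IsStern B) {t : ℂ} {c k : ℝ} (ht : t ≠ 0) (h0 : 0 < c)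
    (hk : k ^ 2 ≤ 2 / 3 * c ^ 2 - c ^ 4) (hεr : (1 / t).re = c ^ 2) (hεi : (1 / t).im = k) :
    ∀ n ≥ 1, aeval t (B (2 * n + 1)) ≠ 0 ∧
      (InP c (1 / t) (aeval t (B n) / aeval t (B (2 * n + 1))) ∨
        InP c (1 / t) (1 - aeval t (B n) / aeval t (B (2 * n + 1)))) := by
  obtain ⟨_, h1, h2, h3⟩ := h
  set ε := 1 / t with hε
  have htε : t * ε = 1 := by rw [hε]; field_simp
  have hε0 : ε ≠ 0 := by rw [hε]; exact one_div_ne_zero ht
  have hc := c_le h0 hk
  intro n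
  induction n using Nat.strong_induction_on with
  | _ n ih =>
    intro hn
    rcases eq_or_lt_of_le hn with hn1 | hn1
    · -- base case
      have hn1' : n = 1 := hn1.symm
      subst hn1'
      have hB2 : B 2 = X := by
        have := h2 1 le_rfl
        rw [h1, mul_one] at this
        simpa using this
      have hB3 : aeval t (B (2 * 1 + 1)) = 1 + t := by
        rw [h3 1 le_rfl, h1, hB2]; simp
      have hQ0 : InQ c (0 : ℂ) := by
        refine ⟨?_, ?_, ?_⟩ <;> simp <;> linarith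
      obtain ⟨hz, hP⟩ := stepU h0 hk hεr hεi hQ0
      rw [sub_zero] at hz hP
      have e : 1 + t = t * (ε + 1) := by
        rw [mul_add, htε, mul_one]
      rw [hB3, h1, map_one]
      refine ⟨?_, Or.inl ?_⟩
      · rw [e]; exact mul_ne_zero ht hz
      · have e2 : 1 / (1 + t) = ε / (ε + 1) := by
          rw [e]; field_simp; rw [htε]
        rw [e2]; exact hP
    · rcases Nat.even_or_odd' n with ⟨m, hm | hm⟩
      · -- left child
        subst hm
        have hm1 : 1 ≤ m := by omega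
        obtain ⟨hs, hx⟩ := ih m (by omega) hm1
        set a := aeval t (B m) with ha
        set s := aeval t (B (2 * m + 1)) with hsdef
        have hnew : aeval t (B (2 * (2 * m) + 1)) = t * a + s := by
          rw [h3 (2 * m) (by omega), h2 m hm1, map_add, map_mul, aeval_X]
        have ha2 : aeval t (B (2 * m)) = t * a := by
          rw [h2 m hm1, map_mul, aeval_X]
        have hfac : t * a + s = t * s * (ε + a / s) := by
          have : t * s * (ε + a / s) = (t * ε) * s + t * a * (s / s) := by ring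
          rw [this, htε, div_self hs]; ring
        rw [hnew, ha2]
        rcases hx with hx | hx
        · have hne := hx.2.1
          refine ⟨?_, Or.inr ?_⟩
          · rw [hfac]; exact mul_ne_zero (mul_ne_zero ht hs) hne
          · have e : 1 - t * a / (t * a + s) = ε / (ε + a / s) := by
              have hne3 : t * a + s ≠ 0 := by
                rw [hfac]; exact mul_ne_zero (mul_ne_zero ht hs) hne
              rw [eq_div_iff hne, one_sub_div hne3, div_mul_eq_mul_div, div_eq_iff hne3]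
              rw [hfac]
              have : t * s * (ε + a / s) - t * a = (t * ε) * s + t * a * (s / s) - t * a := by ring
              have e3 : t * a + s - t * a = s := by ring
              have e4 : (t * s * (ε + a / s) - t * a) = s := by rw [← hfac]; ring
              rw [e4]
              have : ε * (t * s * (ε + a / s)) = (t * ε) * s * (ε + a / s) := by ring
              rw [this, htε]; ring
            rw [e]
            exact stepT h0 hk hεr hεi hx
        · -- `1 - x ∈ P`; then `1 - x' = T (1 - (1 - x))`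
          obtain ⟨hz, hP⟩ := stepU h0 hk hεr hεi hx.1
          rw [sub_sub_cancel] at hz hP
          refine ⟨?_, Or.inr ?_⟩
          · rw [hfac]; exact mul_ne_zero (mul_ne_zero ht hs) hz
          · have e : 1 - t * a / (t * a + s) = ε / (ε + a / s) := by
              have hne3 : t * a + s ≠ 0 := by
                rw [hfac]; exact mul_ne_zero (mul_ne_zero ht hs) hz
              rw [eq_div_iff hz, one_sub_div hne3, div_mul_eq_mul_div, div_eq_iff hne3]
              rw [hfac]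
              have e4 : (t * s * (ε + a / s) - t * a) = s := by rw [← hfac]; ring
              rw [e4]
              have : ε * (t * s * (ε + a / s)) = (t * ε) * s * (ε + a / s) := by ring
              rw [this, htε]; ring
            rw [e]
            exact hP
      · -- right child
        subst hm
        have hm1 : 1 ≤ m := by omega
        obtain ⟨hs, hx⟩ := ih m (by omega) hm1
        have hsum : aeval t (B (2 * m + 1)) = aeval t (B m) + aeval t (B (m + 1)) := by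
          rw [h3 m hm1, map_add]
        set a := aeval t (B m) with ha
        set s := aeval t (B (2 * m + 1)) with hsdef
        have hb : aeval t (B (m + 1)) = s - a := by rw [hsum]; ring
        have hnew : aeval t (B (2 * (2 * m + 1) + 1)) = s + t * (s - a) := by
          rw [h3 (2 * m + 1) (by omega), show 2 * m + 1 + 1 = 2 * (m + 1) by ring,
            h2 (m + 1) (by omega), map_add, map_mul, aeval_X, hb]
        have hfac : s + t * (s - a) = t * s * (ε + (1 - a / s)) := by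
          have : t * s * (ε + (1 - a / s)) = (t * ε) * s + t * (s - a * (s / s)) := by ring
          rw [this, htε, div_self hs]; ring
        rw [hnew]
        have hcommon : ε + (1 - a / s) ≠ 0 →
            s + t * (s - a) ≠ 0 ∧ s / (s + t * (s - a)) = ε / (ε + (1 - a / s)) := by
          intro hz
          have hne3 : s + t * (s - a) ≠ 0 := by
            rw [hfac]; exact mul_ne_zero (mul_ne_zero ht hs) hz
          refine ⟨hne3, ?_⟩
          rw [div_eq_div_iff hne3 hz, hfac]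
          have : ε * (t * s * (ε + (1 - a / s))) = (t * ε) * s * (ε + (1 - a / s)) := by ring
          rw [this, htε]; ring
        rcases hx with hx | hx
        · obtain ⟨hz, hP⟩ := stepU h0 hk hεr hεi hx.1
          obtain ⟨hne, heq⟩ := hcommon hz
          exact ⟨hne, Or.inl (by rw [heq]; exact hP)⟩
        · obtain ⟨hne, heq⟩ := hcommon hx.2.1
          exact ⟨hne, Or.inl (by rw [heq]; exact stepT h0 hk hεr hεi hx)⟩

/-- No zero in the half-plane `Re t ≥ 3/2`. -/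
theorem zero_free (h : IsStern B) {t : ℂ} (ht : 3 / 2 ≤ t.re) : ∀ n ≥ 1, aeval t (B n) ≠ 0 := by
  have ht0 : t ≠ 0 := by
    intro h; rw [h] at ht; norm_num at ht
  have hN : 0 < t.re ^ 2 + t.im ^ 2 := by nlinarith [sq_nonneg t.im]
  have hns : Complex.normSq t = t.re ^ 2 + t.im ^ 2 := by
    rw [Complex.normSq_apply]; ring
  have hre : (1 / t).re = t.re / (t.re ^ 2 + t.im ^ 2) := by
    rw [one_div, Complex.inv_re, hns]
  have him : (1 / t).im = -t.im / (t.re ^ 2 + t.im ^ 2) := by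
    rw [one_div, Complex.inv_im, hns]
  have hpos : 0 < (1 / t).re := by rw [hre]; apply div_pos _ hN; linarith
  have hc0 : 0 < Real.sqrt (1 / t).re := Real.sqrt_pos.mpr hpos
  have hc2 : Real.sqrt (1 / t).re ^ 2 = (1 / t).re := Real.sq_sqrt hpos.le
  have hk : (1 / t).im ^ 2 ≤ 2 / 3 * Real.sqrt (1 / t).re ^ 2 - Real.sqrt (1 / t).re ^ 4 := by
    have e4 : Real.sqrt (1 / t).re ^ 4 = (1 / t).re ^ 2 := by
      calc Real.sqrt (1 / t).re ^ 4 = (Real.sqrt (1 / t).re ^ 2) ^ 2 := by ring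
        _ = (1 / t).re ^ 2 := by rw [hc2]
    rw [e4, hc2, hre, him]
    have e : (-t.im / (t.re ^ 2 + t.im ^ 2)) ^ 2 + (t.re / (t.re ^ 2 + t.im ^ 2)) ^ 2
        = 1 / (t.re ^ 2 + t.im ^ 2) := by
      field_simp; ring
    have e2 : 1 / (t.re ^ 2 + t.im ^ 2) ≤ 2 / 3 * (t.re / (t.re ^ 2 + t.im ^ 2)) := by
      rw [← mul_div_assoc]
      apply div_le_div_of_nonneg_right _ hN.le
      linarith
    linarith
  have inv := invariant h ht0 hc0 hk hc2.symm rfl
  obtain ⟨_, h1, h2, h3⟩ := h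
  intro n
  induction n using Nat.strong_induction_on with
  | _ n ih =>
    intro hn
    rcases Nat.even_or_odd' n with ⟨m, hm | hm⟩
    · subst hm
      rw [h2 m (by omega), map_mul, aeval_X]
      exact mul_ne_zero ht0 (ih m (by omega) (by omega))
    · subst hm
      rcases Nat.eq_zero_or_pos m with h0 | h0
      · subst h0; rw [Nat.mul_zero, Nat.zero_add, h1]; simp
      · exact (inv m h0).1

/-! ## Irreducibility -/

theorem norm_one_sub_lt {z : ℂ} (hz : z.re < 3 / 2) : ‖(1 : ℂ) - z‖ < ‖(2 : ℂ) - z‖ := by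
  have h1 : ‖(1 : ℂ) - z‖ ^ 2 < ‖(2 : ℂ) - z‖ ^ 2 := by
    rw [← Complex.normSq_eq_norm_sq, ← Complex.normSq_eq_norm_sq, Complex.normSq_apply,
      Complex.normSq_apply]
    simp
    nlinarith
  exact lt_of_pow_lt_pow_left₀ 2 (norm_nonneg _) h1

theorem prod_le (s : Multiset ℂ) (hs : ∀ z ∈ s, z.re < 3 / 2) :
    ‖(s.map (fun z => (1 : ℂ) - z)).prod‖ ≤ ‖(s.map (fun z => (2 : ℂ) - z)).prod‖ ∧
      0 < ‖(s.map (fun z => (2 : ℂ) - z)).prod‖ ∧
      (s ≠ 0 → ‖(s.map (fun z => (1 : ℂ) - z)).prod‖ < ‖(s.map (fun z => (2 : ℂ) - z)).prod‖) := by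
  induction s using Multiset.induction_on with
  | empty => simp
  | cons a s ih =>
    obtain ⟨h1, h2, _⟩ := ih (fun z hz => hs z (Multiset.mem_cons_of_mem hz))
    have ha := norm_one_sub_lt (hs a (Multiset.mem_cons_self a s))
    have hlt : ‖((a ::ₘ s).map (fun z => (1 : ℂ) - z)).prod‖ <
        ‖((a ::ₘ s).map (fun z => (2 : ℂ) - z)).prod‖ := by
      rw [Multiset.map_cons, Multiset.map_cons, Multiset.prod_cons, Multiset.prod_cons,
        norm_mul, norm_mul]
      calc ‖(1 : ℂ) - a‖ * ‖(s.map (fun z => (1 : ℂ) - z)).prod‖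
          ≤ ‖(1 : ℂ) - a‖ * ‖(s.map (fun z => (2 : ℂ) - z)).prod‖ :=
            mul_le_mul_of_nonneg_left h1 (norm_nonneg _)
        _ < ‖(2 : ℂ) - a‖ * ‖(s.map (fun z => (2 : ℂ) - z)).prod‖ :=
            mul_lt_mul_of_pos_right ha h2
    exact ⟨hlt.le, lt_of_le_of_lt (norm_nonneg _) hlt, fun _ => hlt⟩

/-- A divisor of `B p` (`p` odd) with value `±1` at `2` is a unit. -/
theorem unit_of_dvd (h : IsStern B) {p : ℕ} (hp1 : 1 ≤ p) (hodd : Odd p) {f g : ℤ[X]}
    (hfg : B p = f * g) (hf : IsUnit (f.eval 2)) : IsUnit f := by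
  have hB0 : (B p).eval 0 = 1 := by
    rw [eval_zero h p hp1, if_neg (Nat.not_even_iff_odd.mpr hodd)]
  have hB1 := eval_one_pos h p hp1
  have hf0 : f ≠ 0 := by
    rintro rfl; simp at hf
  by_cases hdeg : f.natDegree = 0
  · rw [Polynomial.natDegree_eq_zero] at hdeg
    obtain ⟨a, rfl⟩ := hdeg
    rw [eval_C] at hf
    exact hf.map C
  · exfalso
    set F : ℂ[X] := f.map (Int.castRingHom ℂ) with hF
    have hinj : Function.Injective (Int.castRingHom ℂ) := Int.cast_injective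
    have hF0 : F ≠ 0 := (Polynomial.map_ne_zero_iff hinj).mpr hf0
    have hFdeg : F.natDegree = f.natDegree := natDegree_map_eq_of_injective hinj f
    have hsplit : F.Splits := IsAlgClosed.splits F
    have hroots : ∀ z ∈ F.roots, z.re < 3 / 2 := by
      intro z hz
      by_contra hcon
      push Not at hcon
      have hzf := zero_free h hcon p hp1
      apply hzf
      rw [mem_roots hF0, IsRoot.def, hF, eval_map] at hz
      rw [hfg, map_mul]
      have : aeval z f = 0 := by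
        rw [aeval_def]; simpa using hz
      rw [this, zero_mul]
    have hne : F.roots ≠ 0 := by
      intro h0
      have : F.roots.card = F.natDegree := (splits_iff_card_roots.mp hsplit)
      rw [h0, Multiset.card_zero, hFdeg] at this
      exact hdeg this.symm
    obtain ⟨_, _, hlt⟩ := prod_le F.roots hroots
    have hlt := hlt hne
    have e1 := hsplit.eval_eq_prod_roots 1
    have e2 := hsplit.eval_eq_prod_roots 2
    have hlc : 0 < ‖F.leadingCoeff‖ := norm_pos_iff.mpr (leadingCoeff_ne_zero.mpr hF0)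
    have hltF : ‖F.eval 1‖ < ‖F.eval 2‖ := by
      rw [e1, e2, norm_mul, norm_mul]
      exact mul_lt_mul_of_pos_left hlt hlc
    have e1' : F.eval 1 = ((f.eval 1 : ℤ) : ℂ) := by
      rw [hF, eval_one_map]; simp
    have e2' : F.eval 2 = ((f.eval 2 : ℤ) : ℂ) := by
      have := Polynomial.eval_intCast_map (Int.castRingHom ℂ) f 2
      simpa using this
    rw [e1', e2', Complex.norm_intCast, Complex.norm_intCast] at hltF
    have h2 : |((f.eval 2 : ℤ) : ℝ)| = 1 := by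
      rcases Int.isUnit_iff.mp hf with h | h <;> rw [h] <;> simp
    rw [h2] at hltF
    have h3 : |f.eval 1| < 1 := by exact_mod_cast hltF
    have h4 : f.eval 1 = 0 := Int.abs_lt_one_iff.mp h3
    rw [hfg, eval_mul, h4, zero_mul] at hB1
    exact lt_irrefl _ hB1

theorem irreducible_int (h : IsStern B) {p : ℕ} (hp : p.Prime) (hodd : Odd p) :
    Irreducible (B p) := by
  have hp1 : 1 ≤ p := hp.one_lt.le
  have h2 := eval_two h p hp1
  refine ⟨?_, ?_⟩
  · intro hu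
    have hu2 : IsUnit ((B p).eval 2) := hu.map (evalRingHom 2)
    rw [h2, Int.isUnit_iff] at hu2
    have := hp.one_lt
    omega
  · intro f g hfg
    have hmul : f.eval 2 * g.eval 2 = (p : ℤ) := by rw [← h2, hfg, eval_mul]
    have hpz : Prime (p : ℤ) := Nat.prime_iff_prime_int.mp hp
    rcases hpz.irreducible.isUnit_or_isUnit hmul.symm with hu | hu
    · exact Or.inl (unit_of_dvd h hp1 hodd hfg hu)
    · exact Or.inr (unit_of_dvd h hp1 hodd (by rw [hfg, mul_comm]) hu)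

theorem irreducible_rat (h : IsStern B) {p : ℕ} (hp : p.Prime) :
    Irreducible ((B p).map (Int.castRingHom ℚ)) := by
  rcases hp.eq_two_or_odd' with rfl | hodd
  · have hB2 : B 2 = X := by
      have := h.2.2.1 1 le_rfl
      rw [h.2.1, mul_one] at this
      simpa using this
    rw [hB2, Polynomial.map_X]
    exact irreducible_X
  · have hp1 : 1 ≤ p := hp.one_lt.le
    have hprim : (B p).IsPrimitive := by
      intro r hr
      have h1 : r ∣ (B p).coeff 0 := (Polynomial.C_dvd_iff_dvd_coeff r (B p)).mp hr 0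
      rw [coeff_zero_eq_eval_zero, eval_zero h p hp1, if_neg (Nat.not_even_iff_odd.mpr hodd)] at h1
      exact isUnit_of_dvd_one h1
    exact (Polynomial.IsPrimitive.Int.irreducible_iff_irreducible_map_cast hprim).mp
      (irreducible_int h hp hodd)

end stern

/-- A concrete model of the recursion. -/
noncomputable def stern : ℕ → ℤ[X]
  | 0 => 0
  | 1 => 1
  | (n + 2) => if (n + 2) % 2 = 0 then X * stern ((n + 2) / 2)
      else stern ((n + 2) / 2) + stern ((n + 2) / 2 + 1)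
decreasing_by all_goals omega

theorem isStern_stern : IsStern stern := by
  refine ⟨?_, ?_, ?_, ?_⟩
  · rw [stern]
  · rw [stern]
  · intro n hn
    obtain ⟨m, hm⟩ : ∃ m, 2 * n = m + 2 := ⟨2 * n - 2, by omega⟩
    rw [hm, stern, if_pos (by omega), show (m + 2) / 2 = n by omega]
  · intro n hn
    obtain ⟨m, hm⟩ : ∃ m, 2 * n + 1 = m + 2 := ⟨2 * n - 1, by omega⟩
    rw [hm, stern, if_neg (by omega), show (m + 2) / 2 = n by omega]

end Q254Stern
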