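import Mathlib
import Pool.Agent.Q254.Stern

/-!
# Real and rational zeros of Stern polynomials

For `t = -m(1-m)` with `0 < m ≤ 1/2` (every `t ∈ [-1/4, 0)` has this form) the quadratic form
`q(a,b) = (a + m b)(m a + b)` is nonnegative at all pairs `(B n t, B (n+1) t)`.
-/

set_option autoImplicit false

open Polynomial Q254Stern

namespace Q254SternReal

theorem induct0 {P : ℕ → Prop} (h1 : P 1) (he : ∀ n ≥ 1, P n → P (2 * n))
    (ho : ∀ n ≥ 1, P n → P (2 * n + 1)) : ∀ n ≥ 1, P n := by
  intro n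
  induction n using Nat.strong_induction_on with
  | _ n ih =>
    intro hn
    rcases Nat.even_or_odd' n with ⟨m, hm | hm⟩
    · subst hm
      exact he m (by omega) (ih m (by omega) (by omega))
    · subst hm
      rcases Nat.eq_zero_or_pos m with h0 | h0
      · subst h0; simpa using h1
      · exact ho m h0 (ih m (by omega) h0)

section
variable {B : ℕ → ℤ[X]}

theorem form_nonneg (h : IsStern B) {m : ℝ} (hm0 : 0 < m) (hm1 : m ≤ 1 / 2) :
    ∀ n ≥ 1, 0 ≤ (aeval (-(m * (1 - m))) (B n) + m * aeval (-(m * (1 - m))) (B (n + 1))) *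
        (m * aeval (-(m * (1 - m))) (B n) + aeval (-(m * (1 - m))) (B (n + 1))) ∧
      aeval (-(m * (1 - m))) (B (2 * n + 1)) ≠ 0 := by
  obtain ⟨_, h1, h2, h3⟩ := h
  set t : ℝ := -(m * (1 - m)) with ht
  have ht0 : t ≠ 0 := by
    have : 0 < m * (1 - m) := mul_pos hm0 (by linarith)
    rw [ht]; exact (neg_neg_of_pos this).ne
  have hm2 : (0 : ℝ) ≤ 1 - m + m ^ 2 := by nlinarith
  -- the sum does not vanish
  have hsum : ∀ a b : ℝ, ¬ (a = 0 ∧ b = 0) → 0 ≤ (a + m * b) * (m * a + b) → a + b ≠ 0 := by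
    intro a b hab hq hs
    have hb : b = -a := by linarith
    subst hb
    have ha : a ≠ 0 := fun ha => hab ⟨ha, by simp [ha]⟩
    have e : (a + m * -a) * (m * a + -a) = -((1 - m) ^ 2 * a ^ 2) := by ring
    rw [e] at hq
    have : 0 < (1 - m) ^ 2 * a ^ 2 := by
      have : 0 < 1 - m := by linarith
      positivity
    linarith
  have key : ∀ n ≥ 1, 0 ≤ (aeval t (B n) + m * aeval t (B (n + 1))) *
        (m * aeval t (B n) + aeval t (B (n + 1))) ∧
        ¬ (aeval t (B n) = 0 ∧ aeval t (B (n + 1)) = 0) := by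
    apply induct0
    · have hB2 : B 2 = X := by
        have := h2 1 le_rfl
        rw [h1, mul_one] at this
        simpa using this
      rw [h1, show 1 + 1 = 2 from rfl, hB2, aeval_X, map_one]
      refine ⟨?_, fun h => one_ne_zero h.1⟩
      have e : (1 + m * t) * (m * 1 + t) = (1 - m ^ 2 * (1 - m)) * m ^ 2 := by rw [ht]; ring
      rw [e]
      have : 0 ≤ 1 - m ^ 2 * (1 - m) := by nlinarith [mul_nonneg hm0.le hm0.le]
      positivity
    · intro n hn ⟨hq, hne⟩
      have hs := hsum _ _ hne hq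
      rw [h2 n hn, h3 n hn, map_mul, aeval_X, map_add]
      set a := aeval t (B n)
      set b := aeval t (B (n + 1))
      refine ⟨?_, fun h => hs h.2⟩
      have e : (t * a + m * (a + b)) * (m * (t * a) + (a + b)) =
          m * (1 - m) * ((a + m * b) * (m * a + b)) + m * (1 - m + m ^ 2) * (m * a + b) ^ 2 := by
        rw [ht]; ring
      rw [e]
      have h5 : 0 ≤ m * (1 - m) := mul_nonneg hm0.le (by linarith)
      have h6 := mul_nonneg h5 hq
      have h7 : 0 ≤ m * (1 - m + m ^ 2) * (m * a + b) ^ 2 := by positivity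
      linarith
    · intro n hn ⟨hq, hne⟩
      have hs := hsum _ _ hne hq
      rw [h3 n hn, show 2 * n + 1 + 1 = 2 * (n + 1) by ring, h2 (n + 1) (by omega), map_mul,
        aeval_X, map_add]
      set a := aeval t (B n)
      set b := aeval t (B (n + 1))
      refine ⟨?_, fun h => hs h.1⟩
      have e : (a + b + m * (t * b)) * (m * (a + b) + t * b) =
          m * (1 - m) * ((a + m * b) * (m * a + b)) + m * (1 - m + m ^ 2) * (a + m * b) ^ 2 := by
        rw [ht]; ring
      rw [e]
      have h5 : 0 ≤ m * (1 - m) := mul_nonneg hm0.le (by linarith)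
      have h6 := mul_nonneg h5 hq
      have h7 : 0 ≤ m * (1 - m + m ^ 2) * (a + m * b) ^ 2 := by positivity
      linarith
  intro n hn
  refine ⟨(key n hn).1, ?_⟩
  rw [h3 n hn, map_add]
  exact hsum _ _ (key n hn).2 (key n hn).1

/-- No real zero in `[-1/4, 0)`. -/
theorem no_real_zero (h : IsStern B) {t : ℝ} (ht1 : -(1 / 4) ≤ t) (ht2 : t < 0) :
    ∀ n ≥ 1, aeval t (B n) ≠ 0 := by
  set m : ℝ := (1 - Real.sqrt (1 + 4 * t)) / 2 with hm
  have h14 : 0 ≤ 1 + 4 * t := by linarith
  have hsq : Real.sqrt (1 + 4 * t) ^ 2 = 1 + 4 * t := Real.sq_sqrt h14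
  have hs0 : 0 ≤ Real.sqrt (1 + 4 * t) := Real.sqrt_nonneg _
  have hs1 : Real.sqrt (1 + 4 * t) < 1 := by
    rw [Real.sqrt_lt' one_pos]; linarith
  have hm0 : 0 < m := by rw [hm]; linarith
  have hm1 : m ≤ 1 / 2 := by rw [hm]; linarith
  have htm : t = -(m * (1 - m)) := by
    rw [hm]; nlinarith
  have key := form_nonneg h hm0 hm1
  rw [← htm] at key
  obtain ⟨_, h1, h2, h3⟩ := h
  intro n
  induction n using Nat.strong_induction_on with
  | _ n ih =>
    intro hn
    rcases Nat.even_or_odd' n with ⟨m, hm | hm⟩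
    · subst hm
      rw [h2 m (by omega), map_mul, aeval_X]
      exact mul_ne_zero ht2.ne (ih m (by omega) (by omega))
    · subst hm
      rcases Nat.eq_zero_or_pos m with h0 | h0
      · subst h0; rw [Nat.mul_zero, Nat.zero_add, h1]; simp
      · exact (key m h0).2

theorem pos_of_pos (h : IsStern B) {a : ℚ} (ha : 0 < a) : ∀ n ≥ 1, 0 < aeval a (B n) := by
  obtain ⟨_, h1, h2, h3⟩ := h
  apply Q254Stern.induct
  · rw [h1]; simp
  · intro n hn ih
    rw [h2 n hn, map_mul, aeval_X]; exact mul_pos ha ih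
  · intro n hn ih1 ih2
    rw [h3 n hn, map_add]; exact add_pos ih1 ih2

/-- rational zeros of `B n` with `n` odd -/
theorem odd_case (h : IsStern B) {n : ℕ} (hn : 1 ≤ n) (hodd : Odd n) {a : ℚ}
    (ha : aeval a (B n) = 0) : a = -1 ∨ a = -(1 / 2) ∨ a = -(1 / 3) := by
  have h0 : (B n).coeff 0 = 1 := by
    rw [coeff_zero_eq_eval_zero, Q254Stern.eval_zero h n hn,
      if_neg (Nat.not_even_iff_odd.mpr hodd)]
  have hdvd : IsFractionRing.num ℤ a ∣ (B n).coeff 0 := num_dvd_of_is_root ha
  rw [h0] at hdvd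
  have hnum : a.num ∣ 1 := (Rat.isFractionRingNum a).dvd_iff_dvd_left.mp hdvd
  have hapos : ¬ 0 < a := fun hpos => (pos_of_pos h hpos n hn).ne' ha
  have ha0 : a ≠ 0 := by
    rintro rfl
    rw [aeval_def, eval₂_at_zero, h0] at ha
    simp at ha
  have haneg : a < 0 := lt_of_le_of_ne (not_lt.mp hapos) ha0
  have hnum1 : a.num = -1 := by
    have h5 : a.num < 0 := Rat.num_neg.mpr haneg
    rcases Int.isUnit_iff.mp (isUnit_of_dvd_one hnum) with h6 | h6
    · omega
    · exact h6
  have haeq : a = -(1 / (a.den : ℚ)) := by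
    have h8 : (a.num : ℚ) / (a.den : ℚ) = a := Rat.num_div_den a
    rw [hnum1] at h8
    have h9 : (((-1 : ℤ) : ℚ)) / (a.den : ℚ) = -(1 / (a.den : ℚ)) := by push_cast; ring
    rw [h9] at h8
    exact h8.symm
  have hden : 1 ≤ a.den := a.den_pos
  by_cases hd : 4 ≤ a.den
  · exfalso
    have hR : aeval (a : ℝ) (B n) = 0 := by
      have : aeval (a : ℝ) (B n) = ((aeval a (B n) : ℚ) : ℝ) := by
        rw [aeval_def, aeval_def, eval₂_eq_sum_range, eval₂_eq_sum_range]
        push_cast
        rfl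
      rw [this, ha]; simp
    refine no_real_zero h ?_ ?_ n hn hR
    · have h7 : (-(1 / 4) : ℚ) ≤ a := by
        rw [haeq]
        have : (1 : ℚ) / a.den ≤ 1 / 4 := by
          apply one_div_le_one_div_of_le (by norm_num)
          exact_mod_cast hd
        linarith
      have : ((-(1 / 4) : ℚ) : ℝ) ≤ (a : ℝ) := by exact_mod_cast h7
      simpa using this
    · exact_mod_cast haneg
  · have : a.den = 1 ∨ a.den = 2 ∨ a.den = 3 := by omega
    rcases this with h | h | h
    · left; rw [haeq, h]; norm_num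
    · right; left; rw [haeq, h]; norm_num
    · right; right; rw [haeq, h]; norm_num

theorem all_case (h : IsStern B) {a : ℚ} : ∀ n ≥ 1, aeval a (B n) = 0 →
    a = -1 ∨ a = -(1 / 2) ∨ a = -(1 / 3) ∨ a = 0 := by
  intro n
  induction n using Nat.strong_induction_on with
  | _ n ih =>
    intro hn ha
    rcases Nat.even_or_odd' n with ⟨m, hm | hm⟩
    · subst hm
      rw [h.2.2.1 m (by omega), map_mul, aeval_X] at ha
      rcases mul_eq_zero.mp ha with ha | ha
      · exact Or.inr (Or.inr (Or.inr ha))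
      · exact ih m (by omega) (by omega) ha
    · rcases odd_case h hn ⟨m, hm⟩ ha with h | h | h
      · exact Or.inl h
      · exact Or.inr (Or.inl h)
      · exact Or.inr (Or.inr (Or.inl h))

theorem roots_occur (h : IsStern B) :
    aeval (0 : ℚ) (B 2) = 0 ∧ aeval (-1 : ℚ) (B 3) = 0 ∧ aeval (-(1 / 2) : ℚ) (B 5) = 0 ∧
      aeval (-(1 / 3) : ℚ) (B 21) = 0 := by
  obtain ⟨_, h1, h2, h3⟩ := h
  have B2 : B 2 = X := by
    have := h2 1 le_rfl
    rw [h1, mul_one] at this
    simpa using this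
  have B3 : B 3 = 1 + X := by
    have := h3 1 le_rfl
    simpa [h1, B2] using this
  have B5 : B 5 = X + (1 + X) := by
    have := h3 2 (by norm_num)
    simpa [B2, B3] using this
  have B6 : B 6 = X * (1 + X) := by
    have := h2 3 (by norm_num)
    simpa [B3] using this
  have B10 : B 10 = X * (X + (1 + X)) := by
    have := h2 5 (by norm_num)
    simpa [B5] using this
  have B11 : B 11 = (X + (1 + X)) + X * (1 + X) := by
    have := h3 5 (by norm_num)
    simpa [B5, B6] using this
  have B21 : B 21 = X * (X + (1 + X)) + ((X + (1 + X)) + X * (1 + X)) := by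
    have := h3 10 (by norm_num)
    simpa [B10, B11] using this
  rw [B2, B3, B5, B21]
  refine ⟨?_, ?_, ?_, ?_⟩ <;> simp <;> norm_num

end

end Q254SternReal
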