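import Mathlib

/-!
# Signs of the square of the Thue-Morse generating function

`t(n) = ∑_{i+j=n} s(i) s(j)` satisfies `t(2n) = t(n) + t(n-1)`, `t(2n+1) = -2 t(n)`; hence
`5 t(32n+20) + 3 t(64n+16) + 2 t(4n+1) = 0` and `2 t(8n+1) + 2 t(64n+46) + t(32n+1) = 0`.
-/

set_option autoImplicit false

open Finset

namespace Q254ThueMorse

/-- The Prouhet-Thue-Morse sequence. -/
def s (n : ℕ) : ℤ := (-1) ^ (Nat.digits 2 n).sum

/-- `t m n = [x^n] (∑ s(k) x^k)^m`. -/
noncomputable def t (m n : ℕ) : ℤ := PowerSeries.coeff n ((PowerSeries.mk s) ^ m)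

theorem s_even (n : ℕ) : s (2 * n) = s n := by
  rcases Nat.eq_zero_or_pos n with rfl | hn
  · simp
  · unfold s
    rw [Nat.digits_def' (by norm_num) (by omega : 0 < 2 * n)]
    simp

theorem s_odd (n : ℕ) : s (2 * n + 1) = -s n := by
  unfold s
  rw [Nat.digits_def' (by norm_num) (by omega : 0 < 2 * n + 1)]
  have h1 : (2 * n + 1) % 2 = 1 := by omega
  have h2 : (2 * n + 1) / 2 = n := by omega
  rw [h1, h2, List.sum_cons, pow_add]
  simp

theorem t_two (n : ℕ) : t 2 n = ∑ i ∈ range (n + 1), s i * s (n - i) := by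
  unfold t
  rw [sq, PowerSeries.coeff_mul, Finset.Nat.sum_antidiagonal_eq_sum_range_succ_mk]
  simp [PowerSeries.coeff_mk]

theorem sum_pairs (f : ℕ → ℤ) (n : ℕ) :
    ∑ i ∈ range (2 * n), f i = ∑ a ∈ range n, (f (2 * a) + f (2 * a + 1)) := by
  induction n with
  | zero => simp
  | succ n ih =>
    rw [show 2 * (n + 1) = 2 * n + 1 + 1 by ring, sum_range_succ, sum_range_succ, ih,
      sum_range_succ]
    ring

theorem t_odd (n : ℕ) : t 2 (2 * n + 1) = -2 * t 2 n := by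
  rw [t_two, t_two, show 2 * n + 1 + 1 = 2 * (n + 1) by ring, sum_pairs, mul_sum]
  apply sum_congr rfl
  intro a ha
  have ha' : a ≤ n := by simpa [Nat.lt_succ_iff] using ha
  rw [s_even, s_odd, show 2 * n + 1 - 2 * a = 2 * (n - a) + 1 by omega,
    show 2 * n + 1 - (2 * a + 1) = 2 * (n - a) by omega, s_even, s_odd]
  ring

theorem t_even (n : ℕ) : t 2 (2 * (n + 1)) = t 2 (n + 1) + t 2 n := by
  rw [t_two, t_two, t_two]
  have h1 : ∀ a ∈ range (n + 1), s (2 * a) * s (2 * (n + 1) - 2 * a) = s a * s (n + 1 - a) := by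
    intro a ha
    rw [show 2 * (n + 1) - 2 * a = 2 * (n + 1 - a) by omega, s_even, s_even]
  have h2 : ∀ a ∈ range (n + 1), s (2 * a + 1) * s (2 * (n + 1) - (2 * a + 1)) =
      s a * s (n - a) := by
    intro a ha
    have ha' : a ≤ n := by simpa [Nat.lt_succ_iff] using ha
    rw [show 2 * (n + 1) - (2 * a + 1) = 2 * (n - a) + 1 by omega, s_odd, s_odd]
    ring
  rw [sum_range_succ, sum_pairs, sum_add_distrib, sum_congr rfl h1, sum_congr rfl h2,
    sum_range_succ (fun i => s i * s (n + 1 - i)) (n + 1), s_even, Nat.sub_self, Nat.sub_self]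
  ring

/-- first relation, for `n = 3k+2` -/
theorem rel0 (k : ℕ) : 5 * t 2 (3 * (32 * k + 28)) + 3 * t 2 (3 * (64 * k + 48)) +
    2 * t 2 (3 * (4 * k + 3)) = 0 := by
  have e : ∀ n : ℕ, 1 ≤ n → t 2 (2 * n) = t 2 n + t 2 (n - 1) := by
    intro n hn
    obtain ⟨m, rfl⟩ : ∃ m, n = m + 1 := ⟨n - 1, by omega⟩
    exact t_even m
  have o : ∀ n : ℕ, t 2 (2 * n + 1) = -2 * t 2 n := t_odd
  set n := 3 * k + 2 with hn
  set a := t 2 n with ha
  set b := t 2 (n - 1) with hb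
  -- 2n, 2n-1, 2n+1
  have h2 : t 2 (2 * n) = a + b := e n (by omega)
  have h2m : t 2 (2 * n - 1) = -2 * b := by
    rw [show 2 * n - 1 = 2 * (n - 1) + 1 by omega]; exact o _
  have h2p : t 2 (2 * n + 1) = -2 * a := o n
  -- 4n, 4n+1
  have h4 : t 2 (4 * n) = a - b := by
    rw [show 4 * n = 2 * (2 * n) by ring, e _ (by omega), h2, h2m]; ring
  have h4m : t 2 (4 * n - 1) = 4 * b := by
    rw [show 4 * n - 1 = 2 * (2 * n - 1) + 1 by omega, o, h2m]; ring
  have h4p : t 2 (4 * n + 1) = -2 * a - 2 * b := by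
    rw [show 4 * n + 1 = 2 * (2 * n) + 1 by ring, o, h2]; ring
  -- 4n+2
  have h4p2 : t 2 (4 * n + 2) = -a + b := by
    rw [show 4 * n + 2 = 2 * (2 * n + 1) by ring, e _ (by omega), show 2 * n + 1 - 1 = 2 * n by omega,
      h2, h2p]; ring
  -- 8n+5 = 2(4n+2)+1, 8n+4 = 2(4n+2)
  have h8p5 : t 2 (8 * n + 5) = 2 * a - 2 * b := by
    rw [show 8 * n + 5 = 2 * (4 * n + 2) + 1 by ring, o, h4p2]; ring
  have h8p4 : t 2 (8 * n + 4) = -3 * a - b := by
    rw [show 8 * n + 4 = 2 * (4 * n + 2) by ring, e _ (by omega),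
      show 4 * n + 2 - 1 = 4 * n + 1 by omega, h4p, h4p2]; ring
  have h8p2 : t 2 (8 * n + 2) = -a - 3 * b := by
    rw [show 8 * n + 2 = 2 * (4 * n + 1) by ring, e _ (by omega),
      show 4 * n + 1 - 1 = 4 * n by omega, h4p, h4]; ring
  have h8p1 : t 2 (8 * n + 1) = -2 * a + 2 * b := by
    rw [show 8 * n + 1 = 2 * (4 * n) + 1 by ring, o, h4]; ring
  -- 16n+10 = 2(8n+5), 16n+9 = 2(8n+4)+1
  have h16p10 : t 2 (16 * n + 10) = -a - 3 * b := by
    rw [show 16 * n + 10 = 2 * (8 * n + 5) by ring, e _ (by omega),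
      show 8 * n + 5 - 1 = 8 * n + 4 by omega, h8p5, h8p4]; ring
  have h16p9 : t 2 (16 * n + 9) = 6 * a + 2 * b := by
    rw [show 16 * n + 9 = 2 * (8 * n + 4) + 1 by ring, o, h8p4]; ring
  have h16p4 : t 2 (16 * n + 4) = -3 * a - b := by
    rw [show 16 * n + 4 = 2 * (8 * n + 2) by ring, e _ (by omega),
      show 8 * n + 2 - 1 = 8 * n + 1 by omega, h8p2, h8p1]; ring
  have h16p3 : t 2 (16 * n + 3) = 4 * a - 4 * b := by
    rw [show 16 * n + 3 = 2 * (8 * n + 1) + 1 by ring, o, h8p1]; ring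
  -- 32n+20 = 2(16n+10)
  have h32 : t 2 (32 * n + 20) = 5 * a - b := by
    rw [show 32 * n + 20 = 2 * (16 * n + 10) by ring, e _ (by omega),
      show 16 * n + 10 - 1 = 16 * n + 9 by omega, h16p10, h16p9]; ring
  have h32p8 : t 2 (32 * n + 8) = a - 5 * b := by
    rw [show 32 * n + 8 = 2 * (16 * n + 4) by ring, e _ (by omega),
      show 16 * n + 4 - 1 = 16 * n + 3 by omega, h16p4, h16p3]; ring
  have h32p7 : t 2 (32 * n + 7) = -8 * a + 8 * b := by
    rw [show 32 * n + 7 = 2 * (16 * n + 3) + 1 by ring, o, h16p3]; ring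
  have h64 : t 2 (64 * n + 16) = -7 * a + 3 * b := by
    rw [show 64 * n + 16 = 2 * (32 * n + 8) by ring, e _ (by omega),
      show 32 * n + 8 - 1 = 32 * n + 7 by omega, h32p8, h32p7]; ring
  rw [show 3 * (32 * k + 28) = 32 * n + 20 by rw [hn]; ring,
    show 3 * (64 * k + 48) = 64 * n + 16 by rw [hn]; ring,
    show 3 * (4 * k + 3) = 4 * n + 1 by rw [hn]; ring, h32, h64, h4p]
  ring

/-- second relation, for `n = 3(k+1)` -/
theorem rel1 (k : ℕ) : 2 * t 2 (3 * (8 * k + 8) + 1) + 2 * t 2 (3 * (64 * k + 79) + 1) +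
    t 2 (3 * (32 * k + 32) + 1) = 0 := by
  have e : ∀ n : ℕ, 1 ≤ n → t 2 (2 * n) = t 2 n + t 2 (n - 1) := by
    intro n hn
    obtain ⟨m, rfl⟩ : ∃ m, n = m + 1 := ⟨n - 1, by omega⟩
    exact t_even m
  have o : ∀ n : ℕ, t 2 (2 * n + 1) = -2 * t 2 n := t_odd
  set n := 3 * k + 3 with hn
  set a := t 2 n with ha
  set b := t 2 (n - 1) with hb
  have h2 : t 2 (2 * n) = a + b := e n (by omega)
  have h2m : t 2 (2 * n - 1) = -2 * b := by
    rw [show 2 * n - 1 = 2 * (n - 1) + 1 by omega]; exact o _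
  have h2p : t 2 (2 * n + 1) = -2 * a := o n
  have h4 : t 2 (4 * n) = a - b := by
    rw [show 4 * n = 2 * (2 * n) by ring, e _ (by omega), h2, h2m]; ring
  have h4m : t 2 (4 * n - 1) = 4 * b := by
    rw [show 4 * n - 1 = 2 * (2 * n - 1) + 1 by omega, o, h2m]; ring
  have h8 : t 2 (8 * n) = a + 3 * b := by
    rw [show 8 * n = 2 * (4 * n) by ring, e _ (by omega), h4, h4m]; ring
  have h8m : t 2 (8 * n - 1) = -8 * b := by
    rw [show 8 * n - 1 = 2 * (4 * n - 1) + 1 by omega, o, h4m]; ring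
  have h8p1 : t 2 (8 * n + 1) = -2 * a + 2 * b := by
    rw [show 8 * n + 1 = 2 * (4 * n) + 1 by ring, o, h4]; ring
  have h16 : t 2 (16 * n) = a - 5 * b := by
    rw [show 16 * n = 2 * (8 * n) by ring, e _ (by omega), h8, h8m]; ring
  have h32p1 : t 2 (32 * n + 1) = -2 * a + 10 * b := by
    rw [show 32 * n + 1 = 2 * (16 * n) + 1 by ring, o, h16]; ring
  -- 64n+46 = 2(32n+23), 32n+23 = 2(16n+11)+1, 16n+11 = 2(8n+5)+1, 8n+5=2(4n+2)+1, 4n+2 = 2(2n+1)
  have h4p2 : t 2 (4 * n + 2) = -a + b := by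
    rw [show 4 * n + 2 = 2 * (2 * n + 1) by ring, e _ (by omega), show 2 * n + 1 - 1 = 2 * n by omega,
      h2, h2p]; ring
  have h4p1 : t 2 (4 * n + 1) = -2 * a - 2 * b := by
    rw [show 4 * n + 1 = 2 * (2 * n) + 1 by ring, o, h2]; ring
  have h8p5 : t 2 (8 * n + 5) = 2 * a - 2 * b := by
    rw [show 8 * n + 5 = 2 * (4 * n + 2) + 1 by ring, o, h4p2]; ring
  have h8p4 : t 2 (8 * n + 4) = -3 * a - b := by
    rw [show 8 * n + 4 = 2 * (4 * n + 2) by ring, e _ (by omega),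
      show 4 * n + 2 - 1 = 4 * n + 1 by omega, h4p1, h4p2]; ring
  have h16p11 : t 2 (16 * n + 11) = -4 * a + 4 * b := by
    rw [show 16 * n + 11 = 2 * (8 * n + 5) + 1 by ring, o, h8p5]; ring
  have h16p10 : t 2 (16 * n + 10) = -a - 3 * b := by
    rw [show 16 * n + 10 = 2 * (8 * n + 5) by ring, e _ (by omega),
      show 8 * n + 5 - 1 = 8 * n + 4 by omega, h8p5, h8p4]; ring
  have h32p23 : t 2 (32 * n + 23) = 8 * a - 8 * b := by
    rw [show 32 * n + 23 = 2 * (16 * n + 11) + 1 by ring, o, h16p11]; ring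
  have h32p22 : t 2 (32 * n + 22) = -5 * a + b := by
    rw [show 32 * n + 22 = 2 * (16 * n + 11) by ring, e _ (by omega),
      show 16 * n + 11 - 1 = 16 * n + 10 by omega, h16p11, h16p10]; ring
  have h64 : t 2 (64 * n + 46) = 3 * a - 7 * b := by
    rw [show 64 * n + 46 = 2 * (32 * n + 23) by ring, e _ (by omega),
      show 32 * n + 23 - 1 = 32 * n + 22 by omega, h32p23, h32p22]; ring
  rw [show 3 * (8 * k + 8) + 1 = 8 * n + 1 by rw [hn]; ring,
    show 3 * (64 * k + 79) + 1 = 64 * n + 46 by rw [hn]; ring,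
    show 3 * (32 * k + 32) + 1 = 32 * n + 1 by rw [hn]; ring, h8p1, h64, h32p1]
  ring

/-- Counting: three injective progressions hitting `A`. -/
theorem count (A : Set ℕ) (a₁ b₁ a₂ b₂ a₃ b₃ : ℕ) (h1 : 0 < a₁) (h2 : 0 < a₂) (h3 : 0 < a₃)
    (h : ∀ k, a₁ * k + b₁ ∈ A ∨ a₂ * k + b₂ ∈ A ∨ a₃ * k + b₃ ∈ A) (K N : ℕ)
    (hN : ∀ k < K, a₁ * k + b₁ < N ∧ a₂ * k + b₂ < N ∧ a₃ * k + b₃ < N) :
    K ≤ 3 * (A ∩ {n | n < N}).ncard := by
  classical
  have hfin : (A ∩ {n | n < N}).Finite := (Set.finite_lt_nat N).subset Set.inter_subset_right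
  set S := hfin.toFinset with hS
  have hcard : (A ∩ {n | n < N}).ncard = S.card := Set.ncard_eq_toFinset_card _ hfin
  rw [hcard]
  have hmem : ∀ x, x ∈ S ↔ x ∈ A ∧ x < N := by
    intro x; rw [hS, Set.Finite.mem_toFinset]; rfl
  have hsub : range K ⊆ ((range K).filter (fun k => a₁ * k + b₁ ∈ S)) ∪
      (((range K).filter (fun k => a₂ * k + b₂ ∈ S)) ∪
        ((range K).filter (fun k => a₃ * k + b₃ ∈ S))) := by
    intro k hk
    have hk' := mem_range.mp hk
    obtain ⟨n1, n2, n3⟩ := hN k hk'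
    simp only [mem_union, mem_filter, hmem]
    rcases h k with h | h | h
    · exact Or.inl ⟨hk, h, n1⟩
    · exact Or.inr (Or.inl ⟨hk, h, n2⟩)
    · exact Or.inr (Or.inr ⟨hk, h, n3⟩)
  have hc : ∀ a b : ℕ, 0 < a → ((range K).filter (fun k => a * k + b ∈ S)).card ≤ S.card := by
    intro a b ha
    apply card_le_card_of_injOn (fun k => a * k + b)
    · intro k hk
      simpa using (mem_filter.mp hk).2
    · intro x _ y _ hxy
      have : a * x = a * y := by simpa using hxy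
      exact Nat.eq_of_mul_eq_mul_left ha this
  have := card_le_card hsub
  rw [card_range] at this
  have u1 := card_union_le ((range K).filter (fun k => a₁ * k + b₁ ∈ S))
      (((range K).filter (fun k => a₂ * k + b₂ ∈ S)) ∪
        ((range K).filter (fun k => a₃ * k + b₃ ∈ S)))
  have u2 := card_union_le ((range K).filter (fun k => a₂ * k + b₂ ∈ S))
        ((range K).filter (fun k => a₃ * k + b₃ ∈ S))
  have c1 := hc a₁ b₁ h1
  have c2 := hc a₂ b₂ h2
  have c3 := hc a₃ b₃ h3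
  omega

end Q254ThueMorse
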